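import Mathlib
import Pool.Agent.Y274.CT.ExiCnt

/-!
# The number of primitive Eisenstein integers of given norm
-/

set_option autoImplicit false

open Set

namespace Run7.h238.C.ERep

open Pool.Agent.Y692.QS
open Pool.Agent.Y274.CT (exists_one not_dvd_star prime_two)

/-- the elements of norm `n` -/
def A (n : ℕ) : Set Ei := {z | nr z = (n : ℤ)}

/-- the primitive elements of norm `n` -/
def PR (n : ℕ) : Set Ei := {z | nr z = (n : ℤ) ∧ ∀ q : ℕ, q.Prime → ¬ ((q : Ei) ∣ z)}

theorem mem_A {n : ℕ} {z : Ei} : z ∈ A n ↔ nr z = (n : ℤ) := Iff.rfl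

theorem PR_sub (n : ℕ) : PR n ⊆ A n := fun _ h => h.1

theorem A_finite (n : ℕ) : (A n).Finite := by
  have h : ((Icc (-(2 * n : ℤ)) (2 * n)) ×ˢ (Icc (-(2 * n : ℤ)) (2 * n))).Finite :=
    (finite_Icc _ _).prod (finite_Icc _ _)
  have hinj : InjOn (fun z : Ei => (z.re, z.im)) (A n) := by
    intro z _ w _ hzw
    simp only [Prod.mk.injEq] at hzw
    exact QuadraticAlgebra.ext hzw.1 hzw.2
  refine Finite.of_finite_image (h.subset ?_) hinj
  rintro _ ⟨z, hz, rfl⟩
  have hz' : z.re ^ 2 - z.re * z.im + z.im ^ 2 = n := hz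
  have k1 : 3 * z.re ^ 2 ≤ 4 * n := by nlinarith [sq_nonneg (2 * z.im - z.re)]
  have k2 : 3 * z.im ^ 2 ≤ 4 * n := by nlinarith [sq_nonneg (2 * z.re - z.im)]
  have key : ∀ x : ℤ, 3 * x ^ 2 ≤ 4 * n → -(2 * n : ℤ) ≤ x ∧ x ≤ 2 * n := by
    intro x hx
    have hn : (0 : ℤ) ≤ n := Int.natCast_nonneg n
    constructor <;> nlinarith [sq_nonneg (x + 1), sq_nonneg (x - 1), sq_nonneg x]
  simp only [mem_prod, mem_Icc]
  exact ⟨key _ k1, key _ k2⟩

theorem PR_finite (n : ℕ) : (PR n).Finite := (A_finite n).subset (PR_sub n)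

theorem dvd_star' {a b : Ei} (h : a ∣ b) : star a ∣ star b := by
  obtain ⟨c, rfl⟩ := h
  rw [star_mul']
  exact dvd_mul_right _ _

theorem star_prime {a : Ei} (h : Prime a) : Prime (star a) := by
  refine ⟨?_, ?_, ?_⟩
  · simpa using h.ne_zero
  · intro hu
    apply h.not_isUnit
    have := hu.star
    rwa [star_star] at this
  · intro b c hbc
    have h1 := dvd_star' hbc
    rw [star_star, star_mul'] at h1
    rcases h.dvd_or_dvd h1 with h2 | h2
    · left; have := dvd_star' h2; rwa [star_star] at this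
    · right; have := dvd_star' h2; rwa [star_star] at this

theorem nr_pow' (π : Ei) (e : ℕ) : nr (π ^ e) = nr π ^ e := by
  induction e with
  | zero => rw [pow_zero, pow_zero, nr_one]
  | succ e ih => rw [pow_succ, pow_succ, nr_mul, ih]

theorem step_odd {p m : ℕ} {π : Ei} (hπ : Prime π) (hn : nr π = p) (hco : ¬ π ∣ star π) (e : ℕ)
    {z : Ei} (hz : z ∈ A (p ^ e * m)) (hpz : ¬ (p : Ei) ∣ z) : π ^ e ∣ z ∨ (star π) ^ e ∣ z := by
  have h1 : z * star z = ((p : Ei) ^ e) * m := by
    rw [mul_star, mem_A.mp hz]; push_cast; ring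
  have hpp : (p : Ei) = π * star π := by
    rw [mul_star, hn]; push_cast; rfl
  have h2 : π ^ e ∣ z * star z := by
    rw [h1, hpp, mul_pow, mul_assoc]; exact dvd_mul_right _ _
  have h3 : (star π) ^ e ∣ z * star z := by
    rw [h1, hpp, mul_pow, mul_comm (π ^ e), mul_assoc]; exact dvd_mul_right _ _
  by_cases hz1 : π ∣ z
  · left
    have hz2 : ¬ star π ∣ z := by
      intro hz2
      apply hpz
      obtain ⟨c, hc⟩ := hz2
      rw [hc] at hz1
      rcases hπ.dvd_or_dvd hz1 with h | h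
      · exact absurd h hco
      · rw [hc, hpp, mul_comm π]
        exact mul_dvd_mul_left _ h
    have := (star_prime hπ).pow_dvd_of_dvd_mul_left e hz2 h3
    have h4 := dvd_star' this
    rw [star_pow, star_star, star_star] at h4
    exact h4
  · right
    have := hπ.pow_dvd_of_dvd_mul_left e hz1 h2
    have h4 := dvd_star' this
    rw [star_pow, star_star] at h4
    exact h4

theorem sub_pi {p m : ℕ} (hp : p.Prime) {π : Ei} (hn : nr π = p) (e : ℕ) {z : Ei}
    (hz : z ∈ A (p ^ e * m)) (hpz : π ^ e ∣ z) : z ∈ (fun w => π ^ e * w) '' A m := by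
  obtain ⟨w, rfl⟩ := hpz
  refine ⟨w, ?_, rfl⟩
  rw [mem_A] at hz ⊢
  rw [nr_mul, nr_pow', hn] at hz
  have hp0 : (p : ℤ) ^ e ≠ 0 := by have := hp.pos; positivity
  apply mul_left_cancel₀ hp0
  rw [hz]; push_cast; ring

theorem natCast_dvd_of_coprime {q : ℕ} {m : ℤ} {z : Ei} (hq : IsCoprime (q : ℤ) m)
    (h : (q : Ei) ∣ (m : Ei) * z) : (q : Ei) ∣ z := by
  obtain ⟨u, v, huv⟩ := hq
  have e : z = (u : Ei) * ((q : Ei) * z) + (v : Ei) * ((m : Ei) * z) := by
    have h1 : ((u * (q : ℤ) + v * m : ℤ) : Ei) = 1 := by rw [huv]; simp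
    calc z = ((u * (q : ℤ) + v * m : ℤ) : Ei) * z := by rw [h1, one_mul]
      _ = _ := by push_cast; ring
  rw [e]
  exact dvd_add ((dvd_mul_right _ _).mul_left _) (h.mul_left _)

/-- multiplication by the power of a prime element -/
theorem mul_mem {p m : ℕ} (hp : p.Prime) (hpm : ¬ p ∣ m) {π : Ei} (hπ : Prime π)
    (hn : nr π = (p : ℤ)) (hco : ¬ π ∣ star π) {e : ℕ} {w : Ei} (hw : w ∈ PR m) :
    π ^ e * w ∈ PR (p ^ e * m) := by
  have hpp : (p : Ei) = π * star π := by
    rw [mul_star, hn]; push_cast; rfl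
  have hst : Prime (star π) := star_prime hπ
  have hns : nr (star π) = (p : ℤ) := by rw [nr_star, hn]
  refine ⟨?_, fun q hq hd => ?_⟩
  · rw [nr_mul, nr_pow', hn, hw.1]
    push_cast
    ring
  · by_cases hqp : q = p
    · subst hqp
      -- `star π` divides `w`
      have h1 : star π ∣ π ^ e * w := (Dvd.intro_left π hpp.symm).trans hd
      rcases hst.dvd_or_dvd h1 with h2 | h2
      · have h3 := hst.dvd_of_dvd_pow h2
        have h4 := dvd_star' h3
        rw [star_star] at h4
        exact hco h4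
      · obtain ⟨c, hc⟩ := h2
        have h3 := congrArg nr hc
        rw [nr_mul, hns, hw.1] at h3
        apply hpm
        have h4 : (q : ℤ) ∣ m := ⟨_, h3⟩
        exact_mod_cast h4
    · apply hw.2 q hq
      have h1 : (q : Ei) ∣ (((p : ℤ) ^ e : ℤ) : Ei) * w := by
        have h2 : (((p : ℤ) ^ e : ℤ) : Ei) * w = (star π) ^ e * (π ^ e * w) := by
          push_cast
          rw [hpp, mul_pow]
          ring
        rw [h2]
        exact hd.mul_left _
      refine natCast_dvd_of_coprime ?_ h1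
      apply IsCoprime.pow_right
      exact Nat.isCoprime_iff_coprime.2 ((Nat.coprime_primes hq hp).2 hqp)

/-- the step -/
theorem step {p m : ℕ} (hp : p.Prime) (hpm : ¬ p ∣ m) {π : Ei} (hπ : Prime π)
    (hn : nr π = (p : ℤ)) (hco : ¬ π ∣ star π) (e : ℕ) :
    PR (p ^ e * m) = ((fun w => π ^ e * w) '' PR m) ∪ ((fun w => (star π) ^ e * w) '' PR m) := by
  have hst : Prime (star π) := star_prime hπ
  have hns : nr (star π) = (p : ℤ) := by rw [nr_star, hn]
  have hco' : ¬ star π ∣ star (star π) := by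
    rw [star_star]
    intro h
    have h1 := dvd_star' h
    rw [star_star] at h1
    exact hco h1
  apply Set.Subset.antisymm
  · intro z hz
    have hpz : ¬ (p : Ei) ∣ z := hz.2 p hp
    rcases step_odd hπ hn hco e hz.1 hpz with h | h
    · left
      obtain ⟨w, hw, rfl⟩ := sub_pi hp hn e hz.1 h
      exact ⟨w, ⟨hw, fun q hq hd => hz.2 q hq (hd.mul_left _)⟩, rfl⟩
    · right
      obtain ⟨w, hw, rfl⟩ := sub_pi hp hns e hz.1 h
      exact ⟨w, ⟨hw, fun q hq hd => hz.2 q hq (hd.mul_left _)⟩, rfl⟩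
  · rintro z (⟨w, hw, rfl⟩ | ⟨w, hw, rfl⟩)
    · exact mul_mem hp hpm hπ hn hco hw
    · exact mul_mem hp hpm hst hns hco' hw

/-- the number in one step -/
theorem card_step {p m e : ℕ} (hp : p.Prime) (h3 : p % 3 = 1) (hpm : ¬ p ∣ m) (he : e ≠ 0) :
    (PR (p ^ e * m)).ncard = 2 * (PR m).ncard := by
  obtain ⟨π, hπ, hn⟩ := exists_one hp h3
  have hco : ¬ π ∣ star π := not_dvd_star hp (by rintro rfl; norm_num at h3) hn
  have hst : Prime (star π) := star_prime hπ
  rw [step hp hpm hπ hn hco e, ncard_union_eq ?_ ((PR_finite m).image _) ((PR_finite m).image _),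
    ncard_image_of_injective, ncard_image_of_injective]
  · ring
  · intro a b hab
    exact mul_left_cancel₀ (pow_ne_zero e hst.ne_zero) hab
  · intro a b hab
    exact mul_left_cancel₀ (pow_ne_zero e hπ.ne_zero) hab
  · rw [Set.disjoint_left]
    rintro _ ⟨w, hw, rfl⟩ ⟨w', hw', h⟩
    simp only at h
    have h1 : π ∣ (star π) ^ e * w' := by
      rw [h]
      exact (dvd_pow_self π he).mul_right _
    rcases hπ.dvd_or_dvd h1 with h2 | h2
    · exact hco (hπ.dvd_of_dvd_pow h2)
    · obtain ⟨c, hc⟩ := h2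
      have h3 := congrArg nr hc
      rw [nr_mul, hn, hw'.1] at h3
      apply hpm
      have h5 : (p : ℤ) ∣ m := ⟨_, h3⟩
      exact_mod_cast h5

theorem PR_one : PR 1 = {⟨1, 0⟩, ⟨-1, 0⟩, ⟨0, 1⟩, ⟨0, -1⟩, ⟨1, 1⟩, ⟨-1, -1⟩} := by
  ext z
  obtain ⟨x, y⟩ := z
  constructor
  · rintro ⟨h1, -⟩
    unfold nr at h1
    simp only [Nat.cast_one] at h1
    have hx : -1 ≤ x ∧ x ≤ 1 := by constructor <;> nlinarith [sq_nonneg (2 * y - x), sq_nonneg (x - 1), sq_nonneg (x + 1)]
    have hy : -1 ≤ y ∧ y ≤ 1 := by constructor <;> nlinarith [sq_nonneg (2 * x - y), sq_nonneg (y - 1), sq_nonneg (y + 1)]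
    obtain ⟨hx1, hx2⟩ := hx
    obtain ⟨hy1, hy2⟩ := hy
    interval_cases x <;> interval_cases y <;> simp at h1 ⊢
  · intro h
    have h1 : nr (⟨x, y⟩ : Ei) = 1 := by
      unfold nr
      simp only [mem_insert_iff, mem_singleton_iff, QuadraticAlgebra.mk.injEq] at h
      rcases h with ⟨rfl, rfl⟩ | ⟨rfl, rfl⟩ | ⟨rfl, rfl⟩ | ⟨rfl, rfl⟩ | ⟨rfl, rfl⟩ | ⟨rfl, rfl⟩ <;>
        norm_num
    refine ⟨by rw [h1]; norm_num, fun q hq hd => ?_⟩
    obtain ⟨c, hc⟩ := hd
    have h2 := congrArg nr hc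
    rw [h1, nr_mul, nr_nat] at h2
    have h3 : (q : ℤ) ∣ 1 := ⟨q * nr c, by linear_combination h2⟩
    have h4 : q ∣ 1 := by exact_mod_cast h3
    exact hq.one_lt.ne' (Nat.dvd_one.1 h4)

theorem card_PR_one : (PR 1).ncard = 6 := by
  rw [PR_one]
  rw [ncard_insert_of_notMem, ncard_insert_of_notMem, ncard_insert_of_notMem,
    ncard_insert_of_notMem, ncard_insert_of_notMem, ncard_singleton]
  · simp
  · simp
  · simp
  · simp
  · simp

/-- **the number of the primitive Eisenstein integers of norm `n`** -/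
theorem card_PR (n : ℕ) (hn : n ≠ 0) (h : ∀ p ∈ n.primeFactors, p % 3 = 1) :
    (PR n).ncard = 6 * 2 ^ n.primeFactors.card := by
  induction n using Nat.strong_induction_on with
  | _ n ih =>
    rcases Nat.lt_or_ge 1 n with h1 | h1
    · set p := n.minFac with hp
      have hpp : p.Prime := Nat.minFac_prime (by omega)
      have hpn : p ∣ n := Nat.minFac_dvd n
      set e := n.factorization p with he
      set m := n / p ^ e with hm
      have hdecomp : p ^ e * m = n := Nat.ordProj_mul_ordCompl_eq_self n p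
      have hnd : ¬ p ∣ m := Nat.not_dvd_ordCompl hpp hn
      have he1 : 1 ≤ e := by
        rw [he]; exact (hpp.dvd_iff_one_le_factorization hn).mp hpn
      have hm0 : m ≠ 0 := by
        intro h0
        rw [h0, mul_zero] at hdecomp
        exact hn hdecomp.symm
      have hlt : m < n := by
        rw [← hdecomp]
        have : 2 ≤ p ^ e := by
          calc 2 ≤ p := hpp.two_le
            _ = p ^ 1 := (pow_one p).symm
            _ ≤ p ^ e := Nat.pow_le_pow_right hpp.pos he1
        have := Nat.pos_of_ne_zero hm0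
        nlinarith
      have hpf : n.primeFactors = insert p m.primeFactors := by
        rw [← hdecomp, Nat.primeFactors_mul (pow_ne_zero e hpp.ne_zero) hm0,
          Nat.primeFactors_prime_pow (by omega) hpp]
        rfl
      have hpm : p ∉ m.primeFactors := fun h => hnd (Nat.dvd_of_mem_primeFactors h)
      have h4 : p % 3 = 1 := h p (by rw [hpf]; exact Finset.mem_insert_self _ _)
      have h2 := card_step hpp h4 hnd (by omega : e ≠ 0)
      rw [hdecomp] at h2
      rw [h2, ih m hlt hm0 (fun q hq => h q (by rw [hpf]; exact Finset.mem_insert_of_mem hq)), hpf,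
        Finset.card_insert_of_notMem hpm]
      ring
    · have h2 : n = 1 := by omega
      rw [h2, card_PR_one, Nat.primeFactors_one, Finset.card_empty, pow_zero, mul_one]

/-- no primitive elements if a prime `2 mod 3` divides the norm -/
theorem PR_empty {n p : ℕ} (hp : p.Prime) (h3 : p % 3 = 2) (hpn : p ∣ n) : PR n = ∅ := by
  rw [Set.eq_empty_iff_forall_notMem]
  rintro z ⟨h1, h2⟩
  have hpr : Prime (p : Ei) := prime_two hp h3
  have h4 : (p : Ei) ∣ z * star z := by
    rw [mul_star, h1]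
    obtain ⟨k, rfl⟩ := hpn
    exact ⟨(k : Ei), by push_cast; ring⟩
  rcases hpr.dvd_or_dvd h4 with h | h
  · exact h2 p hp h
  · have h5 := dvd_star' h
    rw [star_star, star_natCast] at h5
    exact h2 p hp h5

/-- the primitive elements of norm prime to `3` have all prime factors `1 mod 3` -/
theorem pf_of_mem {n : ℕ} (h3 : ¬ 3 ∣ n) {z : Ei} (hz : z ∈ PR n) :
    ∀ p ∈ n.primeFactors, p % 3 = 1 := by
  intro p hp
  have hpp := Nat.prime_of_mem_primeFactors hp
  have hpn := Nat.dvd_of_mem_primeFactors hp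
  by_contra hc
  have h0 : p % 3 ≠ 0 := by
    intro h0
    have h1 : 3 ∣ p := Nat.dvd_of_mod_eq_zero h0
    exact h3 (h1.trans hpn)
  have h4 := PR_empty hpp (by omega) hpn
  rw [h4] at hz
  exact hz

end Run7.h238.C.ERep
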