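import Pool.Agent.Run7.h238.C.Bad

/-!
# Weighted sums over the exceptional sets: degenerate labels, the total
-/

set_option autoImplicit false

open scoped Classical

namespace Run7.h238.C

open Finset
open Filter
open Pool.Agent.Y692.QS (Ei)
open Pool.Agent.Y699.E (PS nrm lg one_le_lg lg_mono CH)
open Pool.Agent.Y703.CX
open Pool.Agent.Y37.CX (AA Pf Qf Sf mem_Sf dtP dtQ xt Pm Pm_nonneg Pm_mono Pm_le prod_pos_of
  lg_pow_le prod_sq_le)
open Pool.Agent.R413.SQ (Sml sml_of sml_add)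
open Run7.h238.WSie (wsie)
open Run7.h238.WFew (wt wt_nonneg wt_mono wt_union wt_card)

/-- **the weight of the sets with degenerate labels** -/
theorem bad (hSIE : S_SIE) (hL : LamP) (hL3 : L3) (T : Finset ℕ) (hT : ∀ t ∈ T, t.Prime) :
    Sml 0 fun X => wt ((SP X).filter fun S => S.card ≤ kk X ∧
      ¬ Nd (T ∪ sm (zz X) S) (la (zz X) S)) := by
  obtain ⟨C₁, h11, h1⟩ := wsie hSIE
  obtain ⟨C₃, h30, h3⟩ := Pm_le
  have hC1 : 0 ≤ C₁ := by linarith
  set tt : ℕ := T.card with htt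
  set D0 : ℝ := 2 * 3 ^ tt * (3 * C₁ * (864 * 200) ^ 2) * Real.exp (6 * C₃) with hD0
  have hD00 : 0 ≤ D0 := by
    rw [hD0]
    positivity
  refine sml_of (C := D0) (a := 1 / 4) (by norm_num) ?_
  filter_upwards [params C₃ tt, WFin.zz_tendsto.eventually (eventually_ge_atTop (T.sup id))]
    with X hX hTz
  obtain ⟨hX3, hl2, hlog1, h33, htk, hfin⟩ := hX
  have hTz' : ∀ t ∈ T, t ≤ zz X := fun t ht => (le_sup (f := id) ht).trans hTz
  have hl0 : 0 < eL X := by linarith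
  have hlXe := logX_eq hl0
  set ℓ : ℝ := eL X with hℓ
  set z : ℕ := zz X with hz
  set k : ℕ := kk X with hk
  have hlX : 0 < Real.log X := by linarith
  have hk11 : (k : ℝ) ≤ 11 * ℓ := kk_le (by linarith)
  have hl3 : (8 : ℝ) ≤ ℓ ^ 3 := by
    have := pow_le_pow_left₀ (by norm_num : (0 : ℝ) ≤ 2) hl2 3
    linarith
  have hz3 : 3 ≤ z := by
    rw [hz]
    unfold zz
    apply Nat.le_floor
    have h := Real.add_one_le_exp ((eL X) ^ 3)
    rw [← hℓ] at h ⊢
    push_cast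
    linarith
  have hz1 : 1 ≤ z := by omega
  have hz0 : (0 : ℝ) < z := by exact_mod_cast hz1
  have hzlog : Real.log z ≤ ℓ ^ 3 := by
    rw [Real.log_le_iff_le_exp hz0]
    exact Nat.floor_le (Real.exp_pos _).le
  have hzlog0 : 0 < Real.log z := Real.log_pos (by exact_mod_cast (by omega : 1 < z))
  have hl4 : (16 : ℝ) ≤ ℓ ^ 4 := by
    have := pow_le_pow_left₀ (by norm_num : (0 : ℝ) ≤ 2) hl2 4
    linarith
  have hX0 : (0 : ℝ) < X := by exact_mod_cast (by omega : 0 < X)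
  -- the size of the families
  set R : ℝ := 3 * C₁ * ((1 + (ℓ + C₃)) * (864 * (200 * ℓ ^ 4) * (Real.log X) ^ (1 / 3 : ℝ))) ^ 2 /
    Real.log X with hR
  have hrp0 : 0 < (Real.log X) ^ (1 / 3 : ℝ) := Real.rpow_pos_of_pos hlX _
  have hR0 : 0 ≤ R := by
    rw [hR]
    positivity
  have key : ∀ S₀ : Finset ℕ, (∀ u ∈ S₀, u.Prime) → (∀ u ∈ S₀, u ≤ z) → S₀.card ≤ k →
      ∀ (b : Bool) (v : ℕ → ZMod 3), ntV (T ∪ S₀) b v →
      wt (famC (chV (T ∪ S₀) b v) (X / ∏ p ∈ S₀, p)) ≤ (X : ℝ) / ((∏ p ∈ S₀, p : ℕ) : ℝ) * R := by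
    intro S₀ hS₀ hSz hSk b v hn
    set U := T ∪ S₀ with hU
    have hUp : ∀ u ∈ U, u.Prime := by
      intro u hu
      rw [hU, mem_union] at hu
      rcases hu with h | h
      · exact hT u h
      · exact hS₀ u h
    have hUz : ∀ u ∈ U, u ≤ z := by
      intro u hu
      rw [hU, mem_union] at hu
      rcases hu with h | h
      · exact hTz' u h
      · exact hSz u h
    have hUc : U.card ≤ 2 * k := by
      have := card_union_le T S₀
      rw [← hU, ← htt] at this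
      omega
    obtain ⟨hch, hbd⟩ := chV_ok hL hUp b v hn
    have hdP := dtP hL (U3_spec hUp) b v
    have hdQ := dtQ hL (U3_spec hUp) b v
    set NN' : ℕ := 9 * (nrm (AA (Sf b (U3 U)) (Pf b v)) * nrm (AA (Sf b (U3 U)) (Qf b v))) with hNN'
    have hN1 : 1 ≤ NN' := by
      have a1 := Pool.Agent.Y699.E.nrm_pos' hdP.ps.ne
      have a2 := Pool.Agent.Y699.E.nrm_pos' hdQ.ps.ne
      have := Nat.mul_pos a1 a2
      omega
    set N : ℕ := ∏ p ∈ S₀, p with hN
    have hN0 : 0 < N := prod_pos_of fun p hp => hS₀ p hp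
    have hN0' : (0 : ℝ) < N := by exact_mod_cast hN0
    have hlN : Real.log N ≤ 11 * ℓ ^ 4 := by
      have e1 : Real.log N = ∑ p ∈ S₀, Real.log p := by
        rw [hN]
        push_cast
        rw [Real.log_prod]
        intro p hp
        have := (hS₀ p hp).ne_zero
        exact_mod_cast this
      rw [e1]
      calc ∑ p ∈ S₀, Real.log p ≤ ∑ _p ∈ S₀, Real.log z := by
            refine sum_le_sum fun p hp => ?_
            exact Real.log_le_log (by exact_mod_cast (hS₀ p hp).pos) (by exact_mod_cast hSz p hp)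
        _ = S₀.card * Real.log z := by rw [sum_const, nsmul_eq_mul]
        _ ≤ (11 * ℓ) * ℓ ^ 3 := by
            refine mul_le_mul (le_trans (by exact_mod_cast hSk) hk11) hzlog hzlog0.le (by positivity)
        _ = 11 * ℓ ^ 4 := by ring
    set Y : ℕ := X / N with hY
    have hYle : (Y : ℝ) ≤ (X : ℝ) / N := Nat.cast_div_le
    have hYge : Real.exp (Real.log X / 3) ≤ Y := by
      have e1 : (X : ℝ) / N < Y + 1 := by
        rw [div_lt_iff₀ hN0']
        have := Nat.lt_mul_div_succ X hN0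
        rw [← hY] at this
        have h' : ((X : ℕ) : ℝ) < ((N * (Y + 1) : ℕ) : ℝ) := by exact_mod_cast this
        push_cast at h'
        linarith
      have e2 : Real.exp (Real.log X - Real.log N) = (X : ℝ) / N := by
        rw [Real.exp_sub, Real.exp_log hX0, Real.exp_log hN0']
      have e3 : Real.exp (Real.log X / 3 + 1) ≤ (X : ℝ) / N := by
        rw [← e2]
        apply Real.exp_le_exp.2
        linarith
      rw [Real.exp_add] at e3
      have e4 : (2 : ℝ) ≤ Real.exp 1 := by have := Real.exp_one_gt_d9; linarith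
      have e5 : (1 : ℝ) ≤ Real.exp (Real.log X / 3) := Real.one_le_exp (by positivity)
      nlinarith
    have hY2 : 2 ≤ Y := by
      have e1 := Real.add_one_le_exp (Real.log X / 3)
      have e2 : (2 : ℝ) ≤ Y := by linarith
      exact_mod_cast e2
    have hY0 : (0 : ℝ) < Y := by exact_mod_cast (by omega : 0 < Y)
    have hlY : Real.log X / 3 ≤ Real.log Y := by
      rw [Real.le_log_iff_exp_le hY0]
      exact hYge
    have hYX : Y ≤ X := Nat.div_le_self _ _
    have hlYX : Real.log Y ≤ Real.log X := Real.log_le_log hY0 (by exact_mod_cast hYX)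
    have hlY0 : 0 < Real.log Y := by linarith
    have hPm : Pm Y ≤ ℓ + C₃ := (Pm_mono hYX).trans (h3 X hX3)
    -- the conductors
    have hlg : lg NN' ≤ 200 * ℓ ^ 4 := by
      have hSf : ∀ u ∈ Sf b (U3 U), u ≤ z := fun u hu => hUz u (mem_filter.1 (mem_Sf hu)).1
      have hSc : (Sf b (U3 U)).card ≤ 2 * k :=
        (card_le_card fun u hu => (mem_filter.1 (mem_Sf hu)).1).trans hUc
      have e1 := (hdP.nrm_le).trans (prod_sq_le hz1 hSf hSc)
      have e2 := (hdQ.nrm_le).trans (prod_sq_le hz1 hSf hSc)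
      have e3 : NN' ≤ z ^ (4 * (2 * k + 1)) := by
        have e9 : 9 ≤ z ^ 4 := by
          calc 9 = 3 ^ 2 := by norm_num
            _ ≤ z ^ 2 := Nat.pow_le_pow_left hz3 2
            _ ≤ z ^ 4 := Nat.pow_le_pow_right hz1 (by norm_num)
        rw [hNN']
        refine (Nat.mul_le_mul e9 (Nat.mul_le_mul e1 e2)).trans (le_of_eq ?_)
        rw [← pow_add, ← pow_add]
        congr 1
        ring
      refine (lg_mono e3).trans ((lg_pow_le hz1).trans ?_)
      have hl2' := Real.log_two_gt_d9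
      have e4 : 4 * ((2 * k + 1 : ℕ) : ℝ) * Real.log z ≤ 90 * ℓ ^ 4 := by
        have e5 : ((2 * k + 1 : ℕ) : ℝ) ≤ 22 * ℓ + 1 := by
          push_cast
          linarith
        have e6 : ((2 * k + 1 : ℕ) : ℝ) * Real.log z ≤ (22 * ℓ + 1) * ℓ ^ 3 :=
          mul_le_mul e5 hzlog hzlog0.le (by positivity)
        have e7 : (1 : ℝ) * ℓ ^ 3 ≤ 1 / 2 * ℓ ^ 4 := by
          have : ℓ ^ 4 = ℓ * ℓ ^ 3 := by ring
          rw [this]
          nlinarith
        have e8 : (22 * ℓ + 1) * ℓ ^ 3 = 22 * ℓ ^ 4 + 1 * ℓ ^ 3 := by ring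
        linarith
      have e5 : 4 * ((2 * k + 1 : ℕ) : ℝ) * Real.log z / Real.log 2 ≤ 150 * ℓ ^ 4 := by
        rw [div_le_iff₀ (by linarith)]
        nlinarith
      linarith
    have hlg1 := one_le_lg NN'
    have hlg6 : (lg NN') ^ (1 / 6 : ℝ) ≤ 200 * ℓ ^ 4 := by
      refine le_trans ?_ hlg
      have := Real.rpow_le_rpow_of_exponent_le hlg1 (show (1 / 6 : ℝ) ≤ 1 by norm_num)
      rwa [Real.rpow_one] at this
    have hmain := famC_wt h11 h1 hL hch hN1 hbd hY2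
    have hrY : (Real.log Y) ^ (1 / 3 : ℝ) ≤ (Real.log X) ^ (1 / 3 : ℝ) :=
      Real.rpow_le_rpow hlY0.le hlYX (by norm_num)
    have hPm0 := Pm_nonneg Y
    have hlg60 : 0 ≤ (lg NN') ^ (1 / 6 : ℝ) := Real.rpow_nonneg (by linarith) _
    have hrY0 : 0 ≤ (Real.log Y) ^ (1 / 3 : ℝ) := Real.rpow_nonneg hlY0.le _
    have hb : C₁ * Y * ((1 + Pm Y) *
      (864 * (lg NN') ^ (1 / 6 : ℝ) * (Real.log Y) ^ (1 / 3 : ℝ))) ^ 2 ≤
      C₁ * ((X : ℝ) / N) * ((1 + (ℓ + C₃)) *
      (864 * (200 * ℓ ^ 4) * (Real.log X) ^ (1 / 3 : ℝ))) ^ 2 := by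
      gcongr
    have hc : wt (famC (chV U b v) Y) * (Real.log X / 3) ≤
        C₁ * ((X : ℝ) / N) * ((1 + (ℓ + C₃)) *
      (864 * (200 * ℓ ^ 4) * (Real.log X) ^ (1 / 3 : ℝ))) ^ 2 := by
      refine le_trans ?_ (hmain.trans hb)
      exact mul_le_mul_of_nonneg_left hlY (wt_nonneg _)
    have hd : (X : ℝ) / N * R = (C₁ * ((X : ℝ) / N) * ((1 + (ℓ + C₃)) *
      (864 * (200 * ℓ ^ 4) * (Real.log X) ^ (1 / 3 : ℝ))) ^ 2) / (Real.log X / 3) := by
      rw [hR]
      field_simp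
    rw [hd, le_div_iff₀ (by positivity)]
    exact hc
  -- the sum over the small parts
  set B := (SP X).filter fun S => S.card ≤ k ∧ ¬ Nd (T ∪ sm z S) (la z S) with hB
  set D := (range (z + 1)).filter fun p => p.Prime with hD
  set W := D.powerset.filter fun S => S.card ≤ k with hW
  have hmaps : ∀ S ∈ B, sm z S ∈ W := by
    intro S hS
    rw [hB, mem_filter, mem_SP] at hS
    obtain ⟨⟨k1, k2⟩, k4, k5⟩ := hS
    rw [hW, mem_filter, mem_powerset]
    refine ⟨fun p hp => ?_, (card_le_card (filter_subset _ _)).trans k4⟩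
    obtain ⟨l1, l2⟩ := mem_filter.1 hp
    rw [hD, mem_filter, mem_range]
    exact ⟨by omega, (k1 p l1).1⟩
  have hcard : wt B ≤ ∑ S₀ ∈ W, 2 * 3 ^ tt * 6 ^ S₀.card *
      ((X : ℝ) / ((∏ p ∈ S₀, p : ℕ) : ℝ) * R) := by
    unfold wt
    rw [← sum_fiberwise_of_maps_to hmaps]
    refine sum_le_sum fun S₀ hS₀ => ?_
    rw [hW, mem_filter, mem_powerset] at hS₀
    have hpr : ∀ u ∈ S₀, u.Prime := fun u hu => (mem_filter.1 (hS₀.1 hu)).2
    have hle : ∀ u ∈ S₀, u ≤ z := fun u hu => by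
      have := mem_range.1 (mem_filter.1 (hS₀.1 hu)).1
      omega
    have e1 : wt (B.filter fun S => sm z S = S₀) ≤
        wt ((SP X).filter fun S => ¬ Nd (T ∪ sm z S) (la z S) ∧ sm z S = S₀) := by
      refine wt_mono fun S hS => ?_
      rw [mem_filter, hB, mem_filter] at hS
      rw [mem_filter]
      exact ⟨hS.1.1, hS.1.2.2, hS.2⟩
    have e2 := e1.trans (fiberC hL hL3 T hT X z hTz' hpr)
    have hnn : 0 ≤ (X : ℝ) / ((∏ p ∈ S₀, p : ℕ) : ℝ) * R := by positivity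
    have e3 : (∑ t : Bool × ((T ∪ S₀ : Finset ℕ) → ZMod 3),
        if ntV (T ∪ S₀) t.1 (xt (T ∪ S₀) t.2) then
          wt (famC (chV (T ∪ S₀) t.1 (xt (T ∪ S₀) t.2)) (X / ∏ p ∈ S₀, p)) else 0) ≤
        ∑ t : Bool × ((T ∪ S₀ : Finset ℕ) → ZMod 3), (X : ℝ) / ((∏ p ∈ S₀, p : ℕ) : ℝ) * R := by
      refine sum_le_sum fun t _ => ?_
      split_ifs with ht
      · exact key S₀ hpr hle hS₀.2 t.1 _ ht
      · exact hnn
    refine (e2.trans (mul_le_mul_of_nonneg_left e3 (by positivity))).trans ?_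
    rw [sum_const, card_univ, Fintype.card_prod, Fintype.card_bool, Fintype.card_fun, ZMod.card,
      Fintype.card_coe, nsmul_eq_mul, ← mul_assoc]
    refine mul_le_mul_of_nonneg_right ?_ hnn
    have hU3 : (3 : ℝ) ^ (T ∪ S₀).card ≤ 3 ^ tt * 3 ^ S₀.card := by
      rw [← pow_add]
      exact pow_le_pow_right₀ (by norm_num) (card_union_le _ _)
    have h6 : (6 : ℝ) ^ S₀.card = 2 ^ S₀.card * 3 ^ S₀.card := by
      rw [← mul_pow]
      norm_num
    rw [h6]
    push_cast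
    have h2p : (0 : ℝ) ≤ 2 ^ S₀.card * 2 := by positivity
    have h7 := mul_le_mul_of_nonneg_left hU3 h2p
    calc (2 : ℝ) ^ S₀.card * (2 * 3 ^ (T ∪ S₀).card) = 2 ^ S₀.card * 2 * 3 ^ (T ∪ S₀).card := by ring
      _ ≤ 2 ^ S₀.card * 2 * (3 ^ tt * 3 ^ S₀.card) := h7
      _ = _ := by ring
  have hsum : ∑ S₀ ∈ W, 2 * 3 ^ tt * 6 ^ S₀.card * ((X : ℝ) / ((∏ p ∈ S₀, p : ℕ) : ℝ) * R) ≤
      2 * 3 ^ tt * (X * R) * Real.exp (6 * Pm z) := by
    have e1 : ∀ S₀ ∈ W, 2 * 3 ^ tt * 6 ^ S₀.card * ((X : ℝ) / ((∏ p ∈ S₀, p : ℕ) : ℝ) * R) =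
        2 * 3 ^ tt * (X * R) * ∏ p ∈ S₀, (6 / (p : ℝ)) := by
      intro S₀ _
      rw [prod_div_distrib, prod_const]
      push_cast
      ring
    rw [sum_congr rfl e1, ← mul_sum]
    have h2XR : 0 ≤ 2 * 3 ^ tt * ((X : ℝ) * R) := by positivity
    refine mul_le_mul_of_nonneg_left ?_ h2XR
    calc ∑ S₀ ∈ W, ∏ p ∈ S₀, (6 / (p : ℝ)) ≤ ∑ S₀ ∈ D.powerset, ∏ p ∈ S₀, (6 / (p : ℝ)) := by
          refine sum_le_sum_of_subset_of_nonneg (filter_subset _ _) fun S _ _ => ?_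
          exact prod_nonneg fun _ _ => by positivity
      _ = ∏ p ∈ D, (1 + 6 / (p : ℝ)) := by rw [prod_one_add]
      _ ≤ ∏ p ∈ D, Real.exp (6 / (p : ℝ)) := by
          refine prod_le_prod (fun _ _ => by positivity) fun p _ => ?_
          rw [add_comm]
          exact Real.add_one_le_exp _
      _ = Real.exp (∑ p ∈ D, 6 / (p : ℝ)) := by rw [Real.exp_sum]
      _ ≤ Real.exp (6 * Pm z) := by
          apply Real.exp_le_exp.2
          unfold Pm
          rw [mul_sum]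
          have e2 : ∀ p : ℕ, 6 / (p : ℝ) = 6 * (1 / p) := fun p => by ring
          simp_rw [e2]
          refine sum_le_sum_of_subset_of_nonneg ?_ fun _ _ _ => by positivity
          intro p hp
          rw [hD, mem_filter, mem_range] at hp
          rw [mem_filter, mem_Icc]
          exact ⟨⟨hp.2.pos, by omega⟩, hp.2⟩
  have hexp : Real.exp (6 * Pm z) ≤ Real.exp (6 * C₃) * ℓ ^ 18 := by
    have e1 := h3 z hz3
    have e2 : Real.exp (6 * Pm z) ≤ Real.exp (6 * (Real.log (Real.log z) + C₃)) :=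
      Real.exp_le_exp.2 (by linarith)
    refine e2.trans ?_
    have e3 : Real.exp (6 * (Real.log (Real.log z) + C₃)) = Real.exp (6 * C₃) * (Real.log z) ^ 6 := by
      rw [mul_add, Real.exp_add, mul_comm]
      congr 1
      rw [show (6 : ℝ) * Real.log (Real.log z) = Real.log ((Real.log z) ^ 6) by
        rw [Real.log_pow]; push_cast; ring]
      exact Real.exp_log (by positivity)
    rw [e3]
    refine mul_le_mul_of_nonneg_left ?_ (Real.exp_pos _).le
    calc (Real.log z) ^ 6 ≤ (ℓ ^ 3) ^ 6 := pow_le_pow_left₀ hzlog0.le hzlog 6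
      _ = ℓ ^ 18 := by ring
  have hXR : 0 ≤ 2 * 3 ^ tt * ((X : ℝ) * R) := by positivity
  calc wt B ≤ 2 * 3 ^ tt * (X * R) * Real.exp (6 * Pm z) := hcard.trans hsum
    _ ≤ 2 * 3 ^ tt * (X * R) * (Real.exp (6 * C₃) * ℓ ^ 18) :=
        mul_le_mul_of_nonneg_left hexp hXR
    _ = D0 * X * ((ℓ ^ 26 * (1 + (ℓ + C₃)) ^ 2) *
          ((Real.log X) ^ (1 / 3 : ℝ)) ^ 2 / Real.log X) := by
        rw [hR, hD0]
        ring
    _ ≤ D0 * X * ((Real.log X) ^ (1 / 12 : ℝ) *
          ((Real.log X) ^ (1 / 3 : ℝ)) ^ 2 / Real.log X) := by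
        gcongr
    _ = D0 * (X * Real.exp (-(1 / 4) * ℓ)) := by
        rw [hlXe, ← Real.exp_mul, ← Real.exp_mul, ← Real.exp_nat_mul, ← Real.exp_add,
          ← Real.exp_sub, mul_assoc]
        congr 3
        push_cast
        ring

end Run7.h238.C
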