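import Pool.Agent.Y911.CX.BOX
import Pool.Agent.Y911.CX.KEY

/-!
# The count in a box, with exponents and a special vertex
-/

set_option autoImplicit false

open scoped Classical

namespace Run7.h238.C

open Finset
open Pool.Agent.Y703.CX
open Pool.Agent.Y699.E (ez)
open Pool.Agent.Y911.CX (lb LN nd_iff sum_un HB_sub)

/-- the linear system attached to a set of primes and exponents -/
def Sys (e : ℕ → ZMod 3) (U : Finset ℕ) (c : ℕ → ZMod 3) : Prop :=
  ∀ p ∈ U, p % 3 = 1 → ∑ v ∈ U, (c v - c p) * (e v * lam p v) = 0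

/-- the good sets: all solutions are constant -/
def GdE (e : ℕ → ZMod 3) (U : Finset ℕ) : Prop :=
  ∀ c, Sys e U c → ∀ p ∈ U, ∀ q ∈ U, c p = c q

section one
variable {ι : Type} [Fintype ι] {S₀ : Finset ℕ} {p : ι → ℕ} {e : ℕ → ZMod 3}

theorem ext_sum (k : ι) (d : ι → ZMod 3) :
    ∑ l, (d l - d k) * Pool.Agent.Y703.CX.ext
      (fun e : prs (univ : Finset ι) => lam (p e.1.1) (p e.1.2)) k l =
      ∑ l, (d l - d k) * lam (p k) (p l) := by
  refine Finset.sum_congr rfl fun l _ => ?_
  by_cases h : l = k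
  · rw [h, sub_self, zero_mul, zero_mul]
  · have hm : (k, l) ∈ prs (univ : Finset ι) := by
      unfold prs
      rw [Finset.mem_filter]
      exact ⟨Finset.mem_univ _, Finset.mem_univ _, h⟩
    unfold Pool.Agent.Y703.CX.ext
    rw [dif_pos hm]

theorem gdE_iff (hp : Function.Injective p) (hd : ∀ i, p i ∉ S₀) (hne : Nonempty ι)
    (h1 : ∀ i, p i % 3 = 1) (he : ∀ i, e (p i) = 1) :
    GdE e (S₀ ∪ univ.image p) ↔ GdA (univ.filter fun u : S₀ => (u : ℕ) % 3 = 1) univ
      (fun u v : S₀ => e v * lam u v) (fun (u : S₀) l => lam u (p l))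
      (fun k (u : S₀) => e u * lam (p k) u)
      (Pool.Agent.Y703.CX.ext fun e : prs (univ : Finset ι) => lam (p e.1.1) (p e.1.2)) := by
  obtain ⟨k₀⟩ := hne
  have hsol : ∀ c : ℕ → ZMod 3, Sys e (S₀ ∪ univ.image p) c ↔
      (∀ u : S₀, (u : ℕ) % 3 = 1 → ∑ v : S₀, (c v - c u) * (e v * lam u v) +
        ∑ l, (c (p l) - c u) * lam u (p l) = 0) ∧
      (∀ k, ∑ u : S₀, (c u - c (p k)) * (e u * lam (p k) u) +
        ∑ l, (c (p l) - c (p k)) * Pool.Agent.Y703.CX.ext
          (fun e : prs (univ : Finset ι) => lam (p e.1.1) (p e.1.2)) k l = 0) := by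
    intro c
    unfold Sys
    constructor
    · intro h
      refine ⟨fun u hu => ?_, fun k => ?_⟩
      · have := h u (Finset.mem_union_left _ u.2) hu
        rw [sum_un hp hd] at this
        simp only [he, one_mul] at this
        exact this
      · have := h (p k) (Finset.mem_union_right _ (Finset.mem_image_of_mem _ (Finset.mem_univ _)))
          (h1 k)
        rw [sum_un hp hd] at this
        simp only [he, one_mul] at this
        rw [ext_sum k (fun l => c (p l))]
        exact this
    · rintro ⟨h2, h3⟩ x hx hx1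
      rw [sum_un hp hd]
      simp only [he, one_mul]
      rw [Finset.mem_union, Finset.mem_image] at hx
      rcases hx with hx | ⟨k, -, rfl⟩
      · exact h2 ⟨x, hx⟩ hx1
      · have := h3 k
        rw [ext_sum k (fun l => c (p l))] at this
        exact this
  unfold GdE GdA
  constructor
  · intro h c d h2 h3
    set c' : ℕ → ZMod 3 := fun n => if h : n ∈ S₀ then c ⟨n, h⟩ else
      if h : ∃ l, p l = n then d h.choose else 0 with hc'
    have e1 : ∀ u : S₀, c' u = c u := by
      intro u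
      simp only [hc']
      rw [dif_pos u.2]
    have e2 : ∀ l, c' (p l) = d l := by
      intro l
      have hex : ∃ l', p l' = p l := ⟨l, rfl⟩
      simp only [hc']
      rw [dif_neg (hd l), dif_pos hex]
      exact congrArg d (hp hex.choose_spec)
    have hs : Sys e (S₀ ∪ univ.image p) c' := by
      rw [hsol]
      refine ⟨fun u hu => ?_, fun k => ?_⟩
      · simp only [e1, e2]
        exact h2 u (Finset.mem_filter.2 ⟨Finset.mem_univ _, hu⟩)
      · simp only [e1, e2]
        exact h3 k (Finset.mem_univ _)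
    have h4 := h c' hs
    have hk₀' : p k₀ ∈ S₀ ∪ univ.image p :=
      Finset.mem_union_right _ (Finset.mem_image_of_mem _ (Finset.mem_univ _))
    refine ⟨d k₀, fun u => ?_, fun l => ?_⟩
    · rw [← e1, ← e2]
      exact h4 _ (Finset.mem_union_left _ u.2) _ hk₀'
    · rw [← e2, ← e2 k₀]
      exact h4 _ (Finset.mem_union_right _ (Finset.mem_image_of_mem _ (Finset.mem_univ _))) _ hk₀'
  · intro h c hc
    rw [hsol] at hc
    obtain ⟨t, ht1, ht2⟩ := h (fun u => c u) (fun l => c (p l))
      (fun u hu => hc.1 u (Finset.mem_filter.1 hu).2) (fun k _ => hc.2 k)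
    have h4 : ∀ x ∈ S₀ ∪ univ.image p, c x = t := by
      intro x hx
      rw [Finset.mem_union, Finset.mem_image] at hx
      rcases hx with hx | ⟨k, -, rfl⟩
      · exact ht1 ⟨x, hx⟩
      · exact ht2 k
    intro x hx y hy
    rw [h4 x hx, h4 y hy]

end one

/-- **The count in a box.** -/
theorem box (hEQ : S_EQ) (hLA : S_LA) (e : ℕ → ZMod 3) (ι : Type) [Fintype ι] (hι : Nonempty ι)
    (C : ι → Finset ℕ) (X : ι → ℕ) (κ : ℝ) (S₀ : Finset ℕ) (hκ : 0 ≤ κ)
    (hCX : ∀ i, (C i).card ≤ X i) (hHB : HB univ C X κ)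
    (he0 : ∀ u ∈ S₀, e u ≠ 0)
    (hC : ∀ i, ∀ p ∈ C i, p % 3 = 1 ∧ p ∉ S₀ ∧ e p = 1)
    (hdis : ∀ i l, i ≠ l → Disjoint (C i) (C l))
    (hcard : (S₀.filter fun p => ¬ p % 3 = 1).card = 1) :
    |(((Fintype.piFinset C).filter fun p => Nd S₀ (univ.image p) ∧
        GdE e (S₀ ∪ univ.image p)).card : ℝ) -
      c3 * (((Fintype.piFinset C).filter fun p => Nd S₀ (univ.image p)).card : ℝ)| ≤
    2 * (3 ^ S₀.card / 3 ^ Fintype.card ι) *
      (((Fintype.piFinset C).filter fun p => Nd S₀ (univ.image p)).card : ℝ) +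
    3 ^ (2 * S₀.card * Fintype.card ι + (prs (univ : Finset ι)).card) * (κ * ∏ j, (X j : ℝ)) := by
  set cc : ℝ := 2 * (3 ^ S₀.card / 3 ^ Fintype.card ι) with hcc
  set R : ℝ := 3 ^ (prs (univ : Finset ι)).card * (κ * ∏ j, (X j : ℝ)) with hR
  have hcc0 : 0 ≤ cc := by positivity
  have hR0 : 0 ≤ R := mul_nonneg (by positivity)
    (mul_nonneg hκ (Finset.prod_nonneg fun j _ => by positivity))
  have hinj : ∀ p ∈ Fintype.piFinset C, Function.Injective p := by
    intro p hp i j hij
    rw [Fintype.mem_piFinset] at hp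
    by_contra hne
    have h1 := Finset.disjoint_left.1 (hdis i j hne) (hp i)
    rw [hij] at h1
    exact h1 (hp j)
  have h31 : ∀ p ∈ Fintype.piFinset C, ∀ i, p i % 3 = 1 := by
    intro p hp i
    rw [Fintype.mem_piFinset] at hp
    exact (hC i _ (hp i)).1
  have hJ : ∀ p ∈ Fintype.piFinset C, ∀ i, p i % 3 = 1 ↔ i ∈ (univ : Finset ι) := by
    intro p hp i
    simp only [Finset.mem_univ, iff_true]
    exact h31 p hp i
  have hd : ∀ p ∈ Fintype.piFinset C, ∀ i, p i ∉ S₀ := by
    intro p hp i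
    rw [Fintype.mem_piFinset] at hp
    exact (hC i _ (hp i)).2.1
  have he1 : ∀ p ∈ Fintype.piFinset C, ∀ i, e (p i) = 1 := by
    intro p hp i
    rw [Fintype.mem_piFinset] at hp
    exact (hC i _ (hp i)).2.2
  obtain ⟨ks⟩ := id hι
  have hcount : Fintype.card S₀ + Fintype.card ι =
      (univ.filter fun u : S₀ => (u : ℕ) % 3 = 1).card + (univ : Finset ι).card + 1 := by
    have h2 : (univ.filter fun u : S₀ => (u : ℕ) % 3 = 1).card =
        (S₀.filter fun p => p % 3 = 1).card := by
      rw [← Finset.card_map (Function.Embedding.subtype (· ∈ S₀))]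
      congr 1
      ext x
      simp only [Finset.mem_map, Finset.mem_filter, Finset.mem_univ, true_and,
        Function.Embedding.coe_subtype]
      constructor
      · rintro ⟨u, hu, rfl⟩
        exact ⟨u.2, hu⟩
      · rintro ⟨h, h'⟩
        exact ⟨⟨x, h⟩, h', rfl⟩
    have h3 := Finset.card_filter_add_card_filter_not (s := S₀) (fun p => p % 3 = 1)
    rw [Fintype.card_coe, h2, Finset.card_univ]
    omega
  -- the part with given labels
  have h1 : ∀ β : ι → (S₀ → ZMod 3) × (S₀ → ZMod 3), LN S₀ univ β →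
      |(((Fintype.piFinset C).filter fun p => (fun i => lb S₀ (p i)) = β ∧
          GdE e (S₀ ∪ univ.image p)).card : ℝ) -
        c3 * (((Fintype.piFinset C).filter fun p => (fun i => lb S₀ (p i)) = β).card : ℝ)| ≤
      cc * (((Fintype.piFinset C).filter fun p => (fun i => lb S₀ (p i)) = β).card : ℝ) + R := by
    intro β hβ
    set C' : ι → Finset ℕ := fun i => (C i).filter fun q => lb S₀ q = β i with hC'
    have hpi : (Fintype.piFinset C).filter (fun p => (fun i => lb S₀ (p i)) = β) =
        Fintype.piFinset C' := by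
      ext p
      simp only [Finset.mem_filter, Fintype.mem_piFinset, hC']
      constructor
      · rintro ⟨h2, h3⟩ i
        exact ⟨h2 i, congrFun h3 i⟩
      · intro h2
        exact ⟨fun i => (h2 i).1, funext fun i => (h2 i).2⟩
    have h2 := hLA S₀ ι (univ.filter fun u : S₀ => (u : ℕ) % 3 = 1) univ ks hcount
      (fun l hl => absurd (Finset.mem_univ l) hl)
      (fun u v => e v * lam u v) (fun u l => (β l).1 u) (fun k u => e u * (β k).2 u)
      (by
        rintro v ⟨u, hu, hv⟩
        have h3 := hβ.1 v ⟨u, (Finset.mem_filter.1 hu).2, hv⟩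
        obtain ⟨l, hl, hlk⟩ := Finset.exists_mem_ne (lt_of_lt_of_le one_lt_two h3) ks
        exact ⟨l, hlk, (Finset.mem_filter.1 hl).2⟩)
      (by
        rintro w ⟨u, hu⟩
        obtain ⟨i, hi, hi2⟩ := hβ.2 (fun u => w u * e u) ⟨u, mul_ne_zero hu (he0 u u.2)⟩
        refine ⟨i, hi, ?_⟩
        intro h0
        apply hi2
        rw [← h0]
        refine Finset.sum_congr rfl fun u _ => ?_
        ring)
    set Q : (prs (univ : Finset ι) → ZMod 3) → Prop := fun α =>
      GdA (univ.filter fun u : S₀ => (u : ℕ) % 3 = 1) univ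
      (fun u v : S₀ => e v * lam u v) (fun (u : S₀) l => (β l).1 u)
      (fun k (u : S₀) => e u * (β k).2 u)
      (Pool.Agent.Y703.CX.ext α) with hQ
    have h3 := hEQ ι univ C' X κ hκ
      (fun i => (Finset.card_le_card (Finset.filter_subset _ _)).trans (hCX i))
      (HB_sub hHB fun i q => lb S₀ q = β i) Q
    have h4 : ((Fintype.piFinset C).filter fun p => (fun i => lb S₀ (p i)) = β ∧
        GdE e (S₀ ∪ univ.image p)) = ((Fintype.piFinset C').filter fun p =>
          Q fun e => lam (p e.1.1) (p e.1.2)) := by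
      rw [← hpi, Finset.filter_filter]
      refine Finset.filter_congr fun p hp => ?_
      refine and_congr_right fun hl => ?_
      rw [gdE_iff (hinj p hp) (hd p hp) hι (h31 p hp) (he1 p hp)]
      subst hl
      exact Iff.rfl
    have h5 : (((Fintype.piFinset C').card : ℕ) : ℝ) = ∏ j, ((C' j).card : ℝ) := by
      rw [Fintype.card_piFinset]
      push_cast
      rfl
    rw [h4, hpi, h5]
    rw [Fintype.card_coe, Finset.card_univ] at h2
    set n : ℝ := (((Fintype.piFinset C').filter fun p =>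
          Q fun e => lam (p e.1.1) (p e.1.2)).card : ℝ) with hn
    set q : ℝ := ((univ.filter Q).card : ℝ) / 3 ^ (prs (univ : Finset ι)).card with hq
    set P : ℝ := ∏ j, ((C' j).card : ℝ) with hP
    have hP0 : 0 ≤ P := Finset.prod_nonneg fun j _ => by positivity
    have h6 : |n - c3 * P| ≤ |n - q * P| + |q - c3| * P := by
      have h7 : n - c3 * P = (n - q * P) + (q - c3) * P := by ring
      have h8 : |(q - c3) * P| = |q - c3| * P := by rw [abs_mul, abs_of_nonneg hP0]
      rw [h7, ← h8]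
      exact abs_add_le _ _
    have h7 : |q - c3| * P ≤ cc * P := mul_le_mul_of_nonneg_right h2 hP0
    have h8 : |n - q * P| ≤ R := h3
    linarith
  -- sum over the labels
  set LL := univ.filter (fun β : ι → (S₀ → ZMod 3) × (S₀ → ZMod 3) => LN S₀ univ β) with hLL
  have hfib : ∀ T : (ι → ℕ) → Prop,
      (((Fintype.piFinset C).filter fun p => Nd S₀ (univ.image p) ∧ T p).card : ℝ) =
      ∑ β ∈ LL, (((Fintype.piFinset C).filter fun p =>
        (fun i => lb S₀ (p i)) = β ∧ T p).card : ℝ) := by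
    intro T
    rw [Finset.card_eq_sum_card_fiberwise (f := fun (p : ι → ℕ) (i : ι) => lb S₀ (p i))
      (t := LL) (by
        intro p hp
        rw [Finset.mem_coe, Finset.mem_filter] at hp
        rw [Finset.mem_coe, hLL, Finset.mem_filter]
        exact ⟨Finset.mem_univ _, (nd_iff (hinj p hp.1) (hJ p hp.1)).1 hp.2.1⟩)]
    push_cast
    refine Finset.sum_congr rfl fun β hβ => ?_
    rw [hLL, Finset.mem_filter] at hβ
    congr 2
    ext p
    simp only [Finset.mem_filter]
    constructor
    · rintro ⟨⟨h3, h4, h4'⟩, h5⟩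
      exact ⟨h3, h5, h4'⟩
    · rintro ⟨h3, h4, h5⟩
      refine ⟨⟨h3, ?_, h5⟩, h4⟩
      rw [nd_iff (hinj p h3) (hJ p h3), h4]
      exact hβ.2
  have hf1 := hfib fun p => GdE e (S₀ ∪ univ.image p)
  have hf2 := hfib fun _ => True
  simp only [and_true] at hf2
  rw [hf1, hf2, Finset.mul_sum, ← Finset.sum_sub_distrib]
  refine (Finset.abs_sum_le_sum_abs _ _).trans ?_
  refine (Finset.sum_le_sum fun β hβ => h1 β (Finset.mem_filter.1 hβ).2).trans ?_
  rw [Finset.sum_add_distrib, ← Finset.mul_sum, Finset.sum_const, nsmul_eq_mul]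
  have h5 : ((LL.card : ℕ) : ℝ) ≤ 3 ^ (2 * S₀.card * Fintype.card ι) := by
    have h6 : LL.card ≤ Fintype.card (ι → (S₀ → ZMod 3) × (S₀ → ZMod 3)) :=
      Finset.card_le_univ _
    rw [Fintype.card_fun, Fintype.card_prod, Fintype.card_fun, ZMod.card, Fintype.card_coe,
      ← pow_add, ← two_mul, ← pow_mul] at h6
    exact_mod_cast h6
  have h6 := mul_le_mul_of_nonneg_right h5 hR0
  rw [pow_add, mul_assoc]
  linarith

end Run7.h238.C
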