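import Pool.Agent.Run7.h238.C.Gen
import Pool.Agent.Run7.h238.C.Box

/-!
# The weighted sum over the boxes
-/

set_option autoImplicit false

open scoped Classical

namespace Run7.h238.C

open Finset
open Pool.Agent.Y703.CX
open Pool.Agent.Y699.E (ez)
open Pool.Agent.Y911.CX (ph ky TT mem_TT harm_TT le_XX mod93 sm_la_card sm_la_prod CC mem_CC
  sm_fill la_fill ph_fill im_fill ky_fill inj_fill inj_ph CC_facts root12 prs_card card_sub)
open Run7.h238.WFew (wt wt_nonneg wt_mono wt_union wt_card)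

/-- the sets of primes `≡ 1` modulo `3` with product at most `X` -/
noncomputable def SP (X : ℕ) : Finset (Finset ℕ) := (TT X).filter fun S => ∀ p ∈ S, p % 3 = 1

theorem SP_sub_TT (X : ℕ) : SP X ⊆ TT X := filter_subset _ _

theorem mem_SP {X : ℕ} {S : Finset ℕ} : S ∈ SP X ↔
    (∀ p ∈ S, p.Prime ∧ p % 3 = 1) ∧ ∏ p ∈ S, p ≤ X := by
  unfold SP
  rw [mem_filter]
  constructor
  · rintro ⟨h1, h2⟩
    exact ⟨fun p hp => ⟨(TT_prop h1).1 p hp, h2 p hp⟩, (TT_prop h1).2⟩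
  · rintro ⟨h1, h2⟩
    exact ⟨mem_TT (fun p hp => (h1 p hp).1) h2, fun p hp => (h1 p hp).2⟩

/-- the regular sets -/
noncomputable def RW (T : Finset ℕ) (X z H K V : ℕ) : Finset (Finset ℕ) :=
  (SP X).filter fun S => Disjoint S T ∧ Set.InjOn (jj H) (la z S : Set ℕ) ∧ S.card ≤ K ∧
    (∏ p ∈ sm z S, p) * ∏ p ∈ la z S, XX H (jj H p) ≤ X ∧
    (sm z S).card + T.card + V < (la z S).card

/-- the keys which occur -/
structure KP (T : Finset ℕ) (X z H K V : ℕ) (S₀ : Finset ℕ) (J : Finset (ℕ × ℕ)) : Prop where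
  pr : ∀ q ∈ S₀, q.Prime ∧ q % 3 = 1
  le : ∀ q ∈ S₀, q ≤ z
  dj : Disjoint S₀ T
  one : ∀ e ∈ J, e.2 % 3 = 1
  inj : Set.InjOn Prod.fst (J : Set (ℕ × ℕ))
  card : S₀.card + J.card ≤ K
  prod : (∏ p ∈ S₀, p) * ∏ e ∈ J, XX H e.1 ≤ X
  few : S₀.card + T.card + V < J.card

theorem prod_mod {z H : ℕ} {S : Finset ℕ} (hi : Set.InjOn (ph H) (la z S : Set ℕ)) :
    (∏ p ∈ S, p) % 9 = ((∏ p ∈ (ky z H S).1, p) * ∏ e ∈ (ky z H S).2, e.2) % 9 := by
  have f6 : ∏ e ∈ (la z S).image (ph H), e.2 = ∏ p ∈ la z S, p % 9 := by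
    rw [Finset.prod_image hi]
    rfl
  show (∏ p ∈ S, p) % 9 = ((∏ p ∈ sm z S, p) * ∏ e ∈ (la z S).image (ph H), e.2) % 9
  rw [f6, ← sm_la_prod z S, Nat.mul_mod, Finset.prod_nat_mod (la z S) 9, ← Nat.mul_mod]

theorem rr_iff {T : Finset ℕ} {X z H K V : ℕ} (hH : 1 ≤ H) (hT : ∀ t ∈ T, t ≤ z) {S : Finset ℕ}
    (hS : ∀ q ∈ S, q.Prime) (hi : Set.InjOn (ph H) (la z S : Set ℕ)) :
    S ∈ RW T X z H K V ↔ KP T X z H K V (ky z H S).1 (ky z H S).2 := by
  set J := (la z S).image (ph H) with hJ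
  have hky : ky z H S = (sm z S, J) := rfl
  rw [hky]
  have f2 : J.card = (la z S).card := Finset.card_image_of_injOn hi
  have f8 : ∏ e ∈ J, XX H e.1 = ∏ p ∈ la z S, XX H (jj H p) := by
    rw [hJ, Finset.prod_image hi]
    rfl
  have f9 : Set.InjOn (jj H) (la z S : Set ℕ) ↔ Set.InjOn Prod.fst (J : Set (ℕ × ℕ)) := by
    constructor
    · intro h a ha b hb hab
      rw [Finset.mem_coe, hJ, Finset.mem_image] at ha hb
      obtain ⟨p, hp, rfl⟩ := ha
      obtain ⟨q, hq, rfl⟩ := hb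
      rw [h (Finset.mem_coe.2 hp) (Finset.mem_coe.2 hq) hab]
    · intro h p hp q hq hpq
      exact hi hp hq (h (Finset.mem_coe.2 (Finset.mem_image_of_mem _ (Finset.mem_coe.1 hp)))
        (Finset.mem_coe.2 (Finset.mem_image_of_mem _ (Finset.mem_coe.1 hq))) hpq)
  have hsm : sm z S ⊆ S := Finset.filter_subset _ _
  have hla : la z S ⊆ S := Finset.filter_subset _ _
  constructor
  · intro h
    unfold RW at h
    rw [Finset.mem_filter, mem_SP] at h
    obtain ⟨⟨h0, h0'⟩, h1, h2, h3, h4, h5⟩ := h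
    refine ⟨fun q hq => h0 q (hsm hq), fun q hq => (Finset.mem_filter.1 hq).2,
      Finset.disjoint_of_subset_left hsm h1, ?_, f9.1 h2, ?_, ?_, ?_⟩
    · intro e he
      rw [hJ, Finset.mem_image] at he
      obtain ⟨p, hp, rfl⟩ := he
      unfold ph
      rw [mod93]
      exact (h0 p (hla hp)).2
    · rw [f2, sm_la_card]
      exact h3
    · rw [f8]
      exact h4
    · rw [f2]
      exact h5
  · rintro ⟨k1, k2, k3, k4, k7, k8, k9, k10⟩
    have hprod : ∏ p ∈ S, p ≤ X := by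
      rw [← sm_la_prod z S]
      refine le_trans (Nat.mul_le_mul_left _ ?_) k9
      rw [f8]
      refine Finset.prod_le_prod' fun p hp => le_XX hH (hS p (hla hp)).one_le
    unfold RW
    rw [Finset.mem_filter, mem_SP]
    refine ⟨⟨fun q hq => ⟨hS q hq, ?_⟩, hprod⟩, ?_, f9.2 k7, ?_, ?_, ?_⟩
    · by_cases h : q ≤ z
      · exact (k1 q (Finset.mem_filter.2 ⟨hq, h⟩)).2
      · have := k4 (ph H q) (Finset.mem_image_of_mem _ (Finset.mem_filter.2 ⟨hq, h⟩))
        unfold ph at this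
        rw [mod93] at this
        exact this
    · rw [Finset.disjoint_left]
      intro q hq hqT
      exact Finset.disjoint_left.1 k3 (Finset.mem_filter.2 ⟨hq, hT q hqT⟩) hqT
    · rw [← sm_la_card z S, ← f2]
      exact k8
    · rw [← f8]
      exact k9
    · rw [← f2]
      exact k10

theorem rr_facts {T : Finset ℕ} {X z H K V : ℕ} {S : Finset ℕ} (hS : S ∈ RW T X z H K V) :
    (∀ q ∈ S, q.Prime) ∧ Set.InjOn (jj H) (la z S : Set ℕ) ∧ ∏ p ∈ S, p ≤ X := by
  unfold RW at hS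
  rw [Finset.mem_filter, mem_SP] at hS
  exact ⟨fun q hq => (hS.1.1 q hq).1, hS.2.2.1, hS.1.2⟩

theorem key_bij {T : Finset ℕ} {X z H K V : ℕ} (hH : 1 ≤ H) (hT : ∀ t ∈ T, t ≤ z)
    {S₀ : Finset ℕ} {J : Finset (ℕ × ℕ)}
    (hkey : KP T X z H K V S₀ J) (P : Finset ℕ → Prop) [DecidablePred P] [DecidableEq J] :
    ((Fintype.piFinset fun i : J => CC z H i).filter fun p => P (S₀ ∪ univ.image p)).card =
      ((RW T X z H K V).filter fun S => ky z H S = (S₀, J) ∧ P S).card := by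
  have h₀ := hkey.le
  apply Finset.card_bij (fun (p : J → ℕ) _ => S₀ ∪ univ.image p)
  · intro p hp
    rw [Finset.mem_filter, Fintype.mem_piFinset] at hp
    obtain ⟨hp, hP⟩ := hp
    have hk := ky_fill hH h₀ hp
    rw [Finset.mem_filter]
    refine ⟨?_, hk, hP⟩
    rw [rr_iff hH hT _ (inj_fill hH h₀ hp), hk]
    · exact hkey
    · intro q hq
      rw [Finset.mem_union, Finset.mem_image] at hq
      rcases hq with hq | ⟨i, -, rfl⟩
      · exact (hkey.pr q hq).1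
      · exact ((mem_CC hH).1 (hp i)).1
  · intro p hp p' hp' h
    rw [Finset.mem_filter, Fintype.mem_piFinset] at hp hp'
    have h1 := la_fill hH h₀ hp.1
    rw [h, la_fill hH h₀ hp'.1] at h1
    funext i
    have h2 : p i ∈ univ.image p' := by
      rw [h1]
      exact Finset.mem_image_of_mem _ (Finset.mem_univ _)
    rw [Finset.mem_image] at h2
    obtain ⟨j, -, hj⟩ := h2
    have h3 := ph_fill hH hp.1 i
    have h4 := ph_fill hH hp'.1 j
    rw [hj, h3] at h4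
    rw [← hj, Subtype.ext h4]
  · intro S hS
    rw [Finset.mem_filter] at hS
    obtain ⟨hSR, hSk, hSP⟩ := hS
    obtain ⟨hSO, hSI, -⟩ := rr_facts hSR
    have hk1 : sm z S = S₀ := congrArg Prod.fst hSk
    have hk2 : (la z S).image (ph H) = J := congrArg Prod.snd hSk
    have hex : ∀ i : J, ∃ q ∈ la z S, ph H q = i := by
      rintro ⟨i, hi⟩
      rw [← hk2, Finset.mem_image] at hi
      exact hi
    choose p hp1 hp2 using hex
    have him : univ.image p = la z S := by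
      ext q
      rw [Finset.mem_image]
      constructor
      · rintro ⟨i, -, rfl⟩
        exact hp1 i
      · intro hq
        have hjq : ph H q ∈ J := by
          rw [← hk2]
          exact Finset.mem_image_of_mem _ hq
        exact ⟨⟨ph H q, hjq⟩, Finset.mem_univ _, inj_ph hSI (Finset.mem_coe.2 (hp1 _))
          (Finset.mem_coe.2 hq) (hp2 ⟨ph H q, hjq⟩)⟩
    have hSe : S₀ ∪ univ.image p = S := by
      rw [him, ← hk1]
      unfold sm la
      exact Finset.filter_union_filter_not_eq _ _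
    refine ⟨p, ?_, hSe⟩
    rw [Finset.mem_filter, Fintype.mem_piFinset, hSe]
    refine ⟨fun i => (mem_CC hH).2 ⟨hSO _ (Finset.mem_filter.1 (hp1 i)).1,
      not_le.1 (Finset.mem_filter.1 (hp1 i)).2, hp2 i⟩, hSP⟩

theorem hb_box {C₁ : ℝ}
    (h1 : ∀ (P Q : Finset ℕ) (A B z : ℕ) (c d : ℕ → ℂ) (a b : ZMod 3),
      (∀ p ∈ P, p.Prime ∧ p % 3 = 1 ∧ p ≤ A) → (∀ q ∈ Q, q.Prime ∧ q % 3 = 1 ∧ q ≤ B) →
      Disjoint P Q → (a ≠ 0 ∨ b ≠ 0) → 1 ≤ z → z ≤ A → z ≤ B →
      (∀ p, ‖c p‖ ≤ 1) → (∀ q, ‖d q‖ ≤ 1) →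
      ‖∑ p ∈ P, ∑ q ∈ Q, c p * d q * ez (a * lam p q + b * lam q p)‖ ^ 12 * z ≤
        C₁ * ((A : ℝ) * B) ^ 12)
    {z H : ℕ} (hH : 1 ≤ H) (hz : 1 ≤ z) {κ : ℝ} (hκ : 0 ≤ κ) (hκ1 : C₁ ≤ κ ^ 12 * z)
    {J : Finset (ℕ × ℕ)} (hne : ∀ e ∈ J, e.2 % 3 = 1) :
    HB (univ : Finset J) (fun i : J => CC z H i) (fun i => XX H i.1.1) κ := by
  intro i l hil a b c d hab ha hb hc hd
  show ‖∑ x ∈ CC z H i, ∑ y ∈ CC z H l, c x * d y * ez (a * lam x y + b * lam y x)‖ ≤
    κ * ((XX H i.1.1 : ℝ) * (XX H l.1.1 : ℝ))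
  have hz0 : (0 : ℝ) < z := by exact_mod_cast hz
  have hk0 : (0 : ℝ) ≤ κ * ((XX H i.1.1 : ℝ) * (XX H l.1.1 : ℝ)) := by positivity
  rcases (CC z H i).eq_empty_or_nonempty with he | ⟨p₀, hp₀⟩
  · rw [he, Finset.sum_empty, norm_zero]
    exact hk0
  rcases (CC z H l).eq_empty_or_nonempty with he | ⟨q₀, hq₀⟩
  · rw [he]
    simp only [Finset.sum_empty, Finset.sum_const_zero, norm_zero]
    exact hk0
  have hzi : z ≤ XX H i.1.1 := by
    have := CC_facts hH hp₀
    omega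
  have hzl : z ≤ XX H l.1.1 := by
    have := CC_facts hH hq₀
    omega
  have m1 : ∀ e : J, ∀ p ∈ CC z H e, p.Prime ∧ p % 3 = 1 ∧ p ≤ XX H e.1.1 := by
    intro e p hp
    obtain ⟨h3, -, h4, h5⟩ := CC_facts hH hp
    exact ⟨h3, h5.trans (hne e e.2), h4⟩
  have hdis : Disjoint (CC z H i) (CC z H l) := by
    rw [Finset.disjoint_left]
    intro p hp hp'
    have h5 := ((mem_CC hH).1 hp).2.2
    have h6 := ((mem_CC hH).1 hp').2.2
    exact hil (Subtype.ext (h5.symm.trans h6))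
  have h3 := h1 (CC z H i) (CC z H l) (XX H i.1.1) (XX H l.1.1) z c d a b (m1 i) (m1 l)
    hdis hab hz hzi hzl hc hd
  exact root12 (norm_nonneg _) hκ (Nat.cast_nonneg _) (Nat.cast_nonneg _) hz0 h3 hκ1

theorem box_dec (hEQ : S_EQ) (hLA : S_LA) (e : ℕ → ZMod 3) (ι : Type) [Fintype ι]
    [inst : DecidableEq ι] (hι : Nonempty ι)
    (C : ι → Finset ℕ) (X : ι → ℕ) (κ : ℝ) (S₀ : Finset ℕ) (hκ : 0 ≤ κ)
    (hCX : ∀ i, (C i).card ≤ X i) (hHB : HB univ C X κ)
    (he0 : ∀ u ∈ S₀, e u ≠ 0)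
    (hC : ∀ i, ∀ p ∈ C i, p % 3 = 1 ∧ p ∉ S₀ ∧ e p = 1)
    (hdis : ∀ i l, i ≠ l → Disjoint (C i) (C l))
    (hcard : (S₀.filter fun p => ¬ p % 3 = 1).card = 1) :
    |(((Fintype.piFinset C).filter fun p => Nd S₀ (univ.image p) ∧
        GdE e (S₀ ∪ univ.image p)).card : ℝ) -
      c3 * (((Fintype.piFinset C).filter fun p => Nd S₀ (univ.image p)).card : ℝ)| ≤
    2 * (3 ^ S₀.card / 3 ^ Fintype.card ι) *
      (((Fintype.piFinset C).filter fun p => Nd S₀ (univ.image p)).card : ℝ) +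
    3 ^ (2 * S₀.card * Fintype.card ι + (prs (univ : Finset ι)).card) * (κ * ∏ j, (X j : ℝ)) := by
  have e1 : inst = fun a b => Classical.propDecidable _ := Subsingleton.elim _ _
  subst e1
  exact box hEQ hLA e ι hι C X κ S₀ hκ hCX hHB he0 hC hdis hcard

theorem per_key (hEQ : S_EQ) (hLA : S_LA) {T : Finset ℕ} {e : ℕ → ZMod 3} {X z H K V : ℕ}
    (hH : 1 ≤ H) {κ : ℝ} (hκ : 0 ≤ κ) (hT : ∀ t ∈ T, t ≤ z) (hT1 : (T.filter fun p => ¬ p % 3 = 1).card = 1)
    (he0 : ∀ u ∈ T, e u ≠ 0) (he1 : ∀ u, u ∉ T → e u = 1) (hTK : T.card ≤ K)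
    {S₀ : Finset ℕ} {J : Finset (ℕ × ℕ)} (hk : KP T X z H K V S₀ J)
    (hHB : HB (univ : Finset J) (fun i : J => CC z H i) (fun i => XX H i.1.1) κ) :
    |(((RW T X z H K V).filter fun S => ky z H S = (S₀, J) ∧
        (Nd (T ∪ sm z S) (la z S) ∧ GdE e (T ∪ S))).card : ℝ) -
      c3 * (((RW T X z H K V).filter fun S => ky z H S = (S₀, J) ∧
        Nd (T ∪ sm z S) (la z S)).card : ℝ)| ≤
    2 * (1 / 3 : ℝ) ^ V * (((RW T X z H K V).filter fun S => ky z H S = (S₀, J)).card : ℝ) +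
      (3 ^ (12 * K ^ 2) * κ) * (X / ((∏ p ∈ S₀, p : ℕ) : ℝ)) := by
  have hun : (T ∪ S₀).card ≤ S₀.card + T.card := by
    rw [add_comm]
    exact Finset.card_union_le _ _
  have hfew : (T ∪ S₀).card + V < J.card := by
    have := hk.few
    omega
  have hne : Nonempty J := by
    rw [← Fintype.card_pos_iff, Fintype.card_coe]
    omega
  have hlarge : ∀ i : J, ∀ p ∈ CC z H i, p ∉ T ∪ S₀ := by
    intro i p hp h
    obtain ⟨-, h3', -, -⟩ := CC_facts hH hp
    rw [Finset.mem_union] at h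
    rcases h with h | h
    · have := hT p h
      omega
    · have := hk.le p h
      omega
  have hbox := box_dec hEQ hLA e J hne (fun i => CC z H i) (fun i => XX H i.1.1) κ (T ∪ S₀) hκ
    (fun i => by
      refine (Finset.card_filter_le _ _).trans ?_
      rw [Nat.card_Icc]
      omega)
    hHB
    (fun u hu => by
      by_cases h : u ∈ T
      · exact he0 u h
      · rw [he1 u h]
        decide)
    (fun i p hp => by
      obtain ⟨h3, h3', h4, h5⟩ := CC_facts hH hp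
      refine ⟨h5.trans (hk.one i i.2), hlarge i p hp, he1 p fun h => ?_⟩
      exact hlarge i p hp (Finset.mem_union_left _ h))
    (fun i l hil => by
      rw [Finset.disjoint_left]
      intro p hp hp'
      have h5 := ((mem_CC hH).1 hp).2.2
      have h6 := ((mem_CC hH).1 hp').2.2
      exact hil (Subtype.ext (h5.symm.trans h6)))
    (by
      have h1 : S₀.filter (fun p => ¬ p % 3 = 1) = ∅ := by
        rw [Finset.filter_eq_empty_iff]
        intro p hp h
        exact h (hk.pr p hp).2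
      rw [Finset.filter_union, h1, Finset.union_empty]
      exact hT1)
  have e1 : ((Fintype.piFinset fun i : J => CC z H i).filter fun p => Nd (T ∪ S₀) (univ.image p) ∧
      GdE e ((T ∪ S₀) ∪ univ.image p)).card = ((RW T X z H K V).filter fun S => ky z H S = (S₀, J) ∧
        (Nd (T ∪ sm z S) (la z S) ∧ GdE e (T ∪ S))).card := by
    rw [← key_bij hH hT hk (fun S => Nd (T ∪ sm z S) (la z S) ∧ GdE e (T ∪ S))]
    congr 1
    refine Finset.filter_congr fun p hp => ?_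
    rw [Fintype.mem_piFinset] at hp
    rw [sm_fill hH hk.le hp, la_fill hH hk.le hp, Finset.union_assoc]
  have e2 : ((Fintype.piFinset fun i : J => CC z H i).filter fun p =>
      Nd (T ∪ S₀) (univ.image p)).card = ((RW T X z H K V).filter fun S => ky z H S = (S₀, J) ∧
        Nd (T ∪ sm z S) (la z S)).card := by
    rw [← key_bij hH hT hk (fun S => Nd (T ∪ sm z S) (la z S))]
    congr 1
    refine Finset.filter_congr fun p hp => ?_
    rw [Fintype.mem_piFinset] at hp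
    rw [sm_fill hH hk.le hp, la_fill hH hk.le hp]
  rw [e1, e2] at hbox
  have hcJ : Fintype.card J = J.card := Fintype.card_coe J
  refine hbox.trans (add_le_add ?_ ?_)
  · have h3 : ((3 : ℝ) ^ (T ∪ S₀).card / 3 ^ Fintype.card J) ≤ (1 / 3) ^ V := by
      rw [div_le_iff₀ (by positivity), hcJ]
      have h4 : (3 : ℝ) ^ ((T ∪ S₀).card + V) ≤ 3 ^ J.card :=
        pow_le_pow_right₀ (by norm_num) hfew.le
      have h5 : (1 / 3 : ℝ) ^ V * 3 ^ ((T ∪ S₀).card + V) = 3 ^ (T ∪ S₀).card := by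
        rw [pow_add, mul_comm, mul_assoc, ← mul_pow]
        norm_num
      calc (3 : ℝ) ^ (T ∪ S₀).card = (1 / 3 : ℝ) ^ V * 3 ^ ((T ∪ S₀).card + V) := h5.symm
        _ ≤ _ := by gcongr
    have h4 : (((RW T X z H K V).filter fun S => ky z H S = (S₀, J) ∧
        Nd (T ∪ sm z S) (la z S)).card : ℝ) ≤
        (((RW T X z H K V).filter fun S => ky z H S = (S₀, J)).card : ℝ) := by
      have : (RW T X z H K V).filter (fun S => ky z H S = (S₀, J) ∧ Nd (T ∪ sm z S) (la z S)) ⊆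
          (RW T X z H K V).filter fun S => ky z H S = (S₀, J) := by
        intro S hS
        rw [Finset.mem_filter] at hS ⊢
        exact ⟨hS.1, hS.2.1⟩
      exact_mod_cast Finset.card_le_card this
    gcongr
  · have hcard := hk.card
    have hJK : J.card ≤ 2 * K := by omega
    have hSK : (T ∪ S₀).card ≤ 2 * K := by omega
    have hpr : (prs (univ : Finset J)).card ≤ (2 * K) * (2 * K) := by
      refine (prs_card _).trans ?_
      rw [hcJ]
      exact Nat.mul_le_mul hJK hJK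
    have hexp : 2 * (T ∪ S₀).card * Fintype.card J + (prs (univ : Finset J)).card ≤ 12 * K ^ 2 := by
      rw [hcJ]
      have h5 : (T ∪ S₀).card * J.card ≤ (2 * K) * (2 * K) := Nat.mul_le_mul hSK hJK
      calc 2 * (T ∪ S₀).card * J.card + (prs (univ : Finset J)).card ≤
            2 * ((2 * K) * (2 * K)) + (2 * K) * (2 * K) := by
            rw [mul_assoc]
            omega
        _ = 12 * K ^ 2 := by ring
    have h5 : (3 : ℝ) ^ (2 * (T ∪ S₀).card * Fintype.card J + (prs (univ : Finset J)).card) ≤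
        3 ^ (12 * K ^ 2) :=
      pow_le_pow_right₀ (by norm_num) hexp
    have hN0 : (0 : ℝ) < ((∏ p ∈ S₀, p : ℕ) : ℝ) := by
      exact_mod_cast Finset.prod_pos fun p hp => (hk.pr p hp).1.pos
    have hprod : ∏ j : J, (XX H j.1.1 : ℝ) ≤ X / ((∏ p ∈ S₀, p : ℕ) : ℝ) := by
      have h5 : ∏ j : J, (XX H j.1.1 : ℝ) = ((∏ k ∈ J, XX H k.1 : ℕ) : ℝ) := by
        rw [← Finset.prod_coe_sort J (fun k => XX H k.1)]
        push_cast
        rfl
      rw [h5, le_div_iff₀ hN0, mul_comm]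
      exact_mod_cast hk.prod
    calc (3 : ℝ) ^ (2 * (T ∪ S₀).card * Fintype.card J + (prs (univ : Finset J)).card) *
        (κ * ∏ j : J, (XX H j.1.1 : ℝ)) ≤
        3 ^ (12 * K ^ 2) * (κ * (X / ((∏ p ∈ S₀, p : ℕ) : ℝ))) := by gcongr
      _ = _ := by ring

theorem card_ky {T : Finset ℕ} {X z H K V : ℕ} {S : Finset ℕ} (hS : S ∈ RW T X z H K V) :
    S.card = (ky z H S).1.card + (ky z H S).2.card := by
  obtain ⟨-, h2, -⟩ := rr_facts hS
  show S.card = (sm z S).card + ((la z S).image (ph H)).card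
  rw [Finset.card_image_of_injOn (inj_ph h2), sm_la_card]

/-- **The weighted sum over the boxes.** -/
theorem wkey (hL : LamP) (hB1 : S_BIL1) (hEQ : S_EQ) (hLA : S_LA) : ∃ C : ℝ, 1 ≤ C ∧
    ∀ (T : Finset ℕ) (e : ℕ → ZMod 3) (X z H K V N : ℕ) (κ : ℝ), 1 ≤ X → 1 ≤ H → 1 ≤ z →
    0 ≤ κ → C ≤ κ ^ 12 * z → (H : ℝ) * Real.log X < N → (∀ t ∈ T, t ≤ z) →
    (T.filter fun p => ¬ p % 3 = 1).card = 1 → (∀ u ∈ T, e u ≠ 0) → (∀ u, u ∉ T → e u = 1) →
    T.card ≤ K → ∀ (h : Finset ℕ → ℕ → ℝ) (M : ℝ), (∀ A n, 0 ≤ h A n) → (∀ A n, h A n ≤ M) →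
    |∑ S ∈ (RW T X z H K V).filter (fun S => Nd (T ∪ sm z S) (la z S) ∧ GdE e (T ∪ S)),
        h (sm z S) ((∏ p ∈ S, p) % 9) * 2 ^ S.card -
      c3 * ∑ S ∈ (RW T X z H K V).filter (fun S => Nd (T ∪ sm z S) (la z S)),
        h (sm z S) ((∏ p ∈ S, p) % 9) * 2 ^ S.card| ≤
    M * (2 * (1 / 3 : ℝ) ^ V * wt (RW T X z H K V) +
      2 ^ K * ((9 * N + 9 : ℝ) ^ K * (3 ^ (12 * K ^ 2) * κ) * (X * (1 + Real.log X)))) := by
  obtain ⟨C₁, hC₁, h1⟩ := hB1 hL
  refine ⟨C₁, hC₁, ?_⟩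
  intro T e X z H K V N κ hX hH hz hκ hκz hN hT hT1 he0 he1 hTK h M hh0 hhM
  have hM : 0 ≤ M := (hh0 ∅ 0).trans (hhM ∅ 0)
  set Q := (RW T X z H K V).image (ky z H) with hQ
  set B : ℝ := 3 ^ (12 * K ^ 2) * κ with hB
  have hB0 : 0 ≤ B := by positivity
  set W : Finset ℕ × Finset (ℕ × ℕ) → ℝ := fun k =>
    h k.1 (((∏ p ∈ k.1, p) * ∏ j ∈ k.2, j.2) % 9) * 2 ^ (k.1.card + k.2.card) with hW
  have hfib : ∀ (P : Finset ℕ → Prop) [DecidablePred P],
      ∑ S ∈ (RW T X z H K V).filter (fun S => P S), h (sm z S) ((∏ p ∈ S, p) % 9) * 2 ^ S.card =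
      ∑ k ∈ Q, W k * (((RW T X z H K V).filter fun S => ky z H S = k ∧ P S).card : ℝ) := by
    intro P _
    rw [← sum_fiberwise_of_maps_to (g := ky z H) (t := Q) (by
      intro S hS
      rw [Finset.mem_filter] at hS
      exact Finset.mem_image_of_mem _ hS.1)]
    refine Finset.sum_congr rfl fun k _ => ?_
    have e1 : ((RW T X z H K V).filter (fun S => P S)).filter (fun S => ky z H S = k) =
        (RW T X z H K V).filter fun S => ky z H S = k ∧ P S := by
      ext S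
      simp only [Finset.mem_filter]
      tauto
    rw [e1]
    have e2 : ∀ S ∈ (RW T X z H K V).filter (fun S => ky z H S = k ∧ P S),
        h (sm z S) ((∏ p ∈ S, p) % 9) * 2 ^ S.card = W k := by
      intro S hS
      rw [Finset.mem_filter] at hS
      have hsm : sm z S = k.1 := by
        rw [← hS.2.1]
        rfl
      rw [hW]
      simp only
      rw [card_ky hS.1, prod_mod (inj_ph (rr_facts hS.1).2.1), hS.2.1, hsm]
    rw [sum_congr rfl e2, sum_const, nsmul_eq_mul, mul_comm]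
  have hKP : ∀ k ∈ Q, KP T X z H K V k.1 k.2 := by
    intro k hk
    rw [hQ, Finset.mem_image] at hk
    obtain ⟨S, hS, rfl⟩ := hk
    obtain ⟨f1, f2, f3⟩ := rr_facts hS
    exact (rr_iff hH hT f1 (inj_ph f2)).1 hS
  have hf1 := hfib fun S => Nd (T ∪ sm z S) (la z S) ∧ GdE e (T ∪ S)
  have hf2 := hfib fun S => Nd (T ∪ sm z S) (la z S)
  have hW0 : ∀ k, 0 ≤ W k := fun k => mul_nonneg (hh0 _ _) (by positivity)
  rw [hf1, hf2, Finset.mul_sum, ← Finset.sum_sub_distrib]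
  refine (Finset.abs_sum_le_sum_abs _ _).trans ?_
  have h3 : ∀ k ∈ Q, |W k * (((RW T X z H K V).filter fun S => ky z H S = k ∧
        (Nd (T ∪ sm z S) (la z S) ∧ GdE e (T ∪ S))).card : ℝ) -
      c3 * (W k * (((RW T X z H K V).filter fun S => ky z H S = k ∧
        Nd (T ∪ sm z S) (la z S)).card : ℝ))| ≤
      M * (2 * (1 / 3 : ℝ) ^ V * (2 ^ (k.1.card + k.2.card) *
        (((RW T X z H K V).filter fun S => ky z H S = k).card : ℝ)) +
      2 ^ K * (B * (X / ((∏ p ∈ k.1, p : ℕ) : ℝ)))) := by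
    intro k hk
    obtain ⟨S₀, J⟩ := k
    have hk' := hKP _ hk
    have h4 := per_key hEQ hLA (V := V) hH hκ hT hT1 he0 he1 hTK hk'
      (hb_box h1 hH hz hκ hκz hk'.one)
    rw [← hB] at h4
    have e4 : W (S₀, J) * (((RW T X z H K V).filter fun S => ky z H S = (S₀, J) ∧
        (Nd (T ∪ sm z S) (la z S) ∧ GdE e (T ∪ S))).card : ℝ) -
      c3 * (W (S₀, J) * (((RW T X z H K V).filter fun S => ky z H S = (S₀, J) ∧
        Nd (T ∪ sm z S) (la z S)).card : ℝ)) = W (S₀, J) *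
      ((((RW T X z H K V).filter fun S => ky z H S = (S₀, J) ∧
        (Nd (T ∪ sm z S) (la z S) ∧ GdE e (T ∪ S))).card : ℝ) -
      c3 * (((RW T X z H K V).filter fun S => ky z H S = (S₀, J) ∧
        Nd (T ∪ sm z S) (la z S)).card : ℝ)) := by ring
    rw [e4, abs_mul, abs_of_nonneg (hW0 _)]
    refine (mul_le_mul_of_nonneg_left h4 (hW0 _)).trans ?_
    have h5 : W (S₀, J) ≤ M * 2 ^ (S₀.card + J.card) :=
      mul_le_mul_of_nonneg_right (hhM _ _) (by positivity)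
    have h6 : (2 : ℝ) ^ (S₀.card + J.card) ≤ 2 ^ K :=
      pow_le_pow_right₀ (by norm_num) hk'.card
    have h7 : 0 ≤ B * ((X : ℝ) / ((∏ p ∈ S₀, p : ℕ) : ℝ)) := by positivity
    refine (mul_le_mul_of_nonneg_right h5 (add_nonneg (mul_nonneg (by positivity)
      (Nat.cast_nonneg _)) h7)).trans ?_
    simp only
    calc M * 2 ^ (S₀.card + J.card) * (2 * (1 / 3 : ℝ) ^ V *
        (((RW T X z H K V).filter fun S => ky z H S = (S₀, J)).card : ℝ) +
        B * (X / ((∏ p ∈ S₀, p : ℕ) : ℝ))) =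
        M * (2 * (1 / 3 : ℝ) ^ V * (2 ^ (S₀.card + J.card) *
        (((RW T X z H K V).filter fun S => ky z H S = (S₀, J)).card : ℝ)) +
        2 ^ (S₀.card + J.card) * (B * (X / ((∏ p ∈ S₀, p : ℕ) : ℝ)))) := by ring
      _ ≤ _ := by
        refine mul_le_mul_of_nonneg_left (add_le_add le_rfl ?_) hM
        exact mul_le_mul_of_nonneg_right h6 h7
  refine (Finset.sum_le_sum h3).trans ?_
  rw [← Finset.mul_sum, Finset.sum_add_distrib]
  refine mul_le_mul_of_nonneg_left (add_le_add (le_of_eq ?_) ?_) hM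
  · rw [← Finset.mul_sum]
    congr 1
    unfold wt
    rw [← sum_fiberwise_of_maps_to (g := ky z H) (t := Q) (s := RW T X z H K V)
      (fun S hS => Finset.mem_image_of_mem _ hS)]
    refine Finset.sum_congr rfl fun k _ => ?_
    have e2 : ∀ S ∈ (RW T X z H K V).filter (fun S => ky z H S = k),
        (2 : ℝ) ^ S.card = 2 ^ (k.1.card + k.2.card) := by
      intro S hS
      rw [Finset.mem_filter] at hS
      rw [card_ky hS.1, hS.2]
    rw [sum_congr rfl e2, sum_const, nsmul_eq_mul, mul_comm]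
  rw [← Finset.mul_sum]
  refine mul_le_mul_of_nonneg_left ?_ (by positivity)
  have hsub : Q ⊆ (TT X) ×ˢ ((range N ×ˢ range 9).powerset.filter fun J => J.card ≤ K) := by
    intro k hk
    have hk' := hKP k hk
    rw [hQ, Finset.mem_image] at hk
    obtain ⟨S, hS, rfl⟩ := hk
    obtain ⟨f1, f2, f3⟩ := rr_facts hS
    rw [Finset.mem_product, Finset.mem_filter, Finset.mem_powerset]
    refine ⟨mem_TT (fun q hq => (hk'.pr q hq).1) ?_, ?_, ?_⟩
    · refine le_trans ?_ f3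
      exact Nat.le_of_dvd (Finset.prod_pos fun p hp => (f1 p hp).pos)
        (Finset.prod_dvd_prod_of_subset _ _ _ (Finset.filter_subset _ _))
    · intro e he
      unfold ky at he
      rw [Finset.mem_image] at he
      obtain ⟨q, hq, rfl⟩ := he
      have hqS := (Finset.mem_filter.1 hq).1
      have hq0 := (f1 q hqS).pos
      have hqX : q ≤ X := by
        refine le_trans ?_ f3
        exact Nat.le_of_dvd (Finset.prod_pos fun p hp => (f1 p hp).pos)
          (Finset.dvd_prod_of_mem _ hqS)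
      unfold ph
      rw [Finset.mem_product, Finset.mem_range, Finset.mem_range]
      refine ⟨?_, Nat.mod_lt _ (by norm_num)⟩
      have h3 : ((jj H q : ℕ) : ℝ) < N := by
        refine lt_of_le_of_lt (Nat.floor_le (mul_nonneg (Nat.cast_nonneg _)
          (Real.log_nonneg (by exact_mod_cast hq0)))) ?_
        refine lt_of_le_of_lt ?_ hN
        refine mul_le_mul_of_nonneg_left ?_ (Nat.cast_nonneg _)
        exact Real.log_le_log (by exact_mod_cast hq0) (by exact_mod_cast hqX)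
      exact_mod_cast h3
    · have := hk'.card
      omega
  refine (Finset.sum_le_sum_of_subset_of_nonneg hsub fun _ _ _ => by positivity).trans ?_
  rw [Finset.sum_product]
  simp only [Finset.sum_const, nsmul_eq_mul]
  rw [← Finset.mul_sum]
  have h4 : ((((range N ×ˢ range 9).powerset.filter fun J => J.card ≤ K).card : ℕ) : ℝ) ≤
      (9 * N + 9 : ℝ) ^ K := by
    have h5 := card_sub (range N ×ˢ range 9) K
    rw [Finset.card_product, Finset.card_range, Finset.card_range] at h5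
    calc ((((range N ×ˢ range 9).powerset.filter fun J => J.card ≤ K).card : ℕ) : ℝ) ≤
          (((N * 9 + 1) ^ K : ℕ) : ℝ) := by exact_mod_cast h5
      _ = (N * 9 + 1 : ℝ) ^ K := by push_cast; ring
      _ ≤ _ := by
        apply pow_le_pow_left₀ (by positivity)
        linarith
  have h5 : ∑ S ∈ TT X, B * (X / ((∏ p ∈ S, p : ℕ) : ℝ)) ≤ B * (X * (1 + Real.log X)) := by
    have h6 : ∀ S ∈ TT X, B * ((X : ℝ) / ((∏ p ∈ S, p : ℕ) : ℝ)) =
        B * X * (1 / ((∏ p ∈ S, p : ℕ) : ℝ)) := by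
      intro S _
      ring
    rw [Finset.sum_congr rfl h6, ← Finset.mul_sum]
    have h7 := mul_le_mul_of_nonneg_left (harm_TT X) (mul_nonneg hB0 (Nat.cast_nonneg X))
    refine h7.trans (le_of_eq ?_)
    ring
  have h6 : 0 ≤ ∑ S ∈ TT X, B * (X / ((∏ p ∈ S, p : ℕ) : ℝ)) :=
    Finset.sum_nonneg fun _ _ => by positivity
  rw [mul_assoc]
  exact mul_le_mul h4 h5 h6 (by positivity)

end Run7.h238.C
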