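import Pool.Agent.Y495.CX.FEW
import Pool.Agent.Run7.h238.C.Key

/-!
# Weighted sums over the exceptional sets: few large primes
-/

set_option autoImplicit false

open scoped Classical

namespace Run7.h238.C

open Finset
open Filter
open Pool.Agent.Y703.CX
open Pool.Agent.Y911.CX (TT mem_TT)
open Pool.Agent.Y495.CX.Few (PN LL mem_LL LL_sub LL_sum mert log_small zz_ge loglog_zz
  rpow_eq le_of_mem_prod)
open Pool.Agent.R413.SQ (Sml sml_of sml_add)
open Pool.Agent.R413.SQ.FEW (moment)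
open Run7.h238.WSie (wsie)
open Run7.h238.WFew (wt wt_nonneg wt_mono wt_union wt_card)
open Run7.h238.WTail (sml_mono)

/-- sets with many small primes -/
theorem sml_small :
    Sml 0 fun X => wt ((TT X).filter fun S => eL X / 80 < ((sm (zz X) S).card : ℝ)) := by
  obtain ⟨C, hC0, hC⟩ := mert
  set κ : ℝ := Real.exp 400 with hκ
  have κ0 : 0 < κ := Real.exp_pos _
  refine sml_cs (C := Real.exp (κ * C)) (a := 4) (fun X => filter_subset _ _)
    (Real.exp_pos _).le (by norm_num) ?_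
  filter_upwards [eL_tendsto.eventually (log_small (3 * κ) 1 (by norm_num)),
    eL_tendsto.eventually (eventually_ge_atTop 2)] with X h1 h2
  have h3 := moment X (zz X) (TT X) (fun S hS => TT_prop hS) κ κ0.le
  have h4 := hC (zz X) (zz_ge h2)
  have h5 := loglog_zz h2
  have h6 : (((TT X).filter fun S => eL X / 80 < ((sm (zz X) S).card : ℝ)).card : ℝ) *
      Real.exp (5 * eL X) ≤ ∑ S ∈ TT X, κ ^ (sm (zz X) S).card := by
    rw [← nsmul_eq_mul, ← sum_const]
    refine le_trans ?_ (sum_le_sum_of_subset_of_nonneg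
      (filter_subset (fun S => eL X / 80 < ((sm (zz X) S).card : ℝ)) (TT X))
      fun S _ _ => by positivity)
    refine sum_le_sum fun S hS => ?_
    rw [mem_filter] at hS
    rw [hκ, ← Real.exp_nat_mul]
    apply Real.exp_le_exp.2
    linarith [hS.2]
  have h7 := h6.trans h3
  have h8 : κ * ∑ p ∈ PN (zz X), (1 : ℝ) / p ≤ κ * C + 1 * eL X := by
    have : κ * ∑ p ∈ PN (zz X), (1 : ℝ) / p ≤ κ * (3 * Real.log (eL X) + C) :=
      mul_le_mul_of_nonneg_left (by linarith) κ0.le
    nlinarith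
  have h9 : (X : ℝ) * Real.exp (κ * ∑ p ∈ PN (zz X), (1 : ℝ) / p) ≤
      X * (Real.exp (κ * C) * Real.exp (1 * eL X)) := by
    rw [← Real.exp_add]
    exact mul_le_mul_of_nonneg_left (Real.exp_le_exp.2 h8) (Nat.cast_nonneg _)
  have h10 := h7.trans h9
  have h11 : (Real.exp (κ * C) * (X * Real.exp (-4 * eL X))) * Real.exp (5 * eL X) =
      X * (Real.exp (κ * C) * Real.exp (1 * eL X)) := by
    have : Real.exp (1 * eL X) = Real.exp (-4 * eL X) * Real.exp (5 * eL X) := by
      rw [← Real.exp_add]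
      congr 1
      ring
    rw [this]
    ring
  rw [← h11] at h10
  exact le_of_mul_le_mul_right h10 (Real.exp_pos _)

/-- sets with few large primes -/
theorem part2 (hs : S_SIE) : ∃ C : ℝ, 0 ≤ C ∧ ∀ᶠ X : ℕ in atTop,
    wt (LL X (zz X) ⌊eL X / 40⌋₊) ≤ C * (X * Real.exp (-(1 / 2) * eL X)) := by
  obtain ⟨C, hC0, hC⟩ := mert
  obtain ⟨C', hC'1, hC'⟩ := wsie hs
  refine ⟨C' * Real.exp (2 * (3 * C + 1)), by positivity, ?_⟩
  filter_upwards [eL_tendsto.eventually (log_small 4 (1 / 20) (by norm_num)),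
    eL_tendsto.eventually (eventually_ge_atTop 2), eventually_ge_atTop 3] with X h1 h2 h3
  set l := eL X with hl
  have h4 := hC (zz X) (zz_ge h2)
  have h5 := loglog_zz h2
  have h6 := hC X h3
  rw [← hl] at h5
  have h7 := hC' X (LL X (zz X) ⌊l / 40⌋₊) (by omega)
    (fun S hS => ⟨fun p hp => ((mem_LL.1 hS).2.1 p hp).1, (mem_LL.1 hS).2.2.1⟩)
    (fun S hS T hT => LL_sub hS hT)
  have h8 := LL_sum X (zz X) ⌊l / 40⌋₊ (Λ := l) (by linarith)
  have hlX : Real.log X = Real.exp l := by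
    have := rpow_eq (X := X) h2 1
    rwa [Real.rpow_one, one_mul] at this
  rw [hlX] at h7
  have h9 : (8 : ℝ) ^ ⌊l / 40⌋₊ ≤ Real.exp (21 / 400 * l) := by
    have e1 : (8 : ℝ) = Real.exp (Real.log 8) := (Real.exp_log (by norm_num)).symm
    rw [e1, ← Real.exp_nat_mul]
    apply Real.exp_le_exp.2
    have e2 : ((⌊l / 40⌋₊ : ℕ) : ℝ) ≤ l / 40 := Nat.floor_le (by positivity)
    have e3 : Real.log 8 ≤ 21 / 10 := by
      have : (8 : ℝ) = 2 ^ 3 := by norm_num
      rw [this, Real.log_pow]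
      have := Real.log_two_lt_d9
      push_cast
      linarith
    have e4 : 0 ≤ Real.log 8 := Real.log_nonneg (by norm_num)
    calc ((⌊l / 40⌋₊ : ℕ) : ℝ) * Real.log 8 ≤ (l / 40) * (21 / 10) :=
          mul_le_mul e2 e3 e4 (by positivity)
      _ = _ := by ring
  have h10 : l = Real.exp (Real.log l) := (Real.exp_log (by linarith)).symm
  have h11 : ∑ p ∈ PN (zz X), (1 : ℝ) / p + (1 / 8 + 1 / l) * ∑ p ∈ PN X, (1 : ℝ) / p ≤
      3 * Real.log l + C + (1 / 8 * (l + C) + (1 + C)) := by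
    have e1 : (1 / 8 + 1 / l) * ∑ p ∈ PN X, (1 : ℝ) / p ≤ (1 / 8 + 1 / l) * (l + C) := by
      apply mul_le_mul_of_nonneg_left h6
      positivity
    have e2 : 1 / l * (l + C) ≤ 1 + C := by
      rw [mul_add, one_div_mul_cancel (by linarith)]
      have : 1 / l ≤ 1 := by rw [div_le_one (by linarith)]; linarith
      have := mul_le_mul_of_nonneg_right this hC0
      linarith
    nlinarith
  have h12 : 8 ^ ⌊l / 40⌋₊ * l * Real.exp (∑ p ∈ PN (zz X), (1 : ℝ) / p +
      (1 / 8 + 1 / l) * ∑ p ∈ PN X, (1 : ℝ) / p) ≤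
      Real.exp (3 * C + 1) * Real.exp (1 / 4 * l) := by
    calc _ ≤ Real.exp (21 / 400 * l) * l *
          Real.exp (3 * Real.log l + C + (1 / 8 * (l + C) + (1 + C))) := by
          gcongr
      _ = Real.exp (21 / 400 * l) * Real.exp (Real.log l) *
          Real.exp (3 * Real.log l + C + (1 / 8 * (l + C) + (1 + C))) := by rw [← h10]
      _ = Real.exp (21 / 400 * l + Real.log l +
          (3 * Real.log l + C + (1 / 8 * (l + C) + (1 + C)))) := by
          rw [← Real.exp_add, ← Real.exp_add]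
      _ ≤ Real.exp (3 * C + 1 + 1 / 4 * l) := by
          apply Real.exp_le_exp.2
          linarith
      _ = _ := by rw [Real.exp_add]
  have h0 : 0 ≤ ∑ S ∈ LL X (zz X) ⌊l / 40⌋₊, (1 : ℝ) / ((∏ p ∈ S, p : ℕ) : ℝ) :=
    sum_nonneg fun _ _ => by positivity
  have h12' := pow_le_pow_left₀ h0 (h8.trans h12) 2
  have h13 : wt (LL X (zz X) ⌊l / 40⌋₊) * Real.exp l ≤
      C' * X * (Real.exp (3 * C + 1) * Real.exp (1 / 4 * l)) ^ 2 := by
    refine h7.trans ?_
    exact mul_le_mul_of_nonneg_left h12' (by positivity)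
  have h14 : (C' * Real.exp (2 * (3 * C + 1)) * (X * Real.exp (-(1 / 2) * l))) * Real.exp l =
      C' * X * (Real.exp (3 * C + 1) * Real.exp (1 / 4 * l)) ^ 2 := by
    rw [mul_pow, ← Real.exp_nat_mul, ← Real.exp_nat_mul]
    have e1 : Real.exp (((2 : ℕ) : ℝ) * (1 / 4 * l)) = Real.exp (-(1 / 2) * l) * Real.exp l := by
      rw [← Real.exp_add]
      congr 1
      push_cast
      ring
    rw [e1]
    push_cast
    ring
  rw [← h14] at h13
  exact le_of_mul_le_mul_right h13 (Real.exp_pos _)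

/-- **sets with few large primes** -/
theorem sml_few (hs : S_SIE) (W : ℕ) :
    Sml 0 fun X => wt ((SP X).filter fun S => (la (zz X) S).card ≤ (sm (zz X) S).card + W) := by
  obtain ⟨C₂, hC₂, h2⟩ := part2 hs
  have s2 : Sml 0 fun X => wt (LL X (zz X) ⌊eL X / 40⌋₊) :=
    sml_of (C := C₂) (a := 1 / 2) (by norm_num) h2
  refine sml_mono ?_ (sml_add sml_small s2)
  filter_upwards [ev_eL (max 2 (80 * (W : ℝ)))] with X h8
  have h9 : 2 ≤ eL X := (le_max_left _ _).trans h8
  have h10 : 80 * (W : ℝ) ≤ eL X := (le_max_right _ _).trans h8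
  have h11 : ((SP X).filter fun S => (la (zz X) S).card ≤ (sm (zz X) S).card + W) ⊆
      ((TT X).filter fun S => eL X / 80 < ((sm (zz X) S).card : ℝ)) ∪
        LL X (zz X) ⌊eL X / 40⌋₊ := by
    intro S hS
    rw [mem_filter] at hS
    rw [mem_union, mem_filter]
    by_cases hc : eL X / 80 < ((sm (zz X) S).card : ℝ)
    · exact Or.inl ⟨SP_sub_TT X hS.1, hc⟩
    · right
      rw [not_lt] at hc
      obtain ⟨a1, a3⟩ := mem_SP.1 hS.1
      rw [mem_LL]
      refine ⟨?_, ?_, a3, ?_, ?_⟩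
      · intro p hp
        rw [mem_range]
        have := le_of_mem_prod (fun p hp => (a1 p hp).1) a3 hp
        omega
      · intro p hp
        refine ⟨(a1 p hp).1, ?_⟩
        rintro rfl
        have := (a1 3 hp).2
        omega
      · have e : S.filter (fun p => p % 3 = 2) = ∅ := by
          rw [filter_eq_empty_iff]
          intro p hp h
          have := (a1 p hp).2
          omega
        rw [e]
        simp
      · refine (card_filter_le _ _).trans ?_
        apply Nat.le_floor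
        have h12 : (((la (zz X) S).card : ℕ) : ℝ) ≤ ((sm (zz X) S).card : ℝ) + W := by
          exact_mod_cast hS.2
        linarith
  exact (wt_mono h11).trans (wt_union _ _)

/-- the main error term -/
theorem sml_main {C : ℝ} (hC : 1 ≤ C) : Sml 0 fun X => 2 ^ kk X * ((9 * (WTail.N2 X : ℝ) + 9) ^ kk X *
    (3 ^ (12 * kk X ^ 2) * kap C X) * (X * (1 + Real.log X))) := by
  apply Pool.Agent.R413.SQ.sml_of (C := 4 * C) (a := 1) (by norm_num)
  filter_upwards [ev_eL 30000] with X hX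
  set l := eL X with hl
  have h0 : 0 < eL X := by linarith
  have h1 : 1 ≤ eL X := by linarith
  have hX0 : (0 : ℝ) ≤ X := Nat.cast_nonneg _
  have hN : 9 * (WTail.N2 X : ℝ) + 9 ≤ Real.exp (23 * l) := by
    have h2 : (WTail.N2 X : ℝ) ≤ WTail.H2 X * Real.log X + 1 := by
      unfold WTail.N2
      push_cast
      have := Nat.floor_le (a := (WTail.H2 X : ℝ) * Real.log X)
        (mul_nonneg (Nat.cast_nonneg _) (Real.log_natCast_nonneg X))
      linarith
    have h3 : (WTail.H2 X : ℝ) * Real.log X ≤ 128 * Real.exp (22 * l) := by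
      rw [logX_eq h0]
      calc (WTail.H2 X : ℝ) * Real.exp (eL X) ≤ 128 * Real.exp (21 * eL X) * Real.exp (eL X) :=
            mul_le_mul_of_nonneg_right (WTail.H2_le h0) (Real.exp_pos _).le
        _ = 128 * Real.exp (22 * l) := by
            rw [mul_assoc, ← Real.exp_add]
            congr 2
            rw [hl]
            ring
    have h4 : 1 ≤ Real.exp (22 * l) := one_le_exp (by linarith)
    have h5 : (2000 : ℝ) ≤ Real.exp l := by
      have := Real.add_one_le_exp l
      linarith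
    have h6 : Real.exp (23 * l) = Real.exp (22 * l) * Real.exp l := by
      rw [← Real.exp_add]; congr 1; ring
    rw [h6]
    nlinarith
  have hkk := kk_le h1
  have hkk0 : (0 : ℝ) ≤ kk X := Nat.cast_nonneg _
  have hA : (9 * (WTail.N2 X : ℝ) + 9) ^ kk X ≤ Real.exp (253 * l ^ 2) := by
    calc (9 * (WTail.N2 X : ℝ) + 9) ^ kk X ≤ (Real.exp (23 * l)) ^ kk X := by gcongr
      _ = Real.exp (kk X * (23 * l)) := (Real.exp_nat_mul _ _).symm
      _ ≤ Real.exp (253 * l ^ 2) := by
          apply Real.exp_le_exp.2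
          nlinarith
  have hT : (2 : ℝ) ^ kk X ≤ Real.exp (11 * l ^ 2) := by
    have e : (2 : ℝ) ≤ Real.exp 1 := by
      have := Real.exp_one_gt_d9
      linarith
    calc (2 : ℝ) ^ kk X ≤ (Real.exp 1) ^ kk X := pow_le_pow_left₀ (by norm_num) e _
      _ = Real.exp (kk X * 1) := (Real.exp_nat_mul _ _).symm
      _ ≤ _ := by
          apply Real.exp_le_exp.2
          nlinarith
  have hB : (3 : ℝ) ^ (12 * kk X ^ 2) ≤ Real.exp (1600 * l ^ 2) := by
    have e : (3 : ℝ) ^ (12 * kk X ^ 2) = Real.exp ((12 * (kk X : ℝ) ^ 2) * Real.log 3) := by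
      rw [mul_comm (12 * (kk X : ℝ) ^ 2) (Real.log 3), Real.exp_mul, Real.exp_log (by norm_num)]
      rw [← Real.rpow_natCast]
      congr 1
      push_cast
      ring
    rw [e]
    apply Real.exp_le_exp.2
    have h2 : Real.log 3 ≤ 1.1 := by
      have h3 : (3 : ℝ) ≤ Real.exp 1.1 := by
        have h4 : (2.7182818283 : ℝ) < Real.exp 1 := Real.exp_one_gt_d9
        have h5 : (1.105 : ℝ) ≤ Real.exp 0.1 := by
          have := Real.quadratic_le_exp_of_nonneg (x := 0.1) (by norm_num)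
          norm_num at this ⊢
          linarith
        have h6 : Real.exp 1.1 = Real.exp 1 * Real.exp 0.1 := by
          rw [← Real.exp_add]; norm_num
        rw [h6]
        nlinarith
      calc Real.log 3 ≤ Real.log (Real.exp 1.1) := Real.log_le_log (by norm_num) h3
        _ = 1.1 := Real.log_exp _
    have h3 : (kk X : ℝ) ^ 2 ≤ 121 * l ^ 2 := by nlinarith
    have h4 : 0 ≤ (kk X : ℝ) ^ 2 := sq_nonneg _
    have h5 : (12 * (kk X : ℝ) ^ 2) * Real.log 3 ≤ (12 * (kk X : ℝ) ^ 2) * 1.1 :=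
      mul_le_mul_of_nonneg_left h2 (by positivity)
    nlinarith [sq_nonneg l]
  have hK := kap_le hC h1
  have hLg := one_add_log h0
  have hk0 := kap_nonneg hC X
  have hLg0 := one_add_log_nonneg X
  have hmain : 2 ^ kk X * ((9 * (WTail.N2 X : ℝ) + 9) ^ kk X * (3 ^ (12 * kk X ^ 2) * kap C X) *
      (X * (1 + Real.log X))) ≤ Real.exp (11 * l ^ 2) * (Real.exp (253 * l ^ 2) *
        (Real.exp (1600 * l ^ 2) * (2 * C * Real.exp (-l ^ 3 / 12))) * (X * (2 * Real.exp l))) := by
    gcongr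
  refine hmain.trans ?_
  have e : Real.exp (11 * l ^ 2) * (Real.exp (253 * l ^ 2) *
        (Real.exp (1600 * l ^ 2) * (2 * C * Real.exp (-l ^ 3 / 12))) * (X * (2 * Real.exp l))) =
      4 * C * (X * Real.exp (11 * l ^ 2 + 253 * l ^ 2 + 1600 * l ^ 2 + -l ^ 3 / 12 + l)) := by
    rw [Real.exp_add, Real.exp_add, Real.exp_add, Real.exp_add]
    ring
  rw [e]
  have h9 : 11 * l ^ 2 + 253 * l ^ 2 + 1600 * l ^ 2 + -l ^ 3 / 12 + l ≤ -1 * l := by
    have h10 : 30000 * l ^ 2 ≤ l ^ 3 := by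
      have : l ^ 3 = l * l ^ 2 := by ring
      rw [this]
      exact mul_le_mul_of_nonneg_right hX (sq_nonneg l)
    nlinarith
  have h11 := Real.exp_le_exp.2 h9
  have hC0 : (0 : ℝ) ≤ 4 * C := by linarith
  gcongr

end Run7.h238.C
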