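import Pool.Agent.Y703.CX.Fin
import Pool.Agent.Run7.h238.C.Bad2
import Pool.Agent.Run7.h238.C.Few

/-!
# The weighted law for the cubic twists

`S` runs over the sets of primes `≡ 1` modulo `3` disjoint from a fixed set `T`, with the weight
`2 ^ |S|` times a bounded function of the product modulo `9`.
-/

set_option autoImplicit false

open scoped Classical

namespace Run7.h238.C

open Finset
open Filter
open Pool.Agent.Y703.CX
open Pool.Agent.R413.SQ (Sml sml_of sml_add)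
open Run7.h238.WFew (wt wt_nonneg wt_mono wt_union wt_card)
open Run7.h238.WTail (H2 H2_pos N2 sml_mono)
open Run7.h238.WFin (zz_tendsto)

/-- the indicator function of the good sets, minus the proportion -/
noncomputable def dvE (e : ℕ → ZMod 3) (U : Finset ℕ) : ℝ := (if GdE e U then 1 else 0) - c3

theorem c3_pos : 0 < c3 := Pool.Agent.Y461.CX.t_C3.2.1

theorem c3_lt : c3 < 1 := Pool.Agent.Y461.CX.t_C3.2.2.1

theorem dvE_le (e : ℕ → ZMod 3) (U : Finset ℕ) : |dvE e U| ≤ 1 := by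
  unfold dvE
  have h1 := c3_pos
  have h2 := c3_lt
  rw [abs_le]
  split_ifs <;> constructor <;> linarith

/-- the sets outside the regular part -/
theorem out_sub (T : Finset ℕ) (X z H K V : ℕ) :
    (SP X).filter (fun S => Disjoint S T) \
      ((RW T X z H K V).filter fun S => Nd (T ∪ sm z S) (la z S)) ⊆
      ((((Pool.Agent.Y911.CX.TT X).filter fun S => K < S.card) ∪
      ((Pool.Agent.Y911.CX.TT X).filter fun S => S.card ≤ K ∧
        X < (∏ p ∈ sm z S, p) * ∏ p ∈ la z S, XX H (jj H p))) ∪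
      ((Pool.Agent.Y911.CX.TT X).filter fun S => ¬ Set.InjOn (jj H) (la z S : Set ℕ))) ∪
      (((SP X).filter fun S => (la z S).card ≤ (sm z S).card + (T.card + V)) ∪
      ((SP X).filter fun S => S.card ≤ K ∧ ¬ Nd (T ∪ sm z S) (la z S))) := by
  intro S hS
  rw [Finset.mem_sdiff, Finset.mem_filter, Finset.mem_filter] at hS
  obtain ⟨⟨h1, h1'⟩, h2⟩ := hS
  have h0 := SP_sub_TT X h1
  simp only [mem_union, mem_filter]
  by_contra hc
  push Not at hc
  obtain ⟨⟨⟨c1, c2⟩, c3'⟩, c4, c5⟩ := hc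
  have d1 : S.card ≤ K := c1 h0
  have d2 := c2 h0 d1
  have d3 := c3' h0
  have d4 := c4 h1
  have d5 := c5 h1 d1
  apply h2
  unfold RW
  rw [Finset.mem_filter]
  exact ⟨⟨h1, h1', d3, d1, d2, by omega⟩, d5⟩

/-- the weight on the sets disjoint from `G` -/
noncomputable def gw (G : Finset ℕ) (h : ℕ → ℝ) (A : Finset ℕ) (n : ℕ) : ℝ :=
  if Disjoint A G then h n else 0

theorem gw_nonneg {G : Finset ℕ} {h : ℕ → ℝ} (hh0 : ∀ n, 0 ≤ h n) (A : Finset ℕ) (n : ℕ) :
    0 ≤ gw G h A n := by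
  unfold gw
  split_ifs
  · exact hh0 n
  · exact le_rfl

theorem gw_le {G : Finset ℕ} {h : ℕ → ℝ} {M : ℝ} (hM : 0 ≤ M) (hhM : ∀ n, h n ≤ M) (A : Finset ℕ)
    (n : ℕ) : gw G h A n ≤ M := by
  unfold gw
  split_ifs
  · exact hhM n
  · exact hM

theorem gw_sm {G : Finset ℕ} {h : ℕ → ℝ} {z : ℕ} (hz : ∀ g ∈ G, g ≤ z) (S : Finset ℕ) (n : ℕ) :
    gw G h (sm z S) n = gw G h S n := by
  unfold gw
  refine if_congr ?_ rfl rfl
  rw [Finset.disjoint_left, Finset.disjoint_left]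
  constructor
  · intro h1 p hp hG
    exact h1 (Finset.mem_filter.2 ⟨hp, hz p hG⟩) hG
  · intro h1 p hp hG
    exact h1 (Finset.mem_filter.1 hp).1 hG

/-- **the weighted law**, with a weight -/
theorem law_gw (h3 : L3) (T G : Finset ℕ) (hT : ∀ t ∈ T, t.Prime)
    (hT1 : (T.filter fun p => ¬ p % 3 = 1).card = 1) (e : ℕ → ZMod 3) (he0 : ∀ u ∈ T, e u ≠ 0)
    (he1 : ∀ u, u ∉ T → e u = 1) (h : ℕ → ℝ) (M : ℝ) (hh0 : ∀ n, 0 ≤ h n) (hhM : ∀ n, h n ≤ M)
    (hcard : ∃ CT : ℝ, 0 < CT ∧ ∀ X : ℕ, wt (SP X) ≤ CT * X) (ε : ℝ) (hε : 0 < ε) :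
    ∀ᶠ X : ℕ in atTop, |∑ S ∈ (SP X).filter (fun S => Disjoint S T),
      gw G h S ((∏ p ∈ S, p) % 9) * 2 ^ S.card * dvE e (T ∪ S)| ≤ ε * X := by
  have hM0 : 0 ≤ M := (hh0 0).trans (hhM 0)
  have hsie := Pool.Agent.Y488.CX.t_SIE
  have hL := Pool.Agent.Y333.CX.t_LAM
  obtain ⟨C, hC1, hkey⟩ := wkey hL Pool.Agent.Y261.CX.t_BIL1
    Pool.Agent.Y419.CX.t_EQ (Pool.Agent.Y759.CX.t_LA Pool.Agent.Y461.CX.t_C3)
  obtain ⟨CT, hCT, htot⟩ := hcard
  obtain ⟨V, hV⟩ := exists_pow_lt_of_lt_one (show (0 : ℝ) < ε / (4 * (M + 1) * CT) by positivity)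
    (show (1 / 3 : ℝ) < 1 by norm_num)
  have s4 := sml_few hsie (T.card + V)
  have s5 := bad hsie hL h3 T hT
  have s6 := sml_main hC1
  have s := sml_add (sml_add (sml_add (sml_add sml_many sml_cut) sml_coll) (sml_add s4 s5)) s6
  filter_upwards [s (ε / (4 * (M + 1))) (by positivity), ev_eL (max 1 T.card),
    zz_tendsto.eventually (eventually_ge_atTop (T.sup id)),
    zz_tendsto.eventually (eventually_ge_atTop (G.sup id))] with X hX hl' hzz hzG
  have hl : 1 ≤ eL X := (le_max_left _ _).trans hl'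
  have hl2 : (T.card : ℝ) ≤ eL X := (le_max_right _ _).trans hl'
  have hTz : ∀ t ∈ T, t ≤ zz X := fun t ht => (le_sup (f := id) ht).trans hzz
  have hGz : ∀ t ∈ G, t ≤ zz X := fun t ht => (le_sup (f := id) ht).trans hzG
  have hTk : T.card ≤ kk X := by
    have h7 := kk_ge X
    have h8 : (T.card : ℝ) ≤ kk X := by linarith
    exact_mod_cast h8
  have hl0 : 0 < eL X := by linarith
  have hXp := X_pos hl0
  have hX0 : (0 : ℝ) < X := by exact_mod_cast hXp
  have e0 : (X : ℝ) * Real.exp (-0 * eL X) = X := by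
    rw [neg_zero, zero_mul, Real.exp_zero, mul_one]
  rw [e0] at hX
  have hN : (H2 X : ℝ) * Real.log X < N2 X := by
    unfold N2
    push_cast
    exact Nat.lt_floor_add_one _
  have hmain := hkey T e X (zz X) (H2 X) (kk X) V (N2 X) (kap C X) hXp (H2_pos hl0)
    (zz_pos hl) (kap_nonneg hC1 X) (kap_pow hC1 hl) hN hTz hT1 he0 he1 hTk (gw G h) M
    (gw_nonneg hh0) (gw_le hM0 hhM)
  simp only [gw_sm hGz] at hmain
  set Q := (RW T X (zz X) (H2 X) (kk X) V).filter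
    fun S => Nd (T ∪ sm (zz X) S) (la (zz X) S) with hQ
  have hQG : (RW T X (zz X) (H2 X) (kk X) V).filter
      (fun S => Nd (T ∪ sm (zz X) S) (la (zz X) S) ∧ GdE e (T ∪ S)) =
      Q.filter fun S => GdE e (T ∪ S) := by
    rw [hQ, filter_filter]
  rw [hQG] at hmain
  set P := (SP X).filter (fun S => Disjoint S T) with hP
  have hQP : Q ⊆ P := by
    intro S hS
    rw [hQ, mem_filter] at hS
    have h1 := hS.1
    unfold RW at h1
    rw [mem_filter] at h1
    rw [hP, mem_filter]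
    exact ⟨h1.1, h1.2.1⟩
  -- the regular part
  have e1 : ∑ S ∈ Q, gw G h S ((∏ p ∈ S, p) % 9) * 2 ^ S.card * dvE e (T ∪ S) =
      ∑ S ∈ Q.filter (fun S => GdE e (T ∪ S)), gw G h S ((∏ p ∈ S, p) % 9) * 2 ^ S.card -
        c3 * ∑ S ∈ Q, gw G h S ((∏ p ∈ S, p) % 9) * 2 ^ S.card := by
    rw [sum_filter (s := Q) (p := fun S => GdE e (T ∪ S)), mul_sum, ← sum_sub_distrib]
    refine sum_congr rfl fun S _ => ?_
    unfold dvE
    split_ifs <;> ring
  have h1 : wt (RW T X (zz X) (H2 X) (kk X) V) ≤ CT * X :=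
    (wt_mono (filter_subset _ _)).trans (htot X)
  have hV2 : 2 * (1 / 3 : ℝ) ^ V * wt (RW T X (zz X) (H2 X) (kk X) V) ≤
      ε / (2 * (M + 1)) * X := by
    calc 2 * (1 / 3 : ℝ) ^ V * wt (RW T X (zz X) (H2 X) (kk X) V) ≤
          2 * (ε / (4 * (M + 1) * CT)) * (CT * X) := by
          refine mul_le_mul ?_ h1 (wt_nonneg _) (by positivity)
          linarith
      _ = _ := by
          have : CT ≠ 0 := hCT.ne'
          field_simp
          ring
  -- the rest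
  have hout : wt (P \ Q) ≤
      (wt ((Pool.Agent.Y911.CX.TT X).filter fun S => kk X < S.card) +
      wt ((Pool.Agent.Y911.CX.TT X).filter fun S => S.card ≤ kk X ∧
        X < (∏ p ∈ sm (zz X) S, p) * ∏ p ∈ la (zz X) S, XX (H2 X) (jj (H2 X) p)) +
      wt ((Pool.Agent.Y911.CX.TT X).filter fun S =>
        ¬ Set.InjOn (jj (H2 X)) (la (zz X) S : Set ℕ))) +
      (wt ((SP X).filter fun S => (la (zz X) S).card ≤ (sm (zz X) S).card + (T.card + V)) +
      wt ((SP X).filter fun S => S.card ≤ kk X ∧ ¬ Nd (T ∪ sm (zz X) S) (la (zz X) S))) := by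
    have g1 := wt_mono (out_sub T X (zz X) (H2 X) (kk X) V)
    rw [← hQ, ← hP] at g1
    refine g1.trans ((wt_union _ _).trans (add_le_add ((wt_union _ _).trans
      (add_le_add (wt_union _ _) le_rfl)) (wt_union _ _)))
  have e2 : ∑ S ∈ P, gw G h S ((∏ p ∈ S, p) % 9) * 2 ^ S.card * dvE e (T ∪ S) =
      ∑ S ∈ P \ Q, gw G h S ((∏ p ∈ S, p) % 9) * 2 ^ S.card * dvE e (T ∪ S) +
      ∑ S ∈ Q, gw G h S ((∏ p ∈ S, p) % 9) * 2 ^ S.card * dvE e (T ∪ S) :=
    (sum_sdiff hQP).symm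
  have h2 : |∑ S ∈ P \ Q, gw G h S ((∏ p ∈ S, p) % 9) * 2 ^ S.card * dvE e (T ∪ S)| ≤
      M * wt (P \ Q) := by
    refine (abs_sum_le_sum_abs _ _).trans ?_
    unfold wt
    rw [mul_sum]
    refine sum_le_sum fun S _ => ?_
    rw [abs_mul, abs_mul, abs_of_nonneg (gw_nonneg hh0 _ _),
      abs_of_nonneg (by positivity : (0 : ℝ) ≤ 2 ^ S.card)]
    calc gw G h S ((∏ p ∈ S, p) % 9) * 2 ^ S.card * |dvE e (T ∪ S)| ≤
          gw G h S ((∏ p ∈ S, p) % 9) * 2 ^ S.card * 1 :=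
          mul_le_mul_of_nonneg_left (dvE_le e _) (mul_nonneg (gw_nonneg hh0 _ _) (by positivity))
      _ ≤ M * 2 ^ S.card := by
          rw [mul_one]
          exact mul_le_mul_of_nonneg_right (gw_le hM0 hhM _ _) (by positivity)
  rw [e2]
  refine (abs_add_le _ _).trans ?_
  rw [e1]
  have h3 := add_le_add h2 hmain
  refine h3.trans ?_
  set E := 2 ^ kk X * ((9 * (N2 X : ℝ) + 9) ^ kk X * (3 ^ (12 * kk X ^ 2) * kap C X) *
    (X * (1 + Real.log X))) with hE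
  have h4 : wt (P \ Q) + E ≤ ε / (4 * (M + 1)) * X := by linarith
  have h5 : wt (P \ Q) + (2 * (1 / 3 : ℝ) ^ V * wt (RW T X (zz X) (H2 X) (kk X) V) + E) ≤
      ε / (M + 1) * X := by
    have h6 : ε / (4 * (M + 1)) * X + ε / (2 * (M + 1)) * X ≤ ε / (M + 1) * X := by
      rw [← add_mul]
      refine mul_le_mul_of_nonneg_right ?_ hX0.le
      have h7 : (0 : ℝ) < M + 1 := by linarith
      have h8 : ε / (4 * (M + 1)) = 1 / 4 * (ε / (M + 1)) := by
        field_simp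
      have h9 : ε / (2 * (M + 1)) = 1 / 2 * (ε / (M + 1)) := by
        field_simp
      have h10 : 0 < ε / (M + 1) := by positivity
      rw [h8, h9]
      linarith
    linarith
  rw [← mul_add]
  have h6 : M * (ε / (M + 1) * X) ≤ ε * X := by
    have h7 : (0 : ℝ) < M + 1 := by linarith
    have h8 : M / (M + 1) ≤ 1 := by
      rw [div_le_one h7]
      linarith
    calc M * (ε / (M + 1) * X) = M / (M + 1) * (ε * X) := by
          field_simp
      _ ≤ 1 * (ε * X) := mul_le_mul_of_nonneg_right h8 (by positivity)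
      _ = ε * X := one_mul _
  exact (mul_le_mul_of_nonneg_left h5 hM0).trans h6

/-- **the weighted law** -/
theorem law (h3 : L3) (T G : Finset ℕ) (hT : ∀ t ∈ T, t.Prime)
    (hT1 : (T.filter fun p => ¬ p % 3 = 1).card = 1) (e : ℕ → ZMod 3) (he0 : ∀ u ∈ T, e u ≠ 0)
    (he1 : ∀ u, u ∉ T → e u = 1) (h : ℕ → ℝ) (M : ℝ) (hh0 : ∀ n, 0 ≤ h n) (hhM : ∀ n, h n ≤ M)
    (hcard : ∃ CT : ℝ, 0 < CT ∧ ∀ X : ℕ, wt (SP X) ≤ CT * X) (ε : ℝ) (hε : 0 < ε) :
    ∀ᶠ X : ℕ in atTop, |∑ S ∈ (SP X).filter (fun S => Disjoint S T ∧ Disjoint S G),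
      h ((∏ p ∈ S, p) % 9) * 2 ^ S.card * dvE e (T ∪ S)| ≤ ε * X := by
  filter_upwards [law_gw h3 T G hT hT1 e he0 he1 h M hh0 hhM hcard ε hε] with X hX
  refine le_trans (le_of_eq ?_) hX
  congr 1
  rw [← filter_filter, sum_filter]
  refine sum_congr rfl fun S _ => ?_
  unfold gw
  split_ifs with h1
  · rfl
  · ring

end Run7.h238.C
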