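import Pool.Agent.Run7.h135.Kx
import Pool.Agent.Run7.h238.C.Law

/-!
# The law for the prime `3`
-/

set_option autoImplicit false

open scoped Classical

namespace Run7.h238.C

open Pool.Agent.Y692.QS (Ei)
open Pool.Agent.Y703.CX

theorem t_L3 : L3 := by
  intro p hp h1
  obtain ⟨h2, h3⟩ := Pool.Agent.Y333.CX.t_LAM.ex p hp h1
  unfold lam
  have h4 := Pool.Agent.Run7.h135.Kx.law h2 hp h3
  have e : ((3 : ℕ) : Ei) = 3 := by norm_cast
  rw [e, h4]
  obtain ⟨b, hb⟩ := prm_form (show Pool.Agent.Y699.E.prm (pp p) from h2.three)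
  have h5 : (pp p).im = 3 * b.im := by rw [hb, im3]
  rw [Pool.Agent.Run7.h135.Kx.kx_prim h2.three h5, h5, Int.mul_ediv_cancel_left _ (by norm_num)]

end Run7.h238.C
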