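import Pool.Agent.Y710.CX.NS
import Pool.Agent.Run7.h238.C.Box

/-!
# The splitting condition for cube-free numbers and the linear systems with exponents
-/

set_option autoImplicit false

open scoped Classical

namespace Run7.h238.C.NSE

open Finset
open Pool.Agent.Y703.CX
open Pool.Agent.Y703.CT (NoSplit)
open Pool.Agent.Y710.CX (lam_one not_dvd_prod part cube_two part_prime)

/-- cube-free -/
def CF (D : ℕ) : Prop := D ≠ 0 ∧ ∀ p : ℕ, p.Prime → ¬ p ^ 3 ∣ D

/-- the primes with exponent not divisible by three -/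
def cs3 (D : ℕ) : Finset ℕ := D.primeFactors.filter fun p => ¬ 3 ∣ D.factorization p

theorem mem_cs3 {D p : ℕ} : p ∈ cs3 D ↔ ¬ 3 ∣ D.factorization p := by
  unfold cs3
  rw [mem_filter]
  refine ⟨fun h => h.2, fun h => ⟨?_, h⟩⟩
  rw [← Nat.support_factorization, Finsupp.mem_support_iff]
  intro h0
  rw [h0] at h
  exact h (dvd_zero 3)

/-- the exponents modulo three -/
noncomputable def ev (D p : ℕ) : ZMod 3 := if p ∈ cs3 D then (D.factorization p : ZMod 3) else 1

theorem fact_le {D : ℕ} (hD : CF D) {p : ℕ} (hp : p.Prime) : D.factorization p ≤ 2 := by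
  by_contra h
  push Not at h
  exact hD.2 p hp ((hp.pow_dvd_iff_le_factorization hD.1).2 h)

theorem cs3_cf {D : ℕ} (hD : CF D) : cs3 D = D.primeFactors := by
  unfold cs3
  refine filter_true_of_mem fun p hp => ?_
  have hpp := Nat.prime_of_mem_primeFactors hp
  have h1 := fact_le hD hpp
  have h2 := (hpp.dvd_iff_one_le_factorization hD.1).1 (Nat.dvd_of_mem_primeFactors hp)
  omega

theorem ev_cf {D : ℕ} (hD : CF D) {p : ℕ} (hp : p ∈ D.primeFactors) :
    ev D p = (D.factorization p : ZMod 3) := by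
  unfold ev
  rw [if_pos (by rw [cs3_cf hD]; exact hp)]

/-! ### the logarithm of a product -/

theorem not_dvd_prod_pow {p : ℕ} (hp : p.Prime) (f : ℕ → ℕ) (T : Finset ℕ) (hT : ∀ q ∈ T, q.Prime)
    (hpT : p ∉ T) : ¬ p ∣ ∏ q ∈ T, q ^ f q := by
  intro h
  obtain ⟨q, hq, hpq⟩ := (hp.prime.dvd_finsetProd_iff _).1 h
  rw [(Nat.prime_dvd_prime_iff_eq hp (hT q hq)).1 (hp.dvd_of_dvd_pow hpq)] at hpT
  exact hpT hq

theorem lam_pow (h : LamP) {p : ℕ} (hp : p.Prime) (hp1 : p % 3 = 1) {q : ℕ} (hq : ¬ p ∣ q) (n : ℕ) :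
    lam p (q ^ n) = n * lam p q := by
  induction n with
  | zero => rw [pow_zero, lam_one h hp hp1, Nat.cast_zero, zero_mul]
  | succ n ih =>
    rw [pow_succ, h.mul p _ _ hp hp1 (fun h1 => hq (hp.dvd_of_dvd_pow h1)) hq, ih]
    push_cast
    ring

theorem lam_prod_pow (h : LamP) {p : ℕ} (hp : p.Prime) (hp1 : p % 3 = 1) (f : ℕ → ℕ) (T : Finset ℕ)
    (hT : ∀ q ∈ T, q.Prime) (hpT : p ∉ T) :
    lam p (∏ q ∈ T, q ^ f q) = ∑ q ∈ T, (f q : ZMod 3) * lam p q := by
  induction T using Finset.induction_on with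
  | empty => simpa using lam_one h hp hp1
  | insert a T ha ih =>
    rw [Finset.prod_insert ha, Finset.sum_insert ha]
    have h1 : ∀ q ∈ T, q.Prime := fun q hq => hT q (Finset.mem_insert_of_mem hq)
    have h2 : p ∉ T := fun hq => hpT (Finset.mem_insert_of_mem hq)
    have h3 : ¬ p ∣ a := by
      intro h4
      have := (Nat.prime_dvd_prime_iff_eq hp (hT a (Finset.mem_insert_self _ _))).1 h4
      exact hpT (this ▸ Finset.mem_insert_self _ _)
    rw [h.mul p _ _ hp hp1 (fun h4 => h3 (hp.dvd_of_dvd_pow h4)) (not_dvd_prod_pow hp f T h1 h2),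
      ih h1 h2, lam_pow h hp hp1 h3]

/-- the product of the part with label `i` -/
noncomputable def de (f : ℕ → ℕ) (S : Finset ℕ) (c : ℕ → ZMod 3) (i : ZMod 3) : ℕ :=
  ∏ q ∈ part S c i, q ^ f q

theorem not_dvd_de {f : ℕ → ℕ} {S : Finset ℕ} (hS : ∀ q ∈ S, q.Prime) (c : ℕ → ZMod 3) {p : ℕ}
    (hp : p.Prime) {i : ZMod 3} (hi : i ≠ c p) : ¬ p ∣ de f S c i :=
  not_dvd_prod_pow hp f _ (part_prime hS c i) fun h => hi (Finset.mem_filter.1 h).2.symm

theorem lam_de (h : LamP) {f : ℕ → ℕ} {S : Finset ℕ} (hS : ∀ q ∈ S, q.Prime) (c : ℕ → ZMod 3)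
    {p : ℕ} (hp : p.Prime) (hp1 : p % 3 = 1) :
    ¬ p ∣ de f S c (c p + 1) * de f S c (c p + 2) ^ 2 ∧
    lam p (de f S c (c p + 1) * de f S c (c p + 2) ^ 2) =
      ∑ q ∈ S, (c q - c p) * ((f q : ZMod 3) * lam p q) := by
  have n1 : c p + 1 ≠ c p := by
    have : ∀ a : ZMod 3, a + 1 ≠ a := by decide
    exact this _
  have n2 : c p + 2 ≠ c p := by
    have : ∀ a : ZMod 3, a + 2 ≠ a := by decide
    exact this _
  have d1 := not_dvd_de (f := f) hS c hp n1
  have d2 := not_dvd_de (f := f) hS c hp n2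
  have d22 : ¬ p ∣ de f S c (c p + 2) ^ 2 := fun h => d2 (hp.dvd_of_dvd_pow h)
  refine ⟨fun h => (hp.dvd_mul.1 h).elim d1 d22, ?_⟩
  rw [h.mul p _ _ hp hp1 d1 d22, sq, h.mul p _ _ hp hp1 d2 d2]
  have m1 : p ∉ part S c (c p + 1) := fun h => n1 (Finset.mem_filter.1 h).2.symm
  have m2 : p ∉ part S c (c p + 2) := fun h => n2 (Finset.mem_filter.1 h).2.symm
  unfold de
  rw [lam_prod_pow h hp hp1 f _ (part_prime hS c _) m1,
    lam_prod_pow h hp hp1 f _ (part_prime hS c _) m2]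
  unfold part
  rw [Finset.sum_filter, Finset.sum_filter, ← Finset.sum_add_distrib, ← Finset.sum_add_distrib]
  refine Finset.sum_congr rfl fun q _ => ?_
  have key : ∀ a i l : ZMod 3, (if a = i + 1 then l else 0) +
      ((if a = i + 2 then l else 0) + (if a = i + 2 then l else 0)) = (a - i) * l := by decide
  exact key _ _ _

theorem cube_of {p : ℕ} (hp : p.Prime) (h1 : p % 3 ≠ 1) (n : ℤ) :
    ∃ x : ℤ, (p : ℤ) ∣ n - x ^ 3 := by
  have h2 : p % 3 = 2 ∨ p % 3 = 0 := by omega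
  rcases h2 with h2 | h2
  · exact cube_two hp h2 n
  · have h3 : p = 3 := by
      have h4 : 3 ∣ p := Nat.dvd_of_mod_eq_zero h2
      exact ((Nat.prime_dvd_prime_iff_eq Nat.prime_three hp).1 h4).symm
    subst h3
    refine ⟨n, ?_⟩
    have key : ∀ z : ZMod 3, z - z ^ 3 = 0 := by decide
    have h5 := key (n : ZMod 3)
    rw [← ZMod.intCast_zmod_eq_zero_iff_dvd]
    push_cast
    exact h5

theorem prod_de {f : ℕ → ℕ} {S : Finset ℕ} (c : ℕ → ZMod 3) :
    ∏ i, de f S c i = ∏ q ∈ S, q ^ f q := by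
  unfold de part
  exact Finset.prod_fiberwise S c fun q => q ^ f q

theorem gd_of_nosplit (h : LamP) {D : ℕ} (hD : CF D) (hn : NoSplit D) : GdE (ev D) (cs3 D) := by
  intro c hc
  rw [cs3_cf hD] at hc ⊢
  set f : ℕ → ℕ := fun p => D.factorization p with hf
  obtain ⟨S, hSd⟩ : ∃ S, S = D.primeFactors := ⟨_, rfl⟩
  have hS : ∀ q ∈ S, q.Prime := fun q hq => by
    rw [hSd] at hq
    exact Nat.prime_of_mem_primeFactors hq
  have hfe : ∀ q ∈ S, ev D q = (f q : ZMod 3) := fun q hq => by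
    rw [hSd] at hq
    exact ev_cf hD hq
  rw [← hSd] at hc ⊢
  have hprod : ∏ q ∈ S, q ^ f q = D := by
    rw [hSd]
    have := Nat.factorization_prod_pow_eq_self hD.1
    conv_rhs => rw [← this]
    rfl
  have hmem : ∀ (i : ZMod 3) (p : ℕ), p.Prime → p ∣ de f S c i → p ∈ S ∧ c p = i := by
    intro i p hp hd
    unfold de at hd
    obtain ⟨q, hq, hpq⟩ := (hp.prime.dvd_finsetProd_iff _).1 hd
    rw [(Nat.prime_dvd_prime_iff_eq hp (part_prime hS c i q hq)).1 (hp.dvd_of_dvd_pow hpq)]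
    exact Finset.mem_filter.1 hq
  have hA : ∀ i j : ZMod 3, i ≠ j → Nat.Coprime (de f S c i) (de f S c j) := by
    intro i j hij
    refine Nat.coprime_of_dvd fun p hp h1 h2 => ?_
    have e1 := (hmem _ p hp h1).2
    have e2 := (hmem _ p hp h2).2
    exact hij (e1.symm.trans e2)
  have hB : ∀ (i : ZMod 3) (p : ℕ), p.Prime → p ∣ de f S c i →
      ∃ x : ℤ, (p : ℤ) ∣ (de f S c (i + 1) : ℤ) * (de f S c (i + 2) : ℤ) ^ 2 - x ^ 3 := by
    intro i p hp hd
    obtain ⟨hpS, hcp⟩ := hmem i p hp hd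
    by_cases h1 : p % 3 = 1
    · obtain ⟨k1, k2⟩ := lam_de h (f := f) hS c hp h1
      rw [hcp] at k1 k2
      have k3 := hc p hpS h1
      rw [hcp] at k3
      have k4 : ∑ v ∈ S, (c v - i) * ((f v : ZMod 3) * lam p v) = 0 := by
        rw [← k3]
        refine Finset.sum_congr rfl fun v hv => ?_
        rw [hfe v hv]
      rw [k4] at k2
      have := (h.cube p _ hp h1 k1).1 k2
      push_cast at this
      exact this
    · exact cube_of hp h1 _
  have hC := hn (de f S c) ((prod_de c).trans hprod) hA hB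
  obtain ⟨i, hi⟩ := hC
  have hall : ∀ p ∈ S, c p = i := by
    intro p hp
    by_contra hne
    have h1 := hi (c p) hne
    have h2 : p ∣ de f S c (c p) := by
      unfold de
      have h3 : p ∣ p ^ f p := by
        refine dvd_pow_self p ?_
        have h4 : p ∈ D.primeFactors := by rw [← hSd]; exact hp
        rw [← Nat.support_factorization, Finsupp.mem_support_iff] at h4
        exact h4
      exact h3.trans (Finset.dvd_prod_of_mem (fun q => q ^ f q) (Finset.mem_filter.2 ⟨hp, rfl⟩))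
    rw [h1] at h2
    exact (hS p hp).one_lt.ne' (Nat.dvd_one.1 h2)
  intro p hp q hq
  rw [hall p hp, hall q hq]

theorem nosplit_of_gd (h : LamP) {D : ℕ} (hD : CF D) (hne : D.primeFactors.Nonempty)
    (hg : GdE (ev D) (cs3 D)) : NoSplit D := by
  intro d hd hcop hcube
  rw [cs3_cf hD] at hg
  set f : ℕ → ℕ := fun p => D.factorization p with hf
  have hS : ∀ q ∈ D.primeFactors, q.Prime := fun q hq => Nat.prime_of_mem_primeFactors hq
  have h0 : D ≠ 0 := hD.1
  have hdD : ∀ i, d i ∣ D := fun i => by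
    rw [← hd]
    exact Finset.dvd_prod_of_mem _ (Finset.mem_univ i)
  have hd0 : ∀ i, d i ≠ 0 := fun i h1 => h0 (Nat.eq_zero_of_zero_dvd (h1 ▸ hdD i))
  -- the labels
  have hex : ∀ p ∈ D.primeFactors, ∃ i : ZMod 3, p ∣ d i := by
    intro p hp
    have h1 : p ∣ ∏ i, d i := by
      rw [hd]
      exact Nat.dvd_of_mem_primeFactors hp
    obtain ⟨i, -, hi⟩ := ((hS p hp).prime.dvd_finsetProd_iff _).1 h1
    exact ⟨i, hi⟩
  have huniq : ∀ p : ℕ, p.Prime → ∀ i j : ZMod 3, p ∣ d i → p ∣ d j → i = j := by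
    intro p hp i j h1 h2
    by_contra hne
    have h3 : p ∣ Nat.gcd (d i) (d j) := Nat.dvd_gcd h1 h2
    rw [Nat.Coprime.gcd_eq_one (hcop i j hne)] at h3
    exact hp.one_lt.ne' (Nat.dvd_one.1 h3)
  obtain ⟨c, hc⟩ : ∃ c : ℕ → ZMod 3, ∀ p ∈ D.primeFactors, p ∣ d (c p) := by
    refine ⟨fun p => if hp : ∃ i : ZMod 3, p ∣ d i then hp.choose else 0, fun p hp => ?_⟩
    have := hex p hp
    simp only [this, dif_pos]
    exact this.choose_spec
  have hfac : ∀ (i : ZMod 3) (p : ℕ), p.Prime → p ∣ d i → (d i).factorization p = f p := by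
    intro i p hp hpd
    have h1 : f p = ∑ j, (d j).factorization p := by
      rw [hf]
      simp only
      rw [← hd, Nat.factorization_prod fun j _ => hd0 j, Finsupp.finsetSum_apply]
    rw [h1, Finset.sum_eq_single i]
    · intro j _ hji
      rw [Nat.factorization_eq_zero_of_not_dvd]
      intro h2
      exact hji (huniq p hp _ _ h2 hpd)
    · intro h2
      exact absurd (Finset.mem_univ i) h2
  have hdd : ∀ i, de f D.primeFactors c i = d i := by
    intro i
    unfold de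
    have h1 := Nat.factorization_prod_pow_eq_self (hd0 i)
    conv_rhs => rw [← h1]
    show _ = ∏ p ∈ (d i).factorization.support, p ^ (d i).factorization p
    rw [Nat.support_factorization]
    refine Finset.prod_congr ?_ fun p hp => ?_
    · ext p
      unfold part
      rw [Finset.mem_filter, Nat.mem_primeFactors, Nat.mem_primeFactors]
      constructor
      · rintro ⟨⟨hp, hpD, -⟩, rfl⟩
        exact ⟨hp, hc p (Nat.mem_primeFactors.2 ⟨hp, hpD, h0⟩), hd0 _⟩
      · rintro ⟨hp, hpd, -⟩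
        have hpm : p ∈ D.primeFactors := Nat.mem_primeFactors.2 ⟨hp, hpd.trans (hdD i), h0⟩
        exact ⟨⟨hp, hpd.trans (hdD i), h0⟩, huniq p hp _ _ (hc p hpm) hpd⟩
    · rw [hfac i p (Nat.prime_of_mem_primeFactors hp) (Nat.dvd_of_mem_primeFactors hp)]
  have hsol : Sys (ev D) D.primeFactors c := by
    intro p hp hp1
    obtain ⟨k1, k2⟩ := lam_de h (f := f) hS c (hS p hp) hp1
    have k3 : ∑ v ∈ D.primeFactors, (c v - c p) * (ev D v * lam p v) =
        ∑ q ∈ D.primeFactors, (c q - c p) * ((f q : ZMod 3) * lam p q) := by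
      refine Finset.sum_congr rfl fun v hv => ?_
      rw [ev_cf hD hv]
    rw [k3, ← k2, h.cube p _ (hS p hp) hp1 k1, hdd, hdd]
    have := hcube (c p) p (hS p hp) (hc p hp)
    push_cast
    exact this
  have hconst := hg c hsol
  obtain ⟨q, hqm⟩ := hne
  refine ⟨c q, fun j hj => ?_⟩
  by_contra hne
  obtain ⟨p, hp, hpd⟩ := Nat.exists_prime_and_dvd hne
  have hpm : p ∈ D.primeFactors := Nat.mem_primeFactors.2 ⟨hp, hpd.trans (hdD j), h0⟩
  have h1 := huniq p hp _ _ (hc p hpm) hpd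
  rw [hconst p hpm q hqm] at h1
  exact hj h1.symm

/-- **the splitting condition and the linear system** -/
theorem iff (h : LamP) {D : ℕ} (hD : CF D) (hne : D.primeFactors.Nonempty) :
    NoSplit D ↔ GdE (ev D) (cs3 D) :=
  ⟨gd_of_nosplit h hD, nosplit_of_gd h hD hne⟩

/-! ### cubes and multiples -/

theorem fact_cube {D t : ℕ} (hD : D ≠ 0) (ht : t ≠ 0) (p : ℕ) :
    (D * t ^ 3).factorization p = D.factorization p + 3 * t.factorization p := by
  rw [Nat.factorization_mul hD (pow_ne_zero 3 ht), Nat.factorization_pow, Finsupp.add_apply,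
    Finsupp.smul_apply, smul_eq_mul]

theorem cs3_cube {D t : ℕ} (hD : D ≠ 0) (ht : t ≠ 0) : cs3 (D * t ^ 3) = cs3 D := by
  ext p
  rw [mem_cs3, mem_cs3, fact_cube hD ht]
  omega

theorem ev_cube {D t : ℕ} (hD : D ≠ 0) (ht : t ≠ 0) : ev (D * t ^ 3) = ev D := by
  funext p
  unfold ev
  rw [cs3_cube hD ht, fact_cube hD ht]
  have h3 : (3 : ZMod 3) = 0 := by decide
  push_cast
  rw [h3, zero_mul, add_zero]

/-- the cube-free part -/
theorem exists_cf {D : ℕ} (hD : D ≠ 0) : ∃ E t : ℕ, CF E ∧ t ≠ 0 ∧ D = E * t ^ 3 := by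
  induction D using Nat.strong_induction_on with
  | _ D ih =>
    by_cases h : ∃ p : ℕ, p.Prime ∧ p ^ 3 ∣ D
    · obtain ⟨p, hp, c, hc⟩ := h
      have hc0 : c ≠ 0 := by
        rintro rfl
        rw [mul_zero] at hc
        exact hD hc
      have hlt : c < D := by
        rw [hc]
        have h2 : 2 ^ 3 ≤ p ^ 3 := Nat.pow_le_pow_left hp.two_le 3
        have h3 := Nat.pos_of_ne_zero hc0
        nlinarith
      obtain ⟨E, t, h1, h2, h3⟩ := ih c hlt hc0
      refine ⟨E, p * t, h1, mul_ne_zero hp.ne_zero h2, ?_⟩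
      rw [hc, h3]
      ring
    · push Not at h
      exact ⟨D, 1, ⟨hD, h⟩, one_ne_zero, by ring⟩

end Run7.h238.C.NSE
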