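import Pool.Agent.Run7.h238.C.EPairs
import Pool.Agent.Run7.h238.C.NSE
import Pool.Agent.Run7.h238.C.L3

/-!
# The limit over the coprime pairs
-/

set_option autoImplicit false

open scoped Classical

namespace Run7.h238.C.EL

open Finset
open Filter
open Pool.Agent.Y703.CX (lam)
open Run7.h238.C.EP Run7.h238.C.NSE
open Run7.h238.WFew (wt)

/-! ### the set of primes of `q k ∏ S` -/

section sets

variable {q k : ℕ} {S : Finset ℕ}

theorem q_notMem_pf (hq1 : q % 3 ≠ 1) (hk : Pw k) : q ∉ k.primeFactors := fun h => hq1 (hk.1 q h)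

theorem fact_q {D : ℕ} (hq : q.Prime) (hD : D ≠ 0) (p : ℕ) :
    (q * D).factorization p = D.factorization p + if p = q then 1 else 0 := by
  rw [Nat.factorization_mul hq.ne_zero hD, Finsupp.add_apply, hq.factorization,
    Finsupp.single_apply, add_comm]
  congr 1
  by_cases h : q = p
  · rw [if_pos h, if_pos h.symm]
  · rw [if_neg h, if_neg fun h' => h h'.symm]

theorem fact_zero (hd : Disjoint S k.primeFactors) {p : ℕ} (hp : p ∈ S) : k.factorization p = 0 := by
  rw [disjoint_left] at hd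
  have h2 := hd hp
  rw [← Nat.support_factorization, Finsupp.mem_support_iff, not_not] at h2
  exact h2

theorem fact_full (hq : q.Prime) (hk0 : k ≠ 0) (hS : ∀ p ∈ S, p.Prime) (p : ℕ) :
    (q * (k * ∏ l ∈ S, l)).factorization p =
      (q * k).factorization p + if p ∈ S then 1 else 0 := by
  rw [fact_q hq (mul_ne_zero hk0 (Run7.h238.Pairs.prod_ne hS)), fact_mul hk0 hS, fact_q hq hk0]
  ring

theorem cs3_full (hq : q.Prime) (hk0 : k ≠ 0) (hS : ∀ p ∈ S, p.Prime)
    (hd : Disjoint S k.primeFactors) (hqS : q ∉ S) :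
    cs3 (q * (k * ∏ l ∈ S, l)) = cs3 (q * k) ∪ S := by
  ext p
  rw [mem_union, mem_cs3, mem_cs3, fact_full hq hk0 hS]
  by_cases hp : p ∈ S
  · have h1 : (q * k).factorization p = 0 := by
      rw [fact_q hq hk0, fact_zero hd hp, if_neg (show ¬ p = q from fun h => hqS (h ▸ hp))]
    rw [if_pos hp, h1]
    exact iff_of_true (by norm_num) (Or.inr hp)
  · rw [if_neg hp, add_zero]
    simp [hp]

theorem ev_full (hq : q.Prime) (hk0 : k ≠ 0) (hS : ∀ p ∈ S, p.Prime)
    (hd : Disjoint S k.primeFactors) (hqS : q ∉ S) :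
    ev (q * (k * ∏ l ∈ S, l)) = ev (q * k) := by
  funext p
  unfold ev
  rw [cs3_full hq hk0 hS hd hqS, fact_full hq hk0 hS]
  by_cases hp : p ∈ S
  · have h1 : (q * k).factorization p = 0 := by
      rw [fact_q hq hk0, fact_zero hd hp, if_neg (show ¬ p = q from fun h => hqS (h ▸ hp))]
    have h2 : p ∉ cs3 (q * k) := by
      rw [mem_cs3, h1]
      simp
    rw [if_pos (mem_union_right _ hp), if_neg h2, if_pos hp, h1]
    norm_num
  · rw [if_neg hp, add_zero]
    by_cases h : p ∈ cs3 (q * k)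
    · rw [if_pos h, if_pos (mem_union_left _ h)]
    · rw [if_neg h, if_neg]
      rw [mem_union]
      tauto

theorem cs3_prime {D p : ℕ} (h : p ∈ cs3 D) : p.Prime :=
  Nat.prime_of_mem_primeFactors (mem_filter.1 h).1

theorem mem_cs3_q (hq : q.Prime) (hq1 : q % 3 ≠ 1) (hk0 : k ≠ 0) (hk : Pw k) : q ∈ cs3 (q * k) := by
  have h1 := q_notMem_pf hq1 hk
  rw [← Nat.support_factorization, Finsupp.mem_support_iff, not_not] at h1
  rw [mem_cs3, fact_q hq hk0, if_pos rfl, h1]
  norm_num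

theorem cs3_sub (hq : q.Prime) (hk0 : k ≠ 0) {p : ℕ} (hp : p ∈ cs3 (q * k)) (hpq : p ≠ q) :
    p ∈ k.primeFactors := by
  rw [mem_cs3, fact_q hq hk0, if_neg hpq, add_zero] at hp
  rw [← Nat.support_factorization, Finsupp.mem_support_iff]
  intro h0
  rw [h0] at hp
  exact hp (dvd_zero 3)

theorem card_one (hq : q.Prime) (hq1 : q % 3 ≠ 1) (hk0 : k ≠ 0) (hk : Pw k) :
    ((cs3 (q * k)).filter fun p => ¬ p % 3 = 1).card = 1 := by
  rw [card_eq_one]
  refine ⟨q, ?_⟩
  ext p
  rw [mem_filter, mem_singleton]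
  constructor
  · rintro ⟨h1, h2⟩
    by_contra hne
    exact h2 (hk.1 p (cs3_sub hq hk0 h1 hne))
  · rintro rfl
    exact ⟨mem_cs3_q hq hq1 hk0 hk, hq1⟩

theorem ev_ne {D p : ℕ} (h : p ∈ cs3 D) : ev D p ≠ 0 := by
  unfold ev
  rw [if_pos h]
  rw [mem_cs3] at h
  intro h0
  exact h ((ZMod.natCast_eq_zero_iff _ _).1 h0)

theorem ev_one {D p : ℕ} (h : p ∉ cs3 D) : ev D p = 1 := by
  unfold ev
  rw [if_neg h]

end sets

/-! ### the class modulo nine -/

/-- the class condition -/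
def HC (q n : ℕ) : Prop := q = 3 ∨ ((q * n) % 9 ≠ 1 ∧ (q * n) % 9 ≠ 8)

/-- the weight -/
noncomputable def hc (q k n : ℕ) : ℝ := if HC q (k * n) then 1 else 0

theorem HC_mod (q k n : ℕ) : HC q (k * n) ↔ HC q (k * (n % 9)) := by
  unfold HC
  have e : (q * (k * n)) % 9 = (q * (k * (n % 9))) % 9 := by
    rw [Nat.mul_mod, Nat.mul_mod k n, Nat.mul_mod q (k * (n % 9)), Nat.mul_mod k (n % 9), Nat.mod_mod]
  rw [e]

theorem hc_mod (q k n : ℕ) : hc q k (n % 9) = hc q k n := by
  unfold hc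
  exact if_congr (HC_mod q k n).symm rfl rfl

/-- the term of a norm -/
noncomputable def FF (q n : ℕ) : ℝ := (if HC q n then 1 else 0) * dvE (ev (q * n)) (cs3 (q * n))

theorem FF_eq {q k : ℕ} {S : Finset ℕ} (hq : q.Prime) (hq1 : q % 3 ≠ 1) (hk0 : k ≠ 0)
    {Y : ℕ} (hS : S ∈ SD k Y) :
    FF q (k * ∏ p ∈ S, p) = hc q k ((∏ p ∈ S, p) % 9) * dvE (ev (q * k)) (cs3 (q * k) ∪ S) := by
  unfold SD at hS
  rw [mem_filter, mem_SP] at hS
  have hS' : ∀ p ∈ S, p.Prime := fun p hp => (hS.1.1 p hp).1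
  have hqS : q ∉ S := fun h => hq1 (hS.1.1 q h).2
  unfold FF
  rw [cs3_full hq hk0 hS' hS.2 hqS, ev_full hq hk0 hS' hS.2 hqS, hc_mod]
  rfl

theorem SD_eq {q k : ℕ} (hq : q.Prime) (hq1 : q % 3 ≠ 1) (hk0 : k ≠ 0) (Y : ℕ) :
    SD k Y = (SP Y).filter fun S => Disjoint S (cs3 (q * k)) ∧ Disjoint S k.primeFactors := by
  unfold SD
  refine filter_congr fun S hS => ⟨fun h => ⟨?_, h⟩, fun h => h.2⟩
  rw [mem_SP] at hS
  rw [disjoint_left] at h ⊢
  intro p hp hp'
  by_cases hpq : p = q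
  · subst hpq
    exact hq1 (hS.1 p hp).2
  · exact h hp (cs3_sub hq hk0 hp' hpq)

/-- the inner sum -/
noncomputable def Xi (q k Y : ℕ) : ℝ := ∑ S ∈ SD k Y, 2 ^ S.card * FF q (k * ∏ p ∈ S, p)

theorem Xi_small {q k : ℕ} (hq : q.Prime) (hq1 : q % 3 ≠ 1) (hk0 : k ≠ 0) (hk : Pw k)
    (hcard : ∃ CT : ℝ, 0 < CT ∧ ∀ X : ℕ, wt (SP X) ≤ CT * X) (ε : ℝ) (hε : 0 < ε) :
    ∀ᶠ Y : ℕ in atTop, |Xi q k Y| ≤ ε * Y := by
  have h := law t_L3 (cs3 (q * k)) k.primeFactors (fun t ht => cs3_prime ht)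
    (card_one hq hq1 hk0 hk) (ev (q * k)) (fun u hu => ev_ne hu) (fun u hu => ev_one hu)
    (fun n => hc q k n) 1 (fun n => by
      unfold hc
      split_ifs
      · exact zero_le_one
      · exact le_rfl)
    (fun n => by
      unfold hc
      split_ifs
      · exact le_rfl
      · exact zero_le_one) hcard ε hε
  filter_upwards [h] with Y hY
  refine le_trans (le_of_eq ?_) hY
  unfold Xi
  congr 1
  rw [← SD_eq hq hq1 hk0 Y]
  refine sum_congr rfl fun S hS => ?_
  rw [FF_eq hq hq1 hk0 hS]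
  ring

theorem FF_le (q n : ℕ) : |FF q n| ≤ 1 := by
  unfold FF
  rw [abs_mul]
  split_ifs
  · rw [abs_one, one_mul]
    exact dvE_le _ _
  · rw [abs_zero, zero_mul]
    exact zero_le_one

theorem Xi_le {q k : ℕ} {CT : ℝ} (h : ∀ X : ℕ, wt (SP X) ≤ CT * X) (Y : ℕ) :
    |Xi q k Y| ≤ CT * Y := by
  unfold Xi
  refine (abs_sum_le_sum_abs _ _).trans ?_
  refine le_trans ?_ (h Y)
  unfold wt
  refine le_trans (sum_le_sum fun S _ => ?_) (sum_le_sum_of_subset_of_nonneg
    (show SD k Y ⊆ SP Y from filter_subset _ _) fun _ _ _ => by positivity)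
  rw [abs_mul, abs_of_nonneg (by positivity : (0 : ℝ) ≤ 2 ^ S.card)]
  calc 2 ^ S.card * |FF q (k * ∏ p ∈ S, p)| ≤ 2 ^ S.card * 1 :=
        mul_le_mul_of_nonneg_left (FF_le _ _) (by positivity)
    _ = _ := mul_one _

theorem Xi_zero (q k : ℕ) : Xi q k 0 = 0 := by
  unfold Xi
  have : SD k 0 = ∅ := by
    rw [eq_empty_iff_forall_notMem]
    intro S hS
    unfold SD at hS
    rw [mem_filter, mem_SP] at hS
    have := prod_pos fun p hp => (hS.1.1 p hp).1.pos
    omega
  rw [this, sum_empty]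

/-! ### powerful numbers -/

theorem exists_ab {k : ℕ} (hk0 : k ≠ 0) (hk : Pw k) : ∃ a b : ℕ, k = a ^ 2 * b ^ 3 := by
  obtain ⟨h1, h2⟩ := Run7.h238.Pairs.decomp hk0
  set g := Run7.h238.Pairs.gg k
  set S := Run7.h238.Pairs.oddP k with hS
  have hSp : ∀ p ∈ S, p.Prime := fun p hp => Run7.h238.Pairs.prime_oddP hp
  have h3 : ∏ p ∈ S, p ∣ g := by
    refine Finset.prod_primes_dvd g (fun p hp => (hSp p hp).prime) ?_
    · intro p hp
      have h4 : k.factorization p = 2 * g.factorization p + 1 := by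
        conv_lhs => rw [h2]
        rw [Nat.factorization_mul (pow_ne_zero 2 h1) (Run7.h238.Pairs.prod_ne hSp),
          Nat.factorization_pow, Finsupp.add_apply, Finsupp.smul_apply,
          Run7.h238.Pairs.fact_prod hSp, if_pos hp, smul_eq_mul]
      have h5 := hk.2 p
      exact ((hSp p hp).dvd_iff_one_le_factorization h1).2 (by omega)
  obtain ⟨a, ha⟩ := h3
  refine ⟨a, ∏ p ∈ S, p, ?_⟩
  conv_lhs => rw [h2]
  rw [ha]
  ring

theorem two_pow_le {k : ℕ} (hk0 : k ≠ 0) (hk : Pw k) :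
    (2 : ℝ) ^ k.primeFactors.card / k ≤ (k : ℝ) ^ (-(3 / 4) : ℝ) := by
  have h1 : 16 ^ k.primeFactors.card ≤ k := by
    have h2 : 16 ^ k.primeFactors.card ≤ ∏ p ∈ k.primeFactors, p ^ k.factorization p := by
      rw [← prod_const]
      refine prod_le_prod' fun p hp => ?_
      have h3 := hk.1 p hp
      have h4 := (Nat.prime_of_mem_primeFactors hp).two_le
      have h5 : 4 ≤ p := by omega
      have h6 : 2 ≤ k.factorization p := by
        have h7 := hk.2 p
        have h8 : k.factorization p ≠ 0 := by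
          rw [← Nat.support_factorization, Finsupp.mem_support_iff] at hp
          exact hp
        omega
      calc 16 = 4 ^ 2 := by norm_num
        _ ≤ p ^ 2 := Nat.pow_le_pow_left h5 2
        _ ≤ _ := Nat.pow_le_pow_right (by omega) h6
    refine h2.trans (le_of_eq ?_)
    have := Nat.prod_factorization_pow_eq_self hk0
    conv_rhs => rw [← this]
    rfl
  have hg0 : (0 : ℝ) < k := by exact_mod_cast Nat.pos_of_ne_zero hk0
  have h2 : (2 : ℝ) ^ k.primeFactors.card ≤ (k : ℝ) ^ (1 / 4 : ℝ) := by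
    have h3 : (((2 : ℝ) ^ k.primeFactors.card) ^ (4 : ℕ)) ≤ k := by
      rw [← pow_mul, mul_comm, pow_mul]
      norm_num
      exact_mod_cast h1
    have h4 : (2 : ℝ) ^ k.primeFactors.card =
        (((2 : ℝ) ^ k.primeFactors.card) ^ (4 : ℕ)) ^ (1 / 4 : ℝ) := by
      rw [← Real.rpow_natCast ((2 : ℝ) ^ k.primeFactors.card) 4, ← Real.rpow_mul (by positivity)]
      norm_num
    rw [h4]
    exact Real.rpow_le_rpow (by positivity) h3 (by norm_num)
  rw [div_le_iff₀ (by positivity)]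
  refine h2.trans (le_of_eq ?_)
  nth_rewrite 3 [← Real.rpow_one (k : ℝ)]
  rw [← Real.rpow_add hg0]
  norm_num

/-- the bound -/
noncomputable def bd (k : ℕ) : ℝ := if k ≠ 0 ∧ Pw k then (k : ℝ) ^ (-(3 / 4) : ℝ) else 0

theorem bd_summable : Summable bd := by
  set P : Set ℕ := {k | k ≠ 0 ∧ Pw k} with hP
  have hsp : ∀ k : P, ∃ x : ℕ × ℕ, (k : ℕ) = x.1 ^ 2 * x.2 ^ 3 := by
    rintro ⟨k, hk⟩
    obtain ⟨a, b, h⟩ := exists_ab hk.1 hk.2
    exact ⟨(a, b), h⟩
  choose ι hι using hsp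
  have hinj : Function.Injective ι := by
    intro x y h
    apply Subtype.ext
    rw [hι x, hι y, h]
  have hs1 : Summable fun a : ℕ => (a : ℝ) ^ (-(3 / 2) : ℝ) := Real.summable_nat_rpow.2 (by norm_num)
  have hs2 : Summable fun a : ℕ => (a : ℝ) ^ (-(9 / 4) : ℝ) := Real.summable_nat_rpow.2 (by norm_num)
  have hs := hs1.mul_of_nonneg hs2 (fun a => Real.rpow_nonneg (Nat.cast_nonneg a) _)
    (fun a => Real.rpow_nonneg (Nat.cast_nonneg a) _)
  have hs3 := hs.comp_injective hinj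
  have hs4 : Summable fun k : P => ((k : ℕ) : ℝ) ^ (-(3 / 4) : ℝ) := by
    refine hs3.congr fun k => ?_
    simp only [Function.comp]
    rw [hι k]
    push_cast
    rw [Real.mul_rpow (by positivity) (by positivity), ← Real.rpow_natCast, ← Real.rpow_natCast,
      ← Real.rpow_mul (Nat.cast_nonneg _), ← Real.rpow_mul (Nat.cast_nonneg _)]
    norm_num
  have e : bd = P.indicator fun k : ℕ => (k : ℝ) ^ (-(3 / 4) : ℝ) := by
    funext k
    unfold bd
    rw [Set.indicator_apply]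
    rfl
  rw [e]
  exact summable_subtype_iff_indicator.1 hs4

/-! ### the limit -/

/-- the terms -/
noncomputable def tm (q X k : ℕ) : ℝ :=
  if k ≠ 0 ∧ Pw k then 6 * 2 ^ k.primeFactors.card * Xi q k (X / k) / X else 0

theorem sum_eq (q X : ℕ) : (∑ v ∈ PX X, FF q (en v)) / X = ∑' k : ℕ, tm q X k := by
  rw [sum_pairs, sum_div, tsum_eq_sum (s := (Icc 1 X).filter Pw)]
  · refine sum_congr rfl fun k hk => ?_
    rw [mem_filter, mem_Icc] at hk
    unfold tm
    rw [if_pos ⟨by omega, hk.2⟩]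
    rfl
  · intro k hk
    unfold tm
    split_ifs with h
    · obtain ⟨h1, h2⟩ := h
      have h4 : X / k = 0 := by
        rw [Nat.div_eq_zero_iff]
        right
        by_contra hc
        push Not at hc
        apply hk
        rw [mem_filter, mem_Icc]
        exact ⟨⟨Nat.pos_of_ne_zero h1, hc⟩, h2⟩
      rw [h4, Xi_zero, mul_zero, zero_div]
    · rfl

/-- **the sum over the pairs is small** -/
theorem tendsto_zero {q : ℕ} (hq : q.Prime) (hq1 : q % 3 ≠ 1)
    (hcard : ∃ CT : ℝ, 0 < CT ∧ ∀ X : ℕ, wt (SP X) ≤ CT * X) :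
    Tendsto (fun X : ℕ => (∑ v ∈ PX X, FF q (en v)) / X) atTop (nhds 0) := by
  obtain ⟨CT, hCT, htot⟩ := id hcard
  simp_rw [sum_eq]
  have h0 : ∑' _ : ℕ, (0 : ℝ) = 0 := tsum_zero
  rw [← h0]
  refine tendsto_tsum_of_dominated_convergence (bd_summable.mul_left (6 * CT)) ?_ ?_
  · intro k
    unfold tm
    by_cases h : k ≠ 0 ∧ Pw k
    · simp only [if_pos h]
      obtain ⟨hk, hP⟩ := h
      rw [Metric.tendsto_nhds]
      intro ε hε
      set A : ℝ := 6 * 2 ^ k.primeFactors.card with hA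
      have hA0 : 0 < A := by positivity
      have h1 := Xi_small hq hq1 hk hP hcard (ε / (2 * A)) (by positivity)
      have h2 : Tendsto (fun X : ℕ => X / k) atTop atTop := Nat.tendsto_div_const_atTop hk
      filter_upwards [h2.eventually h1, eventually_ge_atTop 1] with X h3 h4
      have hX : (0 : ℝ) < X := by exact_mod_cast h4
      rw [Real.dist_eq, sub_zero, abs_div, abs_mul, abs_of_pos hX, div_lt_iff₀ hX,
        abs_of_pos hA0]
      have h6 : ((X / k : ℕ) : ℝ) ≤ X := by exact_mod_cast Nat.div_le_self _ _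
      have h7 : A * |Xi q k (X / k)| ≤ A * (ε / (2 * A) * X) := by
        refine mul_le_mul_of_nonneg_left (h3.trans ?_) hA0.le
        exact mul_le_mul_of_nonneg_left h6 (by positivity)
      have h8 : A * (ε / (2 * A) * X) = ε / 2 * X := by
        field_simp
      have h9 : 0 < ε * X := by positivity
      linarith
    · simp only [if_neg h]
      exact tendsto_const_nhds
  · refine Eventually.of_forall fun X => ?_
    intro k
    unfold tm bd
    split_ifs with h
    · obtain ⟨hk, hP⟩ := h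
      have hk0 : (0 : ℝ) < k := by exact_mod_cast Nat.pos_of_ne_zero hk
      rcases Nat.eq_zero_or_pos X with hX | hX
      · rw [hX, Nat.zero_div, Xi_zero, mul_zero, zero_div, norm_zero]
        have := Real.rpow_nonneg hk0.le (-(3 / 4) : ℝ)
        positivity
      · have hX0 : (0 : ℝ) < X := by exact_mod_cast hX
        rw [Real.norm_eq_abs, abs_div, abs_mul, abs_of_pos hX0,
          abs_of_pos (by positivity : (0 : ℝ) < 6 * 2 ^ k.primeFactors.card), div_le_iff₀ hX0]
        have h1 := Xi_le (q := q) (k := k) htot (X / k)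
        have h2 : ((X / k : ℕ) : ℝ) ≤ X / (k : ℝ) := Nat.cast_div_le
        have h3 := two_pow_le hk hP
        calc 6 * 2 ^ k.primeFactors.card * |Xi q k (X / k)| ≤
              6 * 2 ^ k.primeFactors.card * (CT * (X / (k : ℝ))) := by
              refine mul_le_mul_of_nonneg_left (h1.trans ?_) (by positivity)
              exact mul_le_mul_of_nonneg_left h2 hCT.le
          _ = 6 * CT * (2 ^ k.primeFactors.card / (k : ℝ)) * X := by
              field_simp
          _ ≤ 6 * CT * (k : ℝ) ^ (-(3 / 4) : ℝ) * X := by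
              gcongr
    · rw [norm_zero, mul_zero]

end Run7.h238.C.EL
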