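import Pool.Agent.Run7.h238.C.EDisc
import Pool.Agent.Run7.h238.C.ELim

/-!
# The number of the coprime pairs in the classes
-/

set_option autoImplicit false

open scoped Classical

namespace Run7.h238.C.EM

open Finset Filter
open Run7.h238.C.EP Run7.h238.C.ED
open Run7.h238.Pairs (gc mu gc_mu mu_inj exists_mu)

/-- the norm modulo nine -/
def nz (r : ZMod 9 × ZMod 9) : ZMod 9 := r.1 ^ 2 + r.1 * r.2 + r.2 ^ 2

theorem en_cast (v : ℤ × ℤ) : ((en v : ℕ) : ZMod 9) = nz (cl v) := by
  have h := congrArg (fun z : ℤ => (z : ZMod 9)) (en_int v)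
  push_cast at h
  rw [h]
  rfl

/-- the sum over all pairs -/
noncomputable def Ag (g : ZMod 9 → ℝ) (X : ℕ) : ℝ := ∑ v ∈ Be X, g (en v)

theorem Ag_eq (g : ZMod 9 → ℝ) (X : ℕ) : Ag g X = ∑ r, (Nr r X : ℝ) * g (nz r) := by
  unfold Ag Nr
  rw [← sum_fiberwise_of_maps_to (g := cl) (t := univ) (fun _ _ => mem_univ _)]
  refine sum_congr rfl fun r _ => ?_
  rw [← nsmul_eq_mul, ← sum_const]
  refine sum_congr rfl fun v hv => ?_
  rw [en_cast, (mem_filter.1 hv).2]

/-- the mean value -/
noncomputable def mean (g : ZMod 9 → ℝ) : ℝ := (∑ r : ZMod 9 × ZMod 9, g (nz r)) / 81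

theorem Ag_tendsto (g : ZMod 9 → ℝ) :
    Tendsto (fun X : ℕ => Ag g X / X) atTop (nhds (ar * mean g)) := by
  have h1 : Tendsto (fun X : ℕ => ∑ r : ZMod 9 × ZMod 9, (Nr r X : ℝ) / X * g (nz r)) atTop
      (nhds (∑ r : ZMod 9 × ZMod 9, ar / 81 * g (nz r))) :=
    tendsto_finsetSum _ fun r _ => (Nr_tendsto r).mul_const _
  have e1 : ∑ r : ZMod 9 × ZMod 9, ar / 81 * g (nz r) = ar * mean g := by
    unfold mean
    rw [← mul_sum]
    ring
  rw [e1] at h1
  refine h1.congr fun X => ?_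
  rw [Ag_eq, sum_div]
  refine sum_congr rfl fun r _ => ?_
  ring

/-- the function on the multiples -/
def gd (g : ZMod 9 → ℝ) (d : ℕ) (x : ZMod 9) : ℝ := g ((d : ZMod 9) ^ 2 * x)

theorem mean_gd {g : ZMod 9 → ℝ} {d : ℕ} (hd : ¬ 3 ∣ d) : mean (gd g d) = mean g := by
  unfold mean
  congr 1
  have hc : Nat.Coprime d 9 := by
    have h1 : Nat.Coprime d 3 := ((Nat.Prime.coprime_iff_not_dvd Nat.prime_three).2 hd).symm
    have : Nat.Coprime d (3 ^ 2) := h1.pow_right 2
    exact this
  have hu : IsUnit (d : ZMod 9) := (ZMod.isUnit_iff_coprime d 9).2 hc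
  obtain ⟨u, hu'⟩ := hu
  refine Fintype.sum_equiv ((Units.mulLeft u).prodCongr (Units.mulLeft u)) _ _ fun r => ?_
  unfold gd nz
  congr 1
  simp only [Equiv.prodCongr_apply, Prod.map, Units.mulLeft_apply]
  rw [← hu']
  ring

theorem gd_zero {g : ZMod 9 → ℝ} (h0 : g 0 = 0) {d : ℕ} (hd : 3 ∣ d) (x : ZMod 9) : gd g d x = 0 := by
  unfold gd
  obtain ⟨c, rfl⟩ := hd
  have h9 : ((3 : ZMod 9)) ^ 2 = 0 := by decide
  have : (((3 * c : ℕ) : ZMod 9)) ^ 2 * x = 0 := by
    push_cast
    rw [mul_pow, h9, zero_mul, zero_mul]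
  rw [this, h0]

/-- the sum over the coprime pairs -/
noncomputable def Ap (g : ZMod 9 → ℝ) (X : ℕ) : ℝ := ∑ v ∈ (Be X).filter (fun v => gc v = 1), g (en v)

theorem en_mu (d : ℕ) (w : ℤ × ℤ) : en (mu d w) = d ^ 2 * en w := by
  have h1 : ((en (mu d w) : ℕ) : ℤ) = ((d ^ 2 * en w : ℕ) : ℤ) := by
    push_cast
    rw [en_int, en_int]
    unfold mu
    ring
  exact_mod_cast h1

theorem gc_zero {v : ℤ × ℤ} (h : gc v = 0) : en v = 0 := by
  unfold gc at h
  rw [Int.gcd_eq_zero_iff] at h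
  unfold en
  rw [h.1, h.2]
  rfl

theorem sum_moebius (n : ℕ) :
    ∑ d ∈ n.divisors, ArithmeticFunction.moebius d = if n = 1 then 1 else 0 := by
  have h := congrArg (fun f : ArithmeticFunction ℤ => f n) ArithmeticFunction.moebius_mul_coe_zeta
  rw [ArithmeticFunction.coe_mul_zeta_apply, ArithmeticFunction.one_apply] at h
  exact h

theorem Ap_eq {g : ZMod 9 → ℝ} (h0 : g 0 = 0) (X : ℕ) :
    Ap g X = ∑ d ∈ Icc 1 X, (ArithmeticFunction.moebius d : ℝ) * Ag (gd g d) (X / d ^ 2) := by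
  unfold Ap
  rw [sum_filter]
  have e1 : ∀ v ∈ Be X, (if gc v = 1 then g (en v) else 0) =
      ∑ d ∈ Icc 1 X, if d ∣ gc v then (ArithmeticFunction.moebius d : ℝ) * g (en v) else 0 := by
    intro v hv
    rw [mem_Be] at hv
    by_cases hg : gc v = 0
    · rw [gc_zero hg, Nat.cast_zero, h0]
      simp
    · rw [← sum_filter]
      have e2 : (Icc 1 X).filter (fun d => d ∣ gc v) = (gc v).divisors := by
        ext d
        rw [mem_filter, mem_Icc, Nat.mem_divisors]
        constructor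
        · rintro ⟨-, h⟩
          exact ⟨h, hg⟩
        · rintro ⟨h, -⟩
          have hd0 : 0 < d := Nat.pos_of_dvd_of_pos h (Nat.pos_of_ne_zero hg)
          refine ⟨⟨hd0, ?_⟩, h⟩
          obtain ⟨w, hw1, hw2⟩ := exists_mu hg
          have h1 : en v = gc v ^ 2 * en w := by rw [← en_mu, hw2]
          have h2 : en w ≠ 0 := by
            intro h2
            have h3 := en_int w
            rw [h2] at h3
            have h4 : w.1 = 0 := by
              push_cast at h3
              nlinarith [sq_nonneg (2 * w.2 + w.1)]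
            have h5 : w.2 = 0 := by
              push_cast at h3
              nlinarith [sq_nonneg (2 * w.1 + w.2)]
            unfold gc at hw1
            rw [h4, h5] at hw1
            simp at hw1
          have h3 : d ≤ gc v := Nat.le_of_dvd (Nat.pos_of_ne_zero hg) h
          have h4 : gc v ≤ gc v ^ 2 := Nat.le_self_pow two_ne_zero _
          have h5 : gc v ^ 2 ≤ gc v ^ 2 * en w := Nat.le_mul_of_pos_right _ (Nat.pos_of_ne_zero h2)
          omega
      rw [e2, ← sum_mul]
      have h1 := sum_moebius (gc v)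
      have h2 : (∑ d ∈ (gc v).divisors, (ArithmeticFunction.moebius d : ℝ)) =
          if gc v = 1 then 1 else 0 := by
        have h3 := congrArg (fun z : ℤ => (z : ℝ)) h1
        push_cast at h3
        rw [h3]
      rw [h2]
      split_ifs <;> ring
  rw [sum_congr rfl e1, sum_comm]
  refine sum_congr rfl fun d hd => ?_
  rw [mem_Icc] at hd
  have hd0 : d ≠ 0 := by omega
  rw [← sum_filter, ← mul_sum]
  congr 1
  unfold Ag
  symm
  refine sum_bij (fun w _ => mu d w) ?_ (fun v _ w _ h => mu_inj hd0 h) ?_ ?_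
  · intro w hw
    rw [mem_Be] at hw
    rw [mem_filter, mem_Be, en_mu, gc_mu]
    refine ⟨?_, dvd_mul_right _ _⟩
    rw [Nat.le_div_iff_mul_le (by positivity)] at hw
    rw [mul_comm]
    exact hw
  · intro v hv
    rw [mem_filter, mem_Be] at hv
    obtain ⟨h1, h2⟩ := hv
    unfold gc at h2
    have h3 : (d : ℤ) ∣ v.1 := by
      have : (d : ℤ) ∣ (Int.gcd v.1 v.2 : ℤ) := by exact_mod_cast h2
      exact this.trans (Int.gcd_dvd_left _ _)
    have h4 : (d : ℤ) ∣ v.2 := by
      have : (d : ℤ) ∣ (Int.gcd v.1 v.2 : ℤ) := by exact_mod_cast h2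
      exact this.trans (Int.gcd_dvd_right _ _)
    obtain ⟨a, ha⟩ := h3
    obtain ⟨b, hb⟩ := h4
    have h5 : mu d (a, b) = v := Prod.ext ha.symm hb.symm
    refine ⟨(a, b), ?_, h5⟩
    rw [mem_Be, Nat.le_div_iff_mul_le (by positivity), mul_comm, ← en_mu, h5]
    exact h1
  · intro w _
    unfold gd
    rw [en_mu]
    push_cast
    rfl

/-- the term of the series -/
noncomputable def kt (d : ℕ) : ℝ :=
  if 3 ∣ d then 0 else (ArithmeticFunction.moebius d : ℝ) / (d : ℝ) ^ 2

/-- the constant -/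
noncomputable def kap : ℝ := ∑' d, kt d

theorem kt_abs (d : ℕ) : |kt d| ≤ 1 / (d : ℝ) ^ 2 := by
  unfold kt
  split_ifs
  · rw [abs_zero]
    positivity
  · rw [abs_div, abs_of_nonneg (by positivity : (0 : ℝ) ≤ (d : ℝ) ^ 2)]
    refine div_le_div_of_nonneg_right ?_ (by positivity)
    have h1 := ArithmeticFunction.abs_moebius_le_one (n := d)
    exact_mod_cast h1

theorem sum2 : Summable fun d : ℕ => 1 / (d : ℝ) ^ 2 := Real.summable_one_div_nat_pow.2 (by norm_num)

theorem kt_summable : Summable kt := by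
  refine Summable.of_norm_bounded sum2 fun d => ?_
  rw [Real.norm_eq_abs]
  exact kt_abs d

theorem kap_pos : 0 < kap := by
  have h1 : Summable fun d : ℕ => kt d + 1 / (d : ℝ) ^ 2 := kt_summable.add sum2
  have h2 : (2 : ℝ) ≤ ∑' d : ℕ, (kt d + 1 / (d : ℝ) ^ 2) := by
    have h3 := h1.le_tsum 1 fun d _ => by
      have := kt_abs d
      have := neg_abs_le (kt d)
      linarith
    refine le_trans (le_of_eq ?_) h3
    unfold kt
    norm_num
  rw [kt_summable.tsum_add sum2, hasSum_zeta_two.tsum_eq] at h2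
  have h4 := Real.pi_lt_d2
  have h5 := Real.pi_pos
  unfold kap
  nlinarith

theorem div_tendsto {d : ℕ} (hd : d ≠ 0) :
    Tendsto (fun X : ℕ => ((X / d ^ 2 : ℕ) : ℝ) / X) atTop (nhds (1 / (d : ℝ) ^ 2)) := by
  have h1 := (tendsto_nat_floor_mul_div_atTop (R := ℝ) (a := 1 / (d : ℝ) ^ 2)
    (by positivity)).comp (tendsto_natCast_atTop_atTop (R := ℝ))
  refine h1.congr fun X => ?_
  simp only [Function.comp]
  have e : 1 / (d : ℝ) ^ 2 * (X : ℝ) = (X : ℝ) / ((d ^ 2 : ℕ) : ℝ) := by
    push_cast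
    ring
  rw [e, Nat.floor_div_eq_div]

/-- **the sum over the coprime pairs** -/
theorem Ap_tendsto {g : ZMod 9 → ℝ} (h0 : g 0 = 0) (hg : ∀ x, |g x| ≤ 1) :
    Tendsto (fun X : ℕ => Ap g X / X) atTop (nhds (ar * mean g * kap)) := by
  obtain ⟨C, hC, hB⟩ := card_le
  have hAg : ∀ (d Y : ℕ), |Ag (gd g d) Y| ≤ C * Y := by
    intro d Y
    rcases Nat.eq_zero_or_pos Y with rfl | hY
    · have : Ag (gd g d) 0 = 0 := by
        unfold Ag
        refine sum_eq_zero fun v hv => ?_
        rw [mem_Be] at hv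
        have : en v = 0 := by omega
        rw [this]
        unfold gd
        rw [Nat.cast_zero, mul_zero, h0]
      rw [this, abs_zero, Nat.cast_zero, mul_zero]
    · refine le_trans ?_ (hB Y hY)
      unfold Ag
      refine (abs_sum_le_sum_abs _ _).trans ?_
      refine (sum_le_sum fun v _ => hg _).trans ?_
      rw [sum_const, nsmul_eq_mul, mul_one]
  set t : ℕ → ℕ → ℝ := fun X d => (ArithmeticFunction.moebius d : ℝ) * Ag (gd g d) (X / d ^ 2) / X
    with ht
  have hsum : ∀ X : ℕ, Ap g X / X = ∑' d, t X d := by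
    intro X
    rw [Ap_eq h0, sum_div, tsum_eq_sum (s := Icc 1 X)]
    intro d hd
    rw [ht]
    simp only
    rcases Nat.eq_zero_or_pos d with rfl | hd0
    · simp
    · have h1 : X / d ^ 2 = 0 := by
        rw [Nat.div_eq_zero_iff]
        right
        by_contra hc
        push Not at hc
        apply hd
        rw [mem_Icc]
        have : d ≤ d ^ 2 := Nat.le_self_pow two_ne_zero _
        omega
      have h2 := hAg d (X / d ^ 2)
      rw [h1, Nat.cast_zero, mul_zero] at h2
      have h3 : Ag (gd g d) 0 = 0 := abs_nonpos_iff.1 h2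
      rw [h1, h3, mul_zero, zero_div]
  have hlim : ar * mean g * kap = ∑' d, ar * mean g * kt d := by
    unfold kap
    rw [tsum_mul_left]
  rw [hlim]
  simp_rw [hsum]
  refine tendsto_tsum_of_dominated_convergence (sum2.mul_left C) ?_ ?_
  · intro d
    rw [ht]
    simp only
    rcases Nat.eq_zero_or_pos d with rfl | hd0
    · have : kt 0 = 0 := by
        unfold kt
        simp
      rw [this, mul_zero]
      simp
    · have h1 : Tendsto (fun X : ℕ => X / d ^ 2) atTop atTop :=
        Nat.tendsto_div_const_atTop (by positivity)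
      have h2 := ((Ag_tendsto (gd g d)).comp h1).mul (div_tendsto hd0.ne')
      have h3 := h2.const_mul (ArithmeticFunction.moebius d : ℝ)
      have e1 : (ArithmeticFunction.moebius d : ℝ) * (ar * mean (gd g d) * (1 / (d : ℝ) ^ 2)) =
          ar * mean g * kt d := by
        unfold kt
        by_cases h3 : 3 ∣ d
        · have : mean (gd g d) = 0 := by
            unfold mean
            rw [sum_eq_zero fun r _ => gd_zero h0 h3 _, zero_div]
          rw [if_pos h3, this]
          ring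
        · rw [if_neg h3, mean_gd h3]
          ring
      rw [e1] at h3
      refine h3.congr' ?_
      filter_upwards [h1.eventually (eventually_ge_atTop 1)] with X hX
      have hX0 : (0 : ℝ) < ((X / d ^ 2 : ℕ) : ℝ) := by exact_mod_cast hX
      simp only [Function.comp]
      generalize Ag (gd g d) (X / d ^ 2) = A
      generalize ((X / d ^ 2 : ℕ) : ℝ) = Y at hX0 ⊢
      rcases Nat.eq_zero_or_pos X with rfl | hXp
      · simp
      · have hXr : (0 : ℝ) < X := by exact_mod_cast hXp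
        field_simp
  · refine Eventually.of_forall fun X d => ?_
    rw [ht]
    simp only
    rw [Real.norm_eq_abs, abs_div, abs_mul]
    have h1 : |(ArithmeticFunction.moebius d : ℝ)| ≤ 1 := by
      have := ArithmeticFunction.abs_moebius_le_one (n := d)
      exact_mod_cast this
    rcases Nat.eq_zero_or_pos X with rfl | hX
    · rw [Nat.cast_zero, abs_zero, div_zero]
      positivity
    rcases Nat.eq_zero_or_pos d with rfl | hd0
    · simp
    have hX0 : (0 : ℝ) < X := by exact_mod_cast hX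
    have hdr : (0 : ℝ) < d := by exact_mod_cast hd0
    rw [abs_of_pos hX0, div_le_iff₀ hX0]
    have h2 := hAg d (X / d ^ 2)
    have h3 : ((X / d ^ 2 : ℕ) : ℝ) ≤ X / (d : ℝ) ^ 2 := by
      refine Nat.cast_div_le.trans (le_of_eq ?_)
      push_cast
      rfl
    calc |(ArithmeticFunction.moebius d : ℝ)| * |Ag (gd g d) (X / d ^ 2)| ≤
          1 * (C * (X / (d : ℝ) ^ 2)) := by
          refine mul_le_mul h1 (h2.trans ?_) (abs_nonneg _) zero_le_one
          exact mul_le_mul_of_nonneg_left h3 hC.le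
      _ = C * (1 / (d : ℝ) ^ 2) * X := by ring

/-! ### the classes -/

/-- the indicator function of the class -/
noncomputable def gq (q : ℕ) (x : ZMod 9) : ℝ :=
  if ¬ 3 ∣ x.val ∧ EL.HC q x.val then 1 else 0

theorem gq_zero (q : ℕ) : gq q 0 = 0 := by
  unfold gq
  simp

theorem gq_le (q : ℕ) (x : ZMod 9) : |gq q x| ≤ 1 := by
  unfold gq
  split_ifs
  · rw [abs_one]
  · rw [abs_zero]
    exact zero_le_one

theorem gq_en (q n : ℕ) : gq q (n : ZMod 9) = if ¬ 3 ∣ n ∧ EL.HC q n then 1 else 0 := by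
  unfold gq
  rw [ZMod.val_natCast]
  refine if_congr ?_ rfl rfl
  have h1 := EL.HC_mod q 1 n
  rw [one_mul, one_mul] at h1
  rw [← h1]
  refine and_congr_left fun _ => not_congr ?_
  omega

/-- the pairs of the class -/
noncomputable def CQ (q X : ℕ) : Finset (ℤ × ℤ) := (PX X).filter fun v => EL.HC q (en v)

theorem card_CQ (q X : ℕ) : ((CQ q X).card : ℝ) = Ap (gq q) X := by
  unfold CQ PX Ap
  rw [card_filter]
  push_cast
  rw [sum_filter, sum_filter]
  refine sum_congr rfl fun v _ => ?_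
  rw [gq_en]
  by_cases h1 : gc v = 1 <;> by_cases h2 : 3 ∣ en v <;> by_cases h3 : EL.HC q (en v) <;>
    simp [h1, h2, h3]

theorem cnt3 : ((univ : Finset (ZMod 9 × ZMod 9)).filter fun r => ¬ 3 ∣ (nz r).val).card = 54 := by
  decide

theorem cnt2 : ((univ : Finset (ZMod 9 × ZMod 9)).filter fun r => ¬ 3 ∣ (nz r).val ∧
    (2 * (nz r).val) % 9 ≠ 1 ∧ (2 * (nz r).val) % 9 ≠ 8).card = 36 := by
  decide

theorem cnt5 : ((univ : Finset (ZMod 9 × ZMod 9)).filter fun r => ¬ 3 ∣ (nz r).val ∧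
    (5 * (nz r).val) % 9 ≠ 1 ∧ (5 * (nz r).val) % 9 ≠ 8).card = 36 := by
  decide

theorem cnt8 : ((univ : Finset (ZMod 9 × ZMod 9)).filter fun r => ¬ 3 ∣ (nz r).val ∧
    (8 * (nz r).val) % 9 ≠ 1 ∧ (8 * (nz r).val) % 9 ≠ 8).card = 36 := by
  decide

theorem mean_three : mean (gq 3) = 2 / 3 := by
  have h := cnt3
  unfold mean gq EL.HC
  simp only [true_or, and_true]
  rw [sum_boole]
  have h2 : (((univ : Finset (ZMod 9 × ZMod 9)).filter fun r => ¬ 3 ∣ (nz r).val).card : ℝ) = 54 := by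
    have h3 := congrArg (fun n : ℕ => (n : ℝ)) h
    norm_num at h3
    convert h3
  rw [h2]
  norm_num

theorem mean_two {q : ℕ} (hq : q % 3 = 2) : mean (gq q) = 4 / 9 := by
  have h9 : q % 9 = 2 ∨ q % 9 = 5 ∨ q % 9 = 8 := by omega
  have hne : ¬ q = 3 := by
    rintro rfl
    omega
  unfold mean gq EL.HC
  simp only [hne, false_or]
  rw [sum_boole]
  have e : ∀ n : ℕ, (q * n) % 9 = (q % 9 * n) % 9 := fun n =>
    (Nat.mod_modEq q 9).symm.mul_right n
  simp only [e]
  have h2 : (((univ : Finset (ZMod 9 × ZMod 9)).filter fun r => ¬ 3 ∣ (nz r).val ∧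
      (q % 9 * (nz r).val) % 9 ≠ 1 ∧ (q % 9 * (nz r).val) % 9 ≠ 8).card : ℝ) = 36 := by
    rcases h9 with h | h | h
    · rw [h]
      have h3 := congrArg (fun n : ℕ => (n : ℝ)) cnt2
      norm_num at h3
      convert h3
    · rw [h]
      have h3 := congrArg (fun n : ℕ => (n : ℝ)) cnt5
      norm_num at h3
      convert h3
    · rw [h]
      have h3 := congrArg (fun n : ℕ => (n : ℝ)) cnt8
      norm_num at h3
      convert h3
  rw [h2]
  norm_num

/-- **the number of the pairs of the class** -/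
theorem CQ_tendsto (q : ℕ) : Tendsto (fun X : ℕ => ((CQ q X).card : ℝ) / X) atTop
    (nhds (ar * mean (gq q) * kap)) := by
  simp only [card_CQ]
  exact Ap_tendsto (gq_zero q) (gq_le q)

/-! ### all coprime pairs -/

/-- the coprime pairs -/
noncomputable def CP (X : ℕ) : Finset (ℤ × ℤ) := (Be X).filter fun v => gc v = 1

/-- multiplication by `√-3` -/
def rho (v : ℤ × ℤ) : ℤ × ℤ := (v.1 - v.2, v.1 + 2 * v.2)

theorem en_rho (v : ℤ × ℤ) : en (rho v) = 3 * en v := by
  have h3 : ((en (rho v) : ℕ) : ℤ) = ((3 * en v : ℕ) : ℤ) := by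
    push_cast
    rw [en_int, en_int]
    unfold rho
    ring
  exact_mod_cast h3

theorem rho_inj : Function.Injective rho := by
  intro v w h
  unfold rho at h
  simp only [Prod.mk.injEq] at h
  exact Prod.ext (by omega) (by omega)

theorem three_iff (v : ℤ × ℤ) : 3 ∣ en v ↔ (3 : ℤ) ∣ v.1 - v.2 := by
  have h1 := en_int v
  have h2 : (3 : ℤ) ∣ ((en v : ℕ) : ℤ) ↔ (3 : ℤ) ∣ (v.1 - v.2) ^ 2 := by
    rw [h1]
    have e : v.1 ^ 2 + v.1 * v.2 + v.2 ^ 2 = (v.1 - v.2) ^ 2 + 3 * (v.1 * v.2) := by ring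
    rw [e]
    exact (dvd_add_left (dvd_mul_right _ _))
  have h3 : (3 ∣ en v) ↔ (3 : ℤ) ∣ ((en v : ℕ) : ℤ) := by
    constructor
    · intro h
      exact_mod_cast h
    · intro h
      exact_mod_cast h
  rw [h3, h2]
  exact Int.prime_three.dvd_pow_iff_dvd two_ne_zero

theorem gc_rho {v : ℤ × ℤ} (h1 : gc v = 1) (h3 : ¬ 3 ∣ en v) : gc (rho v) = 1 := by
  by_contra hne
  obtain ⟨p, hp, hd⟩ := Nat.exists_prime_and_dvd hne
  unfold gc rho at hd
  have a1 : (p : ℤ) ∣ v.1 - v.2 := by
    have : (p : ℤ) ∣ (Int.gcd (v.1 - v.2) (v.1 + 2 * v.2) : ℤ) := by exact_mod_cast hd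
    exact this.trans (Int.gcd_dvd_left _ _)
  have a2 : (p : ℤ) ∣ v.1 + 2 * v.2 := by
    have : (p : ℤ) ∣ (Int.gcd (v.1 - v.2) (v.1 + 2 * v.2) : ℤ) := by exact_mod_cast hd
    exact this.trans (Int.gcd_dvd_right _ _)
  have b1 : (p : ℤ) ∣ 3 * v.1 := by
    have := dvd_add (dvd_mul_of_dvd_right a1 2) a2
    have e : 2 * (v.1 - v.2) + (v.1 + 2 * v.2) = 3 * v.1 := by ring
    rw [e] at this
    exact this
  have b2 : (p : ℤ) ∣ 3 * v.2 := by
    have := dvd_sub a2 a1
    have e : (v.1 + 2 * v.2) - (v.1 - v.2) = 3 * v.2 := by ring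
    rw [e] at this
    exact this
  have hpp : Prime (p : ℤ) := Nat.prime_iff_prime_int.1 hp
  have hp3 : ¬ (p : ℤ) ∣ 3 := by
    intro h
    have h5 : p ∣ 3 := by exact_mod_cast h
    have h6 : p = 3 := (Nat.prime_dvd_prime_iff_eq hp Nat.prime_three).1 h5
    rw [h6] at a1
    exact h3 ((three_iff v).2 a1)
  have c1 := (hpp.dvd_or_dvd b1).resolve_left hp3
  have c2 := (hpp.dvd_or_dvd b2).resolve_left hp3
  have c3 : (p : ℤ) ∣ (Int.gcd v.1 v.2 : ℤ) := Int.dvd_coe_gcd c1 c2
  have c4 : p ∣ gc v := by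
    unfold gc
    exact_mod_cast c3
  rw [h1] at c4
  exact hp.one_lt.ne' (Nat.dvd_one.1 c4)

theorem rel (X : ℕ) : (PX X).card + (PX (X / 3)).card = (CP X).card := by
  have e2 : (PX (X / 3)).card = ((CP X).filter fun v => 3 ∣ en v).card := by
    refine card_bij (fun v _ => rho v) ?_ (fun v _ w _ h => rho_inj h) ?_
    · intro v hv
      unfold PX at hv
      rw [mem_filter, mem_Be] at hv
      obtain ⟨h1, h2, h3⟩ := hv
      unfold CP
      rw [mem_filter, mem_filter, mem_Be, en_rho]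
      exact ⟨⟨by omega, gc_rho h2 h3⟩, dvd_mul_right _ _⟩
    · intro v hv
      unfold CP at hv
      rw [mem_filter, mem_filter, mem_Be] at hv
      obtain ⟨⟨h1, h2⟩, h3⟩ := hv
      have h4 := (three_iff v).1 h3
      obtain ⟨c, hc⟩ := h4
      -- v.1 = v.2 + 3 c
      have h5 : rho (v.2 + 2 * c, -c) = v := by
        unfold rho
        exact Prod.ext (by simp only; omega) (by simp only; omega)
      have h6 : gc (v.2 + 2 * c, -c) = 1 := by
        have h7 : gc (v.2 + 2 * c, -c) ∣ gc v := by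
          unfold gc
          have a1 := Int.gcd_dvd_left (v.2 + 2 * c) (-c)
          have a2 := Int.gcd_dvd_right (v.2 + 2 * c) (-c)
          have a3 : ((Int.gcd (v.2 + 2 * c) (-c) : ℕ) : ℤ) ∣ v.2 := by
            have := dvd_add a1 (dvd_mul_of_dvd_right a2 2)
            have e : v.2 + 2 * c + 2 * -c = v.2 := by ring
            rw [e] at this
            exact this
          have a4 : ((Int.gcd (v.2 + 2 * c) (-c) : ℕ) : ℤ) ∣ v.1 := by
            have := dvd_sub a3 (dvd_mul_of_dvd_right a2 3)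
            have e : v.2 - 3 * -c = v.1 := by omega
            rw [e] at this
            exact this
          have a5 : ((Int.gcd (v.2 + 2 * c) (-c) : ℕ) : ℤ) ∣ (Int.gcd v.1 v.2 : ℤ) :=
            Int.dvd_coe_gcd a4 a3
          exact_mod_cast a5
        rw [h2] at h7
        exact Nat.dvd_one.1 h7
      have h8 : en v = 3 * en (v.2 + 2 * c, -c) := by rw [← en_rho, h5]
      refine ⟨(v.2 + 2 * c, -c), ?_, h5⟩
      unfold PX
      rw [mem_filter, mem_Be]
      refine ⟨by omega, h6, ?_⟩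
      intro h9
      rw [three_iff] at h9
      simp only at h9
      -- then three divides both
      have b1 : (3 : ℤ) ∣ v.2 := by
        have e : v.2 + 2 * c - -c = v.2 + 3 * c := by ring
        rw [e] at h9
        exact (dvd_add_left (dvd_mul_right _ _)).1 h9
      have b2 : (3 : ℤ) ∣ v.1 := by
        have e : v.1 = v.2 + 3 * c := by omega
        rw [e]
        exact dvd_add b1 (dvd_mul_right _ _)
      have b3 : ((3 : ℕ) : ℤ) ∣ (Int.gcd v.1 v.2 : ℤ) := Int.dvd_coe_gcd (by exact_mod_cast b2)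
        (by exact_mod_cast b1)
      have b4 : 3 ∣ gc v := by
        unfold gc
        exact_mod_cast b3
      rw [h2] at b4
      omega
  have e1 : PX X = (CP X).filter fun v => ¬ 3 ∣ en v := by
    unfold PX CP
    rw [filter_filter]
  rw [e2, e1, add_comm]
  exact card_filter_add_card_filter_not _

theorem PX_eq (X : ℕ) : PX X = CQ 3 X := by
  unfold CQ EL.HC
  simp

/-- **the number of the coprime pairs** -/
theorem CP_tendsto : Tendsto (fun X : ℕ => ((CP X).card : ℝ) / X) atTop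
    (nhds (ar * (8 / 9) * kap)) := by
  have h1 := CQ_tendsto 3
  rw [mean_three] at h1
  have h2 : Tendsto (fun X : ℕ => X / 3) atTop atTop := Nat.tendsto_div_const_atTop (by norm_num)
  have h3 : Tendsto (fun X : ℕ => ((X / 3 : ℕ) : ℝ) / X) atTop (nhds (1 / 3)) := by
    have h4 := (tendsto_nat_floor_mul_div_atTop (R := ℝ) (a := 1 / 3)
      (by positivity)).comp (tendsto_natCast_atTop_atTop (R := ℝ))
    refine h4.congr fun X => ?_
    simp only [Function.comp]
    have e : 1 / 3 * (X : ℝ) = (X : ℝ) / ((3 : ℕ) : ℝ) := by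
      push_cast
      ring
    rw [e, Nat.floor_div_eq_div]
  have h4 := h1.add ((h1.comp h2).mul h3)
  have e1 : ar * (2 / 3) * kap + ar * (2 / 3) * kap * (1 / 3) = ar * (8 / 9) * kap := by ring
  rw [e1] at h4
  refine h4.congr' ?_
  filter_upwards [h2.eventually (eventually_ge_atTop 1)] with X hX
  have hX0 : (0 : ℝ) < ((X / 3 : ℕ) : ℝ) := by exact_mod_cast hX
  simp only [Function.comp]
  rw [← rel, PX_eq, PX_eq, Nat.cast_add]
  generalize ((CQ 3 (X / 3)).card : ℝ) = A
  generalize ((X / 3 : ℕ) : ℝ) = Y at hX0 ⊢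
  rcases Nat.eq_zero_or_pos X with rfl | hXp
  · simp
  · have hXr : (0 : ℝ) < X := by exact_mod_cast hXp
    field_simp

end Run7.h238.C.EM
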