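import Pool.Agent.Run7.h238.C.Hal
import Pool.Agent.Y37.CX.Sym

/-!
# The character modulo `9` attached to the prime `3`, and its products with cubic symbols
-/

set_option autoImplicit false

open scoped Classical

namespace Run7.h238.C

open Finset
open scoped ComplexConjugate
open Pool.Agent.Y692.QS (Ei w nr toC mul_re mul_im)
open Pool.Agent.Y715.T.Rec (cs)
open Pool.Agent.Y715.T.RecG (Pq)
open Pool.Agent.Y699.E
open Pool.Agent.Y703.CX

/-- the cubic logarithm of `3`, as a function of an element prime to `3` -/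
def l3 (a : Ei) : ZMod 3 := 2 * (((a ^ 6).im / 9 : ℤ) : ZMod 3)

/-- the element is prime to `1 - w` -/
def cop (a : Ei) : Prop := ¬ (a.re + a.im) % 3 = 0

theorem cop_mul (a b : Ei) : cop (a * b) ↔ cop a ∧ cop b := by
  unfold cop
  rw [mul_re, mul_im]
  have e : a.re * b.re - a.im * b.im + (a.re * b.im + a.im * b.re - a.im * b.im) =
      (a.re + a.im) * (b.re + b.im) - 3 * (a.im * b.im) := by ring
  rw [e]
  have h : ∀ x y z : ℤ, (x * y - 3 * z) % 3 = 0 ↔ x % 3 = 0 ∨ y % 3 = 0 := by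
    intro x y z
    rw [← Int.dvd_iff_emod_eq_zero, ← Int.dvd_iff_emod_eq_zero, ← Int.dvd_iff_emod_eq_zero]
    have h3 : Prime (3 : ℤ) := Int.prime_three
    rw [← h3.dvd_mul]
    constructor
    · intro h
      have := dvd_add h (Dvd.intro z rfl : (3 : ℤ) ∣ 3 * z)
      rwa [sub_add_cancel] at this
    · intro h
      exact dvd_sub h (Dvd.intro z rfl)
  rw [h, not_or]

/-- the elements prime to `3` modulo `3` are the units -/
theorem unit_mod {a : Ei} (h : cop a) : ∃ u b : Ei, a = u + 3 * b ∧ u ^ 6 = 1 := by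
  unfold cop at h
  have h1 : ∃ i j : ℤ, ∃ x y : ℤ, a.re = i + 3 * x ∧ a.im = j + 3 * y ∧
      (⟨i, j⟩ : Ei) ^ 6 = 1 := by
    have hx : a.re = a.re % 3 + 3 * (a.re / 3) := (Int.emod_add_mul_ediv a.re 3).symm
    have hy : a.im = a.im % 3 + 3 * (a.im / 3) := (Int.emod_add_mul_ediv a.im 3).symm
    have r1 : a.re % 3 = 0 ∨ a.re % 3 = 1 ∨ a.re % 3 = 2 := by omega
    have r2 : a.im % 3 = 0 ∨ a.im % 3 = 1 ∨ a.im % 3 = 2 := by omega
    rcases r1 with r1 | r1 | r1 <;> rcases r2 with r2 | r2 | r2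
    · exfalso; omega
    · exact ⟨0, 1, a.re / 3, a.im / 3, by omega, by omega, by decide⟩
    · exact ⟨0, -1, a.re / 3, a.im / 3 + 1, by omega, by omega, by decide⟩
    · exact ⟨1, 0, a.re / 3, a.im / 3, by omega, by omega, by decide⟩
    · exact ⟨1, 1, a.re / 3, a.im / 3, by omega, by omega, by decide⟩
    · exfalso; omega
    · exact ⟨-1, 0, a.re / 3 + 1, a.im / 3, by omega, by omega, by decide⟩
    · exfalso; omega
    · exact ⟨-1, -1, a.re / 3 + 1, a.im / 3 + 1, by omega, by omega, by decide⟩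
  obtain ⟨i, j, x, y, h2, h3, h4⟩ := h1
  refine ⟨⟨i, j⟩, ⟨x, y⟩, ?_, h4⟩
  have h3' : (3 : Ei) = ⟨3, 0⟩ := by decide
  ext
  · rw [QuadraticAlgebra.re_add, mul_re, h3']
    simp only
    linarith
  · rw [QuadraticAlgebra.im_add, mul_im, h3']
    simp only
    linarith

theorem six {a : Ei} (h : cop a) : ∃ c : Ei, a ^ 6 = 1 + 9 * c := by
  obtain ⟨u, b, rfl, hu⟩ := unit_mod h
  refine ⟨2 * u ^ 5 * b + 15 * u ^ 4 * b ^ 2 + 60 * u ^ 3 * b ^ 3 + 135 * u ^ 2 * b ^ 4 +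
    162 * u * b ^ 5 + 81 * b ^ 6, ?_⟩
  linear_combination hu

theorem one_im : (1 : Ei).im = 0 := rfl

theorem one_re : (1 : Ei).re = 1 := rfl

theorem im9 (c : Ei) : (1 + 9 * c).im = 9 * c.im := by
  have h9 : (9 : Ei) = ⟨9, 0⟩ := by decide
  rw [QuadraticAlgebra.im_add, mul_im, h9, one_im]
  simp

theorem l3_of {a c : Ei} (h : a ^ 6 = 1 + 9 * c) : l3 a = 2 * ((c.im : ℤ) : ZMod 3) := by
  unfold l3
  rw [h, im9, Int.mul_ediv_cancel_left _ (by norm_num)]

theorem l3_mul {a b : Ei} (ha : cop a) (hb : cop b) : l3 (a * b) = l3 a + l3 b := by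
  obtain ⟨c, hc⟩ := six ha
  obtain ⟨d, hd⟩ := six hb
  have h : (a * b) ^ 6 = 1 + 9 * (c + d + 9 * (c * d)) := by
    rw [mul_pow, hc, hd]
    ring
  rw [l3_of hc, l3_of hd, l3_of h]
  have h9 : (9 : Ei) = ⟨9, 0⟩ := by decide
  have e : (c + d + 9 * (c * d)).im = c.im + d.im + 9 * (c * d).im := by
    rw [QuadraticAlgebra.im_add, QuadraticAlgebra.im_add, mul_im 9, h9]
    simp
  rw [e]
  push_cast
  have h0 : (9 : ZMod 3) = 0 := by decide
  rw [h0]
  ring

theorem l3_one : l3 1 = 0 := by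
  have h : (1 : Ei) ^ 6 = 1 + 9 * 0 := by ring
  rw [l3_of h]
  simp

theorem cop_one : cop 1 := by
  unfold cop
  decide

theorem prm_form {a : Ei} (h : prm a) : ∃ b : Ei, a = 1 + 3 * b := by
  obtain ⟨b, hb⟩ := h
  exact ⟨b, by linear_combination hb⟩

theorem im3 (b : Ei) : (1 + 3 * b).im = 3 * b.im := by
  have h3 : (3 : Ei) = ⟨3, 0⟩ := by decide
  rw [QuadraticAlgebra.im_add, mul_im, h3, one_im]
  simp

theorem re3 (b : Ei) : (1 + 3 * b).re = 1 + 3 * b.re := by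
  have h3 : (3 : Ei) = ⟨3, 0⟩ := by decide
  rw [QuadraticAlgebra.re_add, mul_re, h3, one_re]
  simp

theorem cop_prm {a : Ei} (h : prm a) : cop a := by
  obtain ⟨b, rfl⟩ := prm_form h
  unfold cop
  rw [im3, re3]
  omega

theorem l3_prm {a : Ei} (h : prm a) : l3 a = ((a.im / 3 : ℤ) : ZMod 3) := by
  obtain ⟨b, rfl⟩ := prm_form h
  have h1 : (1 + 3 * b) ^ 6 = 1 + 9 * (2 * b + 3 * (5 * b ^ 2 + 20 * b ^ 3 + 45 * b ^ 4 +
    54 * b ^ 5 + 27 * b ^ 6)) := by ring
  rw [l3_of h1, im3, Int.mul_ediv_cancel_left _ (by norm_num)]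
  have h3 : (3 : Ei) = ⟨3, 0⟩ := by decide
  have h2 : (2 : Ei) = ⟨2, 0⟩ := by decide
  have e : ∀ c : Ei, (2 * b + 3 * c).im = 2 * b.im + 3 * c.im := by
    intro c
    rw [QuadraticAlgebra.im_add, mul_im, mul_im, h3, h2]
    simp
  rw [e]
  push_cast
  have h0 : (3 : ZMod 3) = 0 := by decide
  rw [h0]
  have h4 : (2 : ZMod 3) * 2 = 1 := by decide
  rw [zero_mul, add_zero, ← mul_assoc, h4, one_mul]

/-- the character modulo `9` -/
noncomputable def Tj (j : ZMod 3) (a : Ei) : ℂ := if cop a then ez (j * l3 a) else 0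

theorem Tj_prm {j : ZMod 3} {a : Ei} (h : prm a) : Tj j a = ez (j * ((a.im / 3 : ℤ) : ZMod 3)) := by
  unfold Tj
  rw [if_pos (cop_prm h), l3_prm h]

theorem Tj_mul (j : ZMod 3) (a b : Ei) : Tj j (a * b) = Tj j a * Tj j b := by
  unfold Tj
  by_cases ha : cop a
  · by_cases hb : cop b
    · rw [if_pos ha, if_pos hb, if_pos ((cop_mul a b).2 ⟨ha, hb⟩), l3_mul ha hb, mul_add, ez_add]
    · rw [if_neg hb, if_neg fun h => hb ((cop_mul a b).1 h).2, mul_zero]
  · rw [if_neg ha, if_neg fun h => ha ((cop_mul a b).1 h).1, zero_mul]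

theorem Tj_one (j : ZMod 3) : Tj j 1 = 1 := by
  unfold Tj
  rw [if_pos cop_one, l3_one, mul_zero, ez_zero]

/-- the character attached to two elements and an exponent of `3` -/
noncomputable def xj (A B : Ei) (j : ZMod 3) (a : Ei) : ℂ := xab A B a * Tj j a

lemma xj_ch {A B : Ei} (hA : PS A) (hB : PS B) (j : ZMod 3) : CH (xj A B j) := by
  have hx := xab_ch hA hB
  refine ⟨?_, ?_, ?_⟩
  · unfold xj
    rw [hx.one, Tj_one, one_mul]
  · intro a b
    unfold xj
    rw [hx.mul, Tj_mul]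
    ring
  · intro a
    unfold xj xab
    rcases jac_cases A a with h | ⟨c, h⟩
    · left; rw [h, zero_mul, zero_mul]
    · rcases jac_cases B a with h' | ⟨c', h'⟩
      · left; rw [h', map_zero, mul_zero, zero_mul]
      · unfold Tj
        split_ifs
        · right
          rw [h, h', conj_ez, ← ez_add, ← ez_add]
          exact ez_val _
        · left; rw [mul_zero]

/-- the function on primary elements -/
noncomputable def FJ (A B : Ei) (j : ZMod 3) (a : Ei) : ℂ :=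
  if prm a then jac A a * conj (jac B a) * ez (j * ((a.im / 3 : ℤ) : ZMod 3)) else 0

lemma FJ_norm (A B : Ei) (j : ZMod 3) (a : Ei) : ‖FJ A B j a‖ ≤ 1 := by
  unfold FJ
  split_ifs
  · rw [norm_mul, norm_mul, Complex.norm_conj, norm_ez, mul_one]
    exact mul_le_one₀ (jac_norm _ _) (norm_nonneg _) (jac_norm _ _)
  · simp

lemma FJ_sum_eq (A B : Ei) (j : ZMod 3) (v : ℕ) :
    ∑ d ∈ PB v, xj A B j d = ∑ a ∈ ZB v, FJ A B j a := by
  unfold PB
  rw [sum_filter]
  refine sum_congr rfl fun a _ => ?_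
  unfold FJ
  by_cases h : prm a
  · rw [if_pos h, if_pos h]
    unfold xj xab
    rw [Tj_prm h]
  · rw [if_neg h, if_neg h]

lemma nine_ne : (9 : Ei) ≠ 0 := by decide

lemma nrm_nine : nrm (9 : Ei) = 81 := by decide

lemma im_per {a b : Ei} (ha : prm a) (hb : prm b) (h : (9 : Ei) ∣ a - b) :
    ((a.im / 3 : ℤ) : ZMod 3) = ((b.im / 3 : ℤ) : ZMod 3) := by
  obtain ⟨x, rfl⟩ := prm_form ha
  obtain ⟨y, rfl⟩ := prm_form hb
  obtain ⟨c, hc⟩ := h
  have h9 : (9 : Ei) = ⟨9, 0⟩ := by decide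
  have h1 : 3 * x.im - 3 * y.im = 9 * c.im := by
    have := congrArg QuadraticAlgebra.im hc
    rw [QuadraticAlgebra.im_sub, im3, im3, mul_im, h9] at this
    simpa using this
  rw [im3, im3, Int.mul_ediv_cancel_left _ (by norm_num), Int.mul_ediv_cancel_left _ (by norm_num)]
  rw [← sub_eq_zero, ← Int.cast_sub, ZMod.intCast_zmod_eq_zero_iff_dvd]
  exact ⟨c.im, by push_cast; omega⟩

lemma im_mul {c a : Ei} (hc : prm c) (ha : prm a) :
    (((c * a).im / 3 : ℤ) : ZMod 3) = ((c.im / 3 : ℤ) : ZMod 3) + ((a.im / 3 : ℤ) : ZMod 3) := by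
  rw [← l3_prm hc, ← l3_prm ha, ← l3_prm (prm_mul hc ha), l3_mul (cop_prm hc) (cop_prm ha)]

/-- the sum, given a suitable multiplier -/
lemma FJ_sum_of {A B : Ei} (hA : PS A) (hB : PS B) (j : ZMod 3) {c : Ei} (hc : prm c)
    (hcA : jac A c ≠ 0) (hcB : jac B c ≠ 0)
    (hz : jac A c * conj (jac B c) * ez (j * ((c.im / 3 : ℤ) : ZMod 3)) ≠ 1) (V : ℕ) :
    ‖∑ a ∈ ZB V, FJ A B j a‖ ≤ 3 * (81 * (nrm A * nrm B)) * (3 * Real.sqrt V + 1) := by
  have hq : 9 * (A * B) ≠ 0 := mul_ne_zero nine_ne (mul_ne_zero hA.ne hB.ne)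
  have hcop : IsCoprime c (9 * (A * B)) := by
    refine IsCoprime.mul_right ?_ (IsCoprime.mul_right (jac_cop hA hcA).symm
      (jac_cop hB hcB).symm)
    have h9 : (9 : Ei) = 3 ^ 2 := by decide
    rw [h9]
    refine IsCoprime.pow_right ?_
    obtain ⟨k, hk⟩ := hc
    exact ⟨1, -k, by linear_combination hk⟩
  have h3 := csum hq (f := FJ A B j) ?_ (FJ_norm A B j) hcop hz ?_ V
  · refine h3.trans (le_of_eq ?_)
    rw [nrm_mul, nrm_mul, nrm_nine]
    push_cast
    ring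
  · intro a b hab
    unfold FJ
    have e0 : (9 : Ei) ∣ a - b := (dvd_mul_right _ _).trans hab
    have e1 : (3 : Ei) ∣ a - b := Dvd.dvd.trans ⟨3, by decide⟩ e0
    have e2 : A ∣ a - b := ((dvd_mul_right _ _).trans (dvd_mul_left _ _)).trans hab
    have e3 : B ∣ a - b := ((dvd_mul_left _ _).trans (dvd_mul_left _ _)).trans hab
    have e4 : prm a ↔ prm b := by
      unfold prm
      constructor
      · intro h
        have := dvd_sub h e1
        have e : a - 1 - (a - b) = b - 1 := by ring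
        rwa [e] at this
      · intro h
        have := dvd_add h e1
        have e : b - 1 + (a - b) = a - 1 := by ring
        rwa [e] at this
    rw [jac_per hA.ne e2, jac_per hB.ne e3]
    by_cases h : prm a
    · rw [if_pos h, if_pos (e4.1 h), im_per h (e4.1 h) e0]
    · rw [if_neg h, if_neg (fun hh => h (e4.2 hh))]
  · intro a
    unfold FJ
    have e4 : prm (c * a) ↔ prm a :=
      ⟨fun h => prm_cancel hc h, fun h => prm_mul hc h⟩
    by_cases h : prm a
    · rw [if_pos h, if_pos (e4.2 h), jac_mul_right hA.ne, jac_mul_right hB.ne, im_mul hc h,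
        mul_add, ez_add, map_mul]
      ring
    · rw [if_neg h, if_neg (fun hh => h (e4.1 hh)), mul_zero]

/-- the Chinese remainder theorem -/
lemma crt2 {x y : Ei} (h : IsCoprime x y) (s t : Ei) : ∃ c : Ei, x ∣ c - s ∧ y ∣ c - t := by
  obtain ⟨a, b, hab⟩ := h
  refine ⟨s * (b * y) + t * (a * x), ⟨t * a - s * a, ?_⟩, ⟨s * b - t * b, ?_⟩⟩
  · linear_combination s * hab
  · linear_combination t * hab

lemma prm_of_nine {c t : Ei} (h : (9 : Ei) ∣ c - t) (ht : prm t) : prm c := by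
  unfold prm at *
  have h3 : (3 : Ei) ∣ c - t := Dvd.dvd.trans ⟨3, by decide⟩ h
  have := dvd_add h3 ht
  have e : c - t + (t - 1) = c - 1 := by ring
  rwa [e] at this

lemma jac_one_of {A c : Ei} (hA : PS A) (h : ∀ ρ ∈ PD A, ρ ∣ c - 1) : jac A c = 1 := by
  unfold jac
  refine prod_eq_one fun ρ hρ => ?_
  have hρ' := ((mem_PD hA.ne).1 hρ).1
  rw [chi_per hρ' (h ρ hρ), chi_one hρ']

/-- the multiplier, the first case -/
lemma mult1 {A B : Ei} (hA : PS A) (hB : PS B) {π : Ei} (h1 : π ∈ PD A) (h2 : π ∉ PD B) :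
    ∃ c : Ei, prm c ∧ jac A c ≠ 0 ∧ jac A c ≠ 1 ∧ jac B c = 1 ∧
      ((c.im / 3 : ℤ) : ZMod 3) = 0 := by
  classical
  have hπ := ((mem_PD hA.ne).1 h1).1
  have hS : ∀ ρ ∈ (PD A).erase π ∪ PD B, Pq ρ := by
    intro ρ hρ
    rw [mem_union] at hρ
    rcases hρ with h | h
    · exact ((mem_PD hA.ne).1 (mem_of_mem_erase h)).1
    · exact ((mem_PD hB.ne).1 h).1
  have hπS : π ∉ (PD A).erase π ∪ PD B := by
    rw [mem_union, not_or]
    exact ⟨notMem_erase _ _, h2⟩
  set S := (PD A).erase π ∪ PD B with hSd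
  have hcop : IsCoprime π (9 * ∏ ρ ∈ S, ρ) := by
    refine IsCoprime.mul_right ?_ ?_
    · have h9 : (9 : Ei) = 3 ^ 2 := by decide
      rw [h9]
      exact IsCoprime.pow_right ((hπ.prime.irreducible.coprime_iff_not_dvd).2 hπ.norm)
    · rw [IsCoprime.prod_right_iff]
      intro ρ hρ
      exact pq_cop hπ (hS ρ hρ) fun h => hπS (by rw [h]; exact hρ)
  obtain ⟨b, hb0, hb⟩ := exists_nonres hπ
  obtain ⟨c, hc1, hc2⟩ := crt2 hcop b 1
  have hc9 : (9 : Ei) ∣ c - 1 := (dvd_mul_right _ _).trans hc2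
  have hcρ : ∀ ρ ∈ S, ρ ∣ c - 1 := fun ρ hρ =>
    (Finset.dvd_prod_of_mem _ hρ).trans ((dvd_mul_left _ _).trans hc2)
  have hprm : prm c := prm_of_nine hc9 prm_one
  have hjx : jac A c = chi π c := by
    unfold jac
    rw [← mul_prod_erase (PD A) _ h1, prod_eq_one, mul_one]
    intro ρ hρ
    have hρ' := hS ρ (mem_union_left _ hρ)
    rw [chi_per hρ' (hcρ ρ (mem_union_left _ hρ)), chi_one hρ']
  refine ⟨c, hprm, ?_, ?_, jac_one_of hB fun ρ hρ => hcρ ρ (mem_union_right _ hρ), ?_⟩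
  · rw [hjx, chi_per hπ hc1, chi_of hb0]
    exact ez_ne_zero _
  · rw [hjx, chi_per hπ hc1, chi_of hb0]
    exact ez_ne hb
  · rw [im_per hprm prm_one hc9, one_im]
    simp

/-- the multiplier, the second case -/
lemma mult2 {A : Ei} (hA : PS A) : ∃ c : Ei, prm c ∧ jac A c = 1 ∧
    ((c.im / 3 : ℤ) : ZMod 3) = 1 := by
  classical
  have hcop : IsCoprime (9 : Ei) (∏ ρ ∈ PD A, ρ) := by
    rw [IsCoprime.prod_right_iff]
    intro ρ hρ
    have hρ' := ((mem_PD hA.ne).1 hρ).1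
    have h9 : (9 : Ei) = 3 ^ 2 := by decide
    rw [h9]
    exact IsCoprime.pow_left ((hρ'.prime.irreducible.coprime_iff_not_dvd).2 hρ'.norm).symm
  obtain ⟨c, hc1, hc2⟩ := crt2 hcop (1 + 3 * w) 1
  have ht : prm (1 + 3 * w) := ⟨w, by ring⟩
  have hprm : prm c := prm_of_nine hc1 ht
  refine ⟨c, hprm, jac_one_of hA fun ρ hρ => (Finset.dvd_prod_of_mem _ hρ).trans hc2, ?_⟩
  rw [im_per hprm ht hc1, im3]
  rw [Int.mul_ediv_cancel_left _ (by norm_num)]
  have : w.im = 1 := rfl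
  rw [this]
  simp

lemma fin_bd {A B : Ei} {j : ZMod 3}
    (h : ∀ V : ℕ, ‖∑ a ∈ ZB V, FJ A B j a‖ ≤ 3 * (81 * (nrm A * nrm B)) * (3 * Real.sqrt V + 1)) :
    Bd (xj A B j) (9 * (nrm A * nrm B)) := by
  intro v hv
  rw [FJ_sum_eq]
  refine (h v).trans ?_
  have h2 : (1 : ℝ) ≤ Real.sqrt v := Real.one_le_sqrt.2 (by exact_mod_cast hv)
  have h3 : (0 : ℝ) ≤ (nrm A : ℝ) * nrm B := by positivity
  push_cast
  nlinarith

/-- **the bound for the sums of the character** -/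
theorem xj_bd {A B : Ei} (hA : PS A) (hB : PS B) {j : ZMod 3} (h : A ≠ B ∨ j ≠ 0) :
    Bd (xj A B j) (9 * (nrm A * nrm B)) := by
  apply fin_bd
  by_cases hAB : A = B
  · have hj : j ≠ 0 := by
      rcases h with h | h
      · exact absurd hAB h
      · exact h
    subst hAB
    obtain ⟨c, h1, h2, h3⟩ := mult2 hA
    refine FJ_sum_of hA hA j h1 (by rw [h2]; exact one_ne_zero) (by rw [h2]; exact one_ne_zero) ?_
    rw [h2, h3, map_one, one_mul, one_mul, mul_one]
    exact ez_ne hj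
  · have h1 : PD A ≠ PD B := by
      intro h'
      apply hAB
      rw [← hA.prod, ← hB.prod, h']
    by_cases h2 : PD A ⊆ PD B
    · have h3 : ¬ PD B ⊆ PD A := fun h => h1 (Subset.antisymm h2 h)
      obtain ⟨π, hπ, hπ'⟩ := not_subset.1 h3
      obtain ⟨c, k1, k2, k3, k4, k5⟩ := mult1 hB hA hπ hπ'
      refine FJ_sum_of hA hB j k1 (by rw [k4]; exact one_ne_zero) k2 ?_
      rw [k4, k5, mul_zero, ez_zero, one_mul, mul_one]
      intro h'
      apply k3
      have := congrArg conj h'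
      rwa [Complex.conj_conj, map_one] at this
    · obtain ⟨π, hπ, hπ'⟩ := not_subset.1 h2
      obtain ⟨c, k1, k2, k3, k4, k5⟩ := mult1 hA hB hπ hπ'
      refine FJ_sum_of hA hB j k1 k2 (by rw [k4]; exact one_ne_zero) ?_
      rw [k4, k5, mul_zero, ez_zero, map_one, mul_one, mul_one]
      exact k3

end Run7.h238.C
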