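import Pool.Agent.Y37.CX.Bad
import Pool.Agent.Run7.h238.WFin
import Pool.Agent.Run7.h238.C.Key
import Pool.Agent.Run7.h238.C.Tw

/-!
# Weighted sums over the exceptional sets: degenerate labels
-/

set_option autoImplicit false

open scoped Classical

namespace Run7.h238.C

open Finset
open Filter
open scoped ComplexConjugate
open Pool.Agent.Y692.QS (Ei)
open Pool.Agent.Y715.T.RecG (Pq)
open Pool.Agent.Y699.E (ez PS nrm lg xab one_le_lg lg_mono lg_pos sum_le_inj ez_zero ez_add conj_ez CH)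
open Pool.Agent.Y703.CX
open Pool.Agent.Y37.CX (AA Pf Qf Sf mem_Sf dtP dtQ PQ_ne xab_val xt AA_congr AA_xt UU sum_UU mem_UU Pm
  Pm_nonneg Pm_mono Pm_le prod_pos_of prod_sub_le sub_range lg_pow_le prod_sq_le ev_pow pq_star)
open Pool.Agent.R413.SQ (Sml sml_of sml_add)
open Run7.h238.WFew (wt wt_nonneg wt_mono wt_union wt_card)

/-- the law for the prime `3` -/
def L3 : Prop := ∀ p : ℕ, p.Prime → p % 3 = 1 → lam p 3 = (((pp p).im / 3 : ℤ) : ZMod 3)

/-- the exceptional primes -/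
def ExC (χ : Ei → ℂ) (p : ℕ) : Prop := ¬ (χ (pp p) = 1 ∧ χ (star (pp p)) = 1)

/-- the family of the possible large parts -/
noncomputable def famC (χ : Ei → ℂ) (Y : ℕ) : Finset (Finset ℕ) :=
  (range (Y + 1)).powerset.filter fun T => (∀ p ∈ T, p.Prime ∧ p % 3 = 1) ∧
    (T.filter fun p => ExC χ p).card ≤ 1 ∧ ∏ p ∈ T, p ≤ Y

/-- the logarithmic sum over the family -/
lemma famC_sum (χ : Ei → ℂ) (Y : ℕ) :
    ∑ T ∈ famC χ Y, (1 : ℝ) / ((∏ p ∈ T, p : ℕ) : ℝ) ≤
      (1 + Pm Y) * ∑ S ∈ HDc χ Y, (1 : ℝ) / ((∏ p ∈ S, p : ℕ) : ℝ) := by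
  have e : (1 + Pm Y) * ∑ S ∈ HDc χ Y, (1 : ℝ) / ((∏ p ∈ S, p : ℕ) : ℝ) =
      ∑ x ∈ UU Y ×ˢ HDc χ Y, (1 : ℝ) / ((∏ p ∈ x.1, p : ℕ) : ℝ) *
        (1 / ((∏ p ∈ x.2, p : ℕ) : ℝ)) := by
    rw [sum_product]
    simp_rw [← mul_sum]
    rw [← sum_mul, sum_UU]
  rw [e]
  refine sum_le_inj (fun T => (T.filter (fun p => ExC χ p), T.filter (fun p => ¬ ExC χ p)))
    ?_ ?_ ?_ ?_
  · intro T hT
    rw [famC, mem_filter, mem_powerset] at hT
    obtain ⟨h1, h2, h4, h5⟩ := hT
    have hpr : ∀ p ∈ T, p.Prime := fun p hp => (h2 p hp).1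
    have hle : ∀ p ∈ T, p ≤ Y := fun p hp => by
      have := mem_range.1 (h1 hp); omega
    rw [mem_product]
    refine ⟨mem_UU h4 fun p hp => ?_, ?_⟩
    · exact ⟨hpr p (mem_filter.1 hp).1, hle p (mem_filter.1 hp).1⟩
    · rw [HDc, mem_filter, mem_powerset]
      refine ⟨(filter_subset _ _).trans h1, fun p hp => ?_,
        (prod_sub_le (filter_subset _ _) hpr).trans h5⟩
      obtain ⟨k1, k3⟩ := mem_filter.1 hp
      unfold ExC at k3
      rw [not_not] at k3
      exact ⟨hpr p k1, (h2 p k1).2, k3.1, k3.2⟩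
  · intro S _ T _ h
    simp only [Prod.mk.injEq] at h
    obtain ⟨h1, h2⟩ := h
    rw [← filter_union_filter_not_eq (fun p => ExC χ p) S,
      ← filter_union_filter_not_eq (fun p => ExC χ p) T, h1, h2]
  · intro T _
    apply le_of_eq
    simp only
    rw [← prod_filter_mul_prod_filter_not T (fun p => ExC χ p)]
    push_cast
    rw [one_div_mul_one_div]
  · intro x _
    positivity

/-- the weight of the family -/
theorem famC_wt {C₁ : ℝ} (h11 : 1 ≤ C₁)
    (hSIE : ∀ (Y : ℕ) (L : Finset (Finset ℕ)), 1 ≤ Y →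
      (∀ S ∈ L, (∀ p ∈ S, p.Prime) ∧ ∏ p ∈ S, p ≤ Y) → (∀ S ∈ L, ∀ T, T ⊆ S → T ∈ L) →
      (∑ S ∈ L, (2 : ℝ) ^ S.card) * Real.log Y ≤
        C₁ * Y * (∑ S ∈ L, (1 : ℝ) / ((∏ p ∈ S, p : ℕ) : ℝ)) ^ 2)
    (hL : LamP) {χ : Ei → ℂ} (hχ : CH χ) {N : ℕ} (hN : 1 ≤ N) (hB : Bd χ N) {Y : ℕ} (hY : 2 ≤ Y) :
    wt (famC χ Y) * Real.log Y ≤ C₁ * Y *
      ((1 + Pm Y) * (864 * (lg N) ^ (1 / 6 : ℝ) * (Real.log Y) ^ (1 / 3 : ℝ))) ^ 2 := by
  have h1 := hSIE Y (famC χ Y) (by omega) (by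
    intro S hS
    rw [famC, mem_filter] at hS
    exact ⟨fun p hp => (hS.2.1 p hp).1, hS.2.2.2⟩) (by
    intro S hS T hTS
    rw [famC, mem_filter, mem_powerset] at hS ⊢
    obtain ⟨h1, h2, h4, h5⟩ := hS
    refine ⟨hTS.trans h1, fun p hp => h2 p (hTS hp), ?_, ?_⟩
    · exact (card_le_card (filter_subset_filter _ hTS)).trans h4
    · exact (prod_sub_le hTS fun p hp => (h2 p hp).1).trans h5)
  have h0 : 0 ≤ ∑ S ∈ famC χ Y, (1 : ℝ) / ((∏ p ∈ S, p : ℕ) : ℝ) :=
    sum_nonneg fun _ _ => by positivity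
  have h2 := halG hL hχ hN hB hY
  have h6 := (famC_sum χ Y).trans (mul_le_mul_of_nonneg_left h2 (by
    have := Pm_nonneg Y
    linarith))
  exact h1.trans (mul_le_mul_of_nonneg_left (pow_le_pow_left₀ h0 h6 2) (by positivity))

/-- the vertices different from `3` -/
noncomputable def U3 (U : Finset ℕ) : Finset ℕ := U.filter fun u => u ≠ 3

/-- the exponent of `3` -/
noncomputable def jx (U : Finset ℕ) (b : Bool) (v : ℕ → ZMod 3) : ZMod 3 :=
  if b then 0 else if 3 ∈ U then v 3 else 0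

/-- the character attached to a vector -/
noncomputable def chV (U : Finset ℕ) (b : Bool) (v : ℕ → ZMod 3) : Ei → ℂ :=
  xj (AA (Sf b (U3 U)) (Pf b v)) (AA (Sf b (U3 U)) (Qf b v)) (jx U b v)

/-- the vector is not trivial -/
def ntV (U : Finset ℕ) (b : Bool) (v : ℕ → ZMod 3) : Prop :=
  (∃ u ∈ Sf b (U3 U), v u ≠ 0) ∨ jx U b v ≠ 0

lemma U3_spec {U : Finset ℕ} (hU : ∀ u ∈ U, u.Prime) : ∀ u ∈ U3 U, u.Prime ∧ u ≠ 3 := by
  intro u hu
  unfold U3 at hu
  rw [mem_filter] at hu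
  exact ⟨hU u hu.1, hu.2⟩

lemma Tj_pp (hL : LamP) {p : ℕ} (hp : p.Prime) (h1 : p % 3 = 1) (h3 : L3) (j : ZMod 3) :
    Tj j (pp p) = ez (j * lam p 3) ∧ Tj j (star (pp p)) = ez (-(j * lam p 3)) := by
  have hq := (hL.ex p hp h1).1
  have hs := pq_star hq
  rw [Tj_prm hq.three, Tj_prm hs.three, h3 p hp h1]
  refine ⟨rfl, ?_⟩
  obtain ⟨b, hb⟩ := prm_form (show Pool.Agent.Y699.E.prm (pp p) from hq.three)
  rw [hb, Pool.Agent.Y692.QS.star_im, im3]
  have e : -(3 * b.im) = 3 * (-b.im) := by ring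
  rw [e, Int.mul_ediv_cancel_left _ (by norm_num), Int.mul_ediv_cancel_left _ (by norm_num)]
  push_cast
  rw [mul_neg]

lemma chV_val (hL : LamP) (h3 : L3) {U : Finset ℕ} (hU : ∀ u ∈ U, u.Prime) (b : Bool)
    (v : ℕ → ZMod 3) {p : ℕ} (hp : p.Prime) (hp1 : p % 3 = 1) (hpU : p ∉ U) :
    chV U b v (pp p) = ez ((∑ u ∈ Sf b (U3 U), v u * (if b then lam u p else lam p u)) +
      jx U b v * lam p 3) ∧
    chV U b v (star (pp p)) = ez ((∑ u ∈ Sf b (U3 U), v u * (if b then lam u p else -lam p u)) +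
      -(jx U b v * lam p 3)) := by
  have hpU' : p ∉ U3 U := fun h => hpU (mem_filter.1 h).1
  obtain ⟨h1, h2⟩ := xab_val hL (U3_spec hU) b v hp hp1 hpU'
  obtain ⟨h4, h5⟩ := Tj_pp hL hp hp1 h3 (jx U b v)
  unfold chV xj
  rw [h1, h2, h4, h5, ← ez_add, ← ez_add]
  exact ⟨rfl, rfl⟩

/-- degenerate labels -/
lemma notNd (hL : LamP) (h3 : L3) {U L : Finset ℕ} (hU : ∀ u ∈ U, u.Prime)
    (hT : ∀ p ∈ L, p.Prime ∧ p % 3 = 1) (hd : Disjoint U L) (h : ¬ Nd U L) :
    ∃ (b : Bool) (v : ℕ → ZMod 3), ntV U b v ∧ (L.filter fun p => ExC (chV U b v) p).card ≤ 1 := by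
  unfold Nd at h
  rw [not_and_or] at h
  rcases h with h | h
  · push Not at h
    obtain ⟨v, ⟨u, hu, hu1, hv⟩, h2⟩ := h
    have e3 : Sf true (U3 U) = U.filter (fun u => u % 3 = 1) := by
      unfold Sf U3
      rw [if_pos rfl, filter_filter]
      refine filter_congr fun x _ => ?_
      constructor
      · exact fun h => h.2
      · intro h
        refine ⟨?_, h⟩
        rintro rfl
        omega
    refine ⟨true, v, Or.inl ⟨u, ?_, hv⟩, ?_⟩
    · rw [e3, mem_filter]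
      exact ⟨hu, hu1⟩
    · refine (card_le_card ?_).trans (Nat.lt_succ_iff.1 h2)
      intro p hp
      rw [mem_filter] at hp ⊢
      have hp1 := (hT p hp.1).2
      refine ⟨hp.1, hp1, fun h0 => hp.2 ?_⟩
      have hpS : p ∉ U := fun h' => disjoint_left.1 hd h' hp.1
      obtain ⟨e1, e2⟩ := chV_val hL h3 hU true v (hT p hp.1).1 hp1 hpS
      simp only [if_true] at e1 e2
      have ej : jx U true v = 0 := by unfold jx; rw [if_pos rfl]
      rw [e3, h0, ej, zero_mul, add_zero, ez_zero] at e1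
      rw [e3, h0, ej, zero_mul, neg_zero, add_zero, ez_zero] at e2
      exact ⟨e1, e2⟩
  · push Not at h
    obtain ⟨v, ⟨u, hu, hv⟩, h2⟩ := h
    have e3 : Sf false (U3 U) = U3 U := by unfold Sf; rw [if_neg (by simp)]
    have ej : jx U false v = if 3 ∈ U then v 3 else 0 := by
      unfold jx
      rw [if_neg (by simp)]
    have hsum : ∀ p, ∑ u ∈ U, v u * lam p u =
        ∑ u ∈ U3 U, v u * lam p u + jx U false v * lam p 3 := by
      intro p
      rw [ej]
      by_cases h3U : 3 ∈ U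
      · rw [if_pos h3U]
        have e : U3 U = U.erase 3 := by
          ext x
          unfold U3
          rw [mem_filter, mem_erase]
          tauto
        rw [e, add_comm]
        exact (add_sum_erase U (fun u => v u * lam p u) h3U).symm
      · rw [if_neg h3U, zero_mul, add_zero]
        have e : U3 U = U := by
          unfold U3
          rw [filter_eq_self]
          intro x hx hx3
          exact h3U (hx3 ▸ hx)
        rw [e]
    refine ⟨false, v, ?_, ?_⟩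
    · by_cases hu3 : u = 3
      · right
        subst hu3
        rw [ej, if_pos hu]
        exact hv
      · left
        refine ⟨u, ?_, hv⟩
        rw [e3]
        exact mem_filter.2 ⟨hu, hu3⟩
    · have : (L.filter fun p => ExC (chV U false v) p) = ∅ := by
        rw [filter_eq_empty_iff]
        intro p hp hE
        apply hE
        have hp1 := (hT p hp).2
        have hpS : p ∉ U := fun h' => disjoint_left.1 hd h' hp
        obtain ⟨e1, e2⟩ := chV_val hL h3 hU false v (hT p hp).1 hp1 hpS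
        rw [e3] at e1 e2
        have h0 := h2 p hp hp1
        rw [hsum] at h0
        simp only [Bool.false_eq_true, if_false] at e1 e2
        rw [h0, ez_zero] at e1
        have h4 : (∑ u ∈ U3 U, v u * -lam p u) + -(jx U false v * lam p 3) = 0 := by
          have h5 : ∑ u ∈ U3 U, v u * -lam p u = -∑ u ∈ U3 U, v u * lam p u := by
            simp only [mul_neg, sum_neg_distrib]
          rw [h5, ← neg_add, h0, neg_zero]
        rw [h4, ez_zero] at e2
        exact ⟨e1, e2⟩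
      rw [this]
      simp

/-- only the values on the set matter -/
lemma chV_xt (U : Finset ℕ) (b : Bool) (v : ℕ → ZMod 3) :
    chV U b (xt U fun u => v u) = chV U b v ∧ (ntV U b (xt U fun u => v u) ↔ ntV U b v) := by
  have key : ∀ u ∈ U, xt U (fun u => v u) u = v u := by
    intro u hu
    unfold xt
    rw [dif_pos hu]
  have hj : jx U b (xt U fun u => v u) = jx U b v := by
    unfold jx
    split_ifs with h1 h2
    · rfl
    · exact key 3 h2
    · rfl
  have hs : ∀ u ∈ Sf b (U3 U), xt U (fun u => v u) u = v u := fun u hu =>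
    key u (mem_filter.1 (mem_Sf hu)).1
  have hA : AA (Sf b (U3 U)) (Pf b (xt U fun u => v u)) = AA (Sf b (U3 U)) (Pf b v) := by
    apply AA_congr
    intro u hu
    unfold Pf
    rw [hs u hu]
  have hB : AA (Sf b (U3 U)) (Qf b (xt U fun u => v u)) = AA (Sf b (U3 U)) (Qf b v) := by
    apply AA_congr
    intro u hu
    unfold Qf
    rw [hs u hu]
  refine ⟨?_, ?_⟩
  · unfold chV
    rw [hA, hB, hj]
  · unfold ntV
    rw [hj]
    refine or_congr ?_ Iff.rfl
    constructor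
    · rintro ⟨u, hu, h⟩
      exact ⟨u, hu, by rwa [hs u hu] at h⟩
    · rintro ⟨u, hu, h⟩
      exact ⟨u, hu, by rwa [hs u hu]⟩

/-- the character is admissible -/
lemma chV_ok (hL : LamP) {U : Finset ℕ} (hU : ∀ u ∈ U, u.Prime) (b : Bool) (v : ℕ → ZMod 3)
    (hn : ntV U b v) : CH (chV U b v) ∧ Bd (chV U b v)
      (9 * (nrm (AA (Sf b (U3 U)) (Pf b v)) * nrm (AA (Sf b (U3 U)) (Qf b v)))) := by
  have hdP := dtP hL (U3_spec hU) b v
  have hdQ := dtQ hL (U3_spec hU) b v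
  refine ⟨xj_ch hdP.ps hdQ.ps _, xj_bd hdP.ps hdQ.ps ?_⟩
  rcases hn with ⟨u, hu, h⟩ | h
  · left
    exact hdP.ne hdQ hu (PQ_ne hL (U3_spec hU) b v hu h)
  · exact Or.inr h

/-- the sets with degenerate labels and given small part -/
theorem fiberC (hL : LamP) (h3 : L3) (T : Finset ℕ) (hT : ∀ t ∈ T, t.Prime) (X z : ℕ)
    (hTz : ∀ t ∈ T, t ≤ z) {S₀ : Finset ℕ} (hS₀ : ∀ u ∈ S₀, u.Prime) :
    wt ((SP X).filter fun S => ¬ Nd (T ∪ sm z S) (la z S) ∧ sm z S = S₀) ≤
      2 ^ S₀.card * ∑ t : Bool × ((T ∪ S₀ : Finset ℕ) → ZMod 3),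
        if ntV (T ∪ S₀) t.1 (xt (T ∪ S₀) t.2) then
          wt (famC (chV (T ∪ S₀) t.1 (xt (T ∪ S₀) t.2)) (X / ∏ p ∈ S₀, p)) else 0 := by
  set U := T ∪ S₀ with hU
  have hUp : ∀ u ∈ U, u.Prime := by
    intro u hu
    rw [hU, mem_union] at hu
    rcases hu with h | h
    · exact hT u h
    · exact hS₀ u h
  set F := (SP X).filter fun S => ¬ Nd (T ∪ sm z S) (la z S) ∧ sm z S = S₀ with hF
  set PW := (univ : Finset (Bool × (U → ZMod 3))).filter
    fun t => ntV U t.1 (xt U t.2) with hPW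
  have key : ∀ S : Finset ℕ, sm z S ∪ la z S = S := fun S => filter_union_filter_not_eq _ _
  have hcard : ∀ S ∈ F, (2 : ℝ) ^ S.card = 2 ^ S₀.card * 2 ^ (la z S).card := by
    intro S hS
    rw [← pow_add]
    congr 1
    have h1 : (sm z S).card + (la z S).card = S.card := Finset.card_filter_add_card_filter_not _
    rw [hF, mem_filter] at hS
    rw [hS.2.2] at h1
    exact h1.symm
  have hmem : ∀ S ∈ F, la z S ∈ PW.biUnion fun t => famC (chV U t.1 (xt U t.2))
      (X / ∏ p ∈ S₀, p) := by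
    intro S hS
    rw [hF, mem_filter, mem_SP] at hS
    obtain ⟨⟨h1, h2⟩, h5, h6⟩ := hS
    have hla : ∀ p ∈ la z S, p.Prime ∧ p % 3 = 1 := fun p hp => h1 p (mem_filter.1 hp).1
    rw [h6, ← hU] at h5
    have hd : Disjoint U (la z S) := by
      rw [disjoint_left]
      intro p hp hp'
      have h7 := (mem_filter.1 hp').2
      rw [hU, mem_union] at hp
      rcases hp with h | h
      · exact h7 (hTz p h)
      · rw [← h6] at h
        exact h7 (mem_filter.1 h).2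
    obtain ⟨b, v, hn, hc⟩ := notNd hL h3 hUp hla hd h5
    obtain ⟨e1, e2⟩ := chV_xt U b v
    rw [mem_biUnion]
    refine ⟨(b, fun u => v u), ?_, ?_⟩
    · rw [hPW, mem_filter]
      exact ⟨mem_univ _, e2.2 hn⟩
    · simp only
      rw [e1, famC, mem_filter, mem_powerset]
      have hN : 0 < ∏ p ∈ S₀, p := prod_pos_of fun p hp => hS₀ p hp
      have hprod : ∏ p ∈ la z S, p ≤ X / ∏ p ∈ S₀, p := by
        rw [Nat.le_div_iff_mul_le hN, mul_comm, ← h6]
        have : (∏ p ∈ sm z S, p) * ∏ p ∈ la z S, p = ∏ p ∈ S, p :=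
          prod_filter_mul_prod_filter_not _ _ _
        rw [this]
        exact h2
      exact ⟨sub_range (fun p hp => (hla p hp).1) hprod, hla, hc, hprod⟩
  have hinj : ∀ S ∈ F, ∀ S' ∈ F, la z S = la z S' → S = S' := by
    intro S hS S' hS' h
    rw [hF, mem_filter] at hS hS'
    rw [← key S, ← key S', hS.2.2, hS'.2.2, h]
  have h1 : wt F = 2 ^ S₀.card * ∑ S ∈ F, (2 : ℝ) ^ (la z S).card := by
    unfold wt
    rw [sum_congr rfl hcard, ← mul_sum]
  rw [h1, ← sum_filter, ← hPW]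
  refine mul_le_mul_of_nonneg_left ?_ (by positivity)
  have h2 : ∑ S ∈ F, (2 : ℝ) ^ (la z S).card = ∑ T ∈ F.image (la z), (2 : ℝ) ^ T.card := by
    rw [sum_image]
    intro S hS T hT h
    exact hinj S hS T hT h
  rw [h2]
  have h4 : F.image (la z) ⊆ PW.biUnion fun t => famC (chV U t.1 (xt U t.2))
      (X / ∏ p ∈ S₀, p) := by
    intro T hT
    rw [mem_image] at hT
    obtain ⟨S, hS, rfl⟩ := hT
    exact hmem S hS
  refine (sum_le_sum_of_subset_of_nonneg h4 fun _ _ _ => by positivity).trans ?_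
  have h5 : ∀ (A : Finset (Bool × (U → ZMod 3))) (g : Bool × (U → ZMod 3) → Finset (Finset ℕ)),
      ∑ T ∈ A.biUnion g, (2 : ℝ) ^ T.card ≤ ∑ W ∈ A, wt (g W) := by
    intro A g
    induction A using Finset.induction_on with
    | empty => simp
    | insert a s ha ih =>
      rw [biUnion_insert, sum_insert ha]
      exact (wt_union _ _).trans (add_le_add le_rfl ih)
  exact h5 _ _

/-- the parameters, for large `X` -/
theorem params (c : ℝ) (t : ℕ) : ∀ᶠ X : ℕ in atTop, 3 ≤ X ∧ 2 ≤ eL X ∧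
    1 < Real.log X ∧ 33 * (eL X) ^ 4 + 3 ≤ Real.log X ∧ t ≤ kk X ∧
    (eL X) ^ 26 * (1 + (eL X + c)) ^ 2 ≤ Real.log X ^ (1 / 12 : ℝ) := by
  have h0 := eL_tendsto
  have hfin : ∀ᶠ s : ℝ in atTop, s ^ 26 * (1 + (s + c)) ^ 2 ≤ Real.exp (s / 12) := by
    filter_upwards [ev_pow 28 (show (0 : ℝ) < 9 by norm_num) (show (0 : ℝ) < 12 by norm_num),
      eventually_ge_atTop 1, eventually_ge_atTop |c|] with s h1 h2 h3
    refine le_trans ?_ h1
    have h4 : |1 + (s + c)| ≤ 3 * s := by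
      rw [abs_le]
      have := (abs_le.1 (le_refl |c|))
      constructor <;> linarith [this.1, this.2]
    have h5 : (1 + (s + c)) ^ 2 ≤ (3 * s) ^ 2 := by
      rw [← sq_abs]
      exact pow_le_pow_left₀ (abs_nonneg _) h4 2
    calc s ^ 26 * (1 + (s + c)) ^ 2 ≤ s ^ 26 * (3 * s) ^ 2 := by gcongr
      _ = 9 * s ^ 28 := by ring
  have h1 := h0.eventually hfin
  have h2 := h0.eventually (ev_pow 4 (show (0 : ℝ) < 36 by norm_num) (show (0 : ℝ) < 1 by norm_num))
  have h4 := (Real.tendsto_log_atTop.comp tendsto_natCast_atTop_atTop).eventually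
    (eventually_gt_atTop (1 : ℝ))
  filter_upwards [h1, h2, ev_eL 2, h4, eventually_ge_atTop 3, ev_eL t] with X k1 k2 k3 k4 k5 k6
  have hl0 : 0 < eL X := by linarith
  have hX := logX_eq hl0
  refine ⟨k5, k3, k4, ?_, ?_, ?_⟩
  · rw [div_one, ← hX] at k2
    have : (1 : ℝ) ≤ (eL X) ^ 4 := one_le_pow₀ (by linarith)
    linarith
  · have h7 := kk_ge X
    have h8 : (t : ℝ) ≤ kk X := by linarith
    exact_mod_cast h8
  · refine k1.trans (le_of_eq ?_)
    rw [hX, ← Real.exp_mul]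
    congr 1
    ring

end Run7.h238.C
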