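import Pool.Agent.Run7.h238.C.EPairs

/-!
# The number of the pairs with `a² + a b + b² ≤ X`, in residue classes
-/

set_option autoImplicit false

open scoped Classical

namespace Run7.h238.C.ED

open Finset Filter MeasureTheory
open scoped Pointwise
open Run7.h238.C.EP

/-- the ellipse -/
def dsc : Set (Fin 2 → ℝ) := {x | x 0 ^ 2 + x 0 * x 1 + x 1 ^ 2 ≤ 1}

theorem dsc_closed : IsClosed dsc := by
  unfold dsc
  exact isClosed_le (by fun_prop) continuous_const

theorem dsc_bdd : Bornology.IsBounded dsc := by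
  refine (Metric.isBounded_closedBall (x := (0 : Fin 2 → ℝ)) (r := 2)).subset ?_
  intro x hx
  have hx' : x 0 ^ 2 + x 0 * x 1 + x 1 ^ 2 ≤ 1 := hx
  rw [mem_closedBall_zero_iff, pi_norm_le_iff_of_nonneg zero_le_two]
  intro i
  rw [Real.norm_eq_abs]
  have h0 : |x 0| ≤ 2 := by
    rw [abs_le]
    constructor <;> nlinarith [sq_nonneg (2 * x 1 + x 0)]
  have h1 : |x 1| ≤ 2 := by
    rw [abs_le]
    constructor <;> nlinarith [sq_nonneg (2 * x 0 + x 1)]
  fin_cases i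
  · exact h0
  · exact h1

theorem dsc_convex : Convex ℝ dsc := by
  intro x hx y hy a b ha hb hab
  have hx' : x 0 ^ 2 + x 0 * x 1 + x 1 ^ 2 ≤ 1 := hx
  have hy' : y 0 ^ 2 + y 0 * y 1 + y 1 ^ 2 ≤ 1 := hy
  show (a • x + b • y) 0 ^ 2 + (a • x + b • y) 0 * (a • x + b • y) 1 + (a • x + b • y) 1 ^ 2 ≤ 1
  simp only [Pi.add_apply, Pi.smul_apply, smul_eq_mul]
  have hb' : b = 1 - a := by linarith
  subst hb'
  have h2 : 0 ≤ (x 0 - y 0) ^ 2 + (x 0 - y 0) * (x 1 - y 1) + (x 1 - y 1) ^ 2 := by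
    nlinarith [sq_nonneg (x 0 - y 0 + (x 1 - y 1)), sq_nonneg (x 0 - y 0), sq_nonneg (x 1 - y 1)]
  have h1 : 0 ≤ a * (1 - a) * ((x 0 - y 0) ^ 2 + (x 0 - y 0) * (x 1 - y 1) + (x 1 - y 1) ^ 2) := by
    positivity
  nlinarith

theorem dsc_frontier : volume (frontier dsc) = 0 := dsc_convex.addHaar_frontier volume

theorem dsc_ball : Metric.ball (0 : Fin 2 → ℝ) (1 / 2) ⊆ dsc := by
  intro x hx
  rw [mem_ball_zero_iff, pi_norm_lt_iff (by norm_num)] at hx
  have h0 := hx 0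
  have h1 := hx 1
  rw [Real.norm_eq_abs, abs_lt] at h0 h1
  show x 0 ^ 2 + x 0 * x 1 + x 1 ^ 2 ≤ 1
  nlinarith

/-- the area -/
noncomputable def ar : ℝ := volume.real dsc

theorem ar_pos : 0 < ar := by
  unfold ar
  have h1 : 0 < volume (Metric.ball (0 : Fin 2 → ℝ) (1 / 2)) :=
    Metric.measure_ball_pos volume _ (by norm_num)
  have h2 : 0 < volume dsc := h1.trans_le (measure_mono dsc_ball)
  exact ENNReal.toReal_pos h2.ne' dsc_bdd.measure_lt_top.ne

theorem dsc_mono ⦃x y : ℝ⦄ (hx : 0 < x) (hxy : x ≤ y) : x • dsc ⊆ y • dsc := by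
  rintro _ ⟨v, hv, rfl⟩
  have hy : 0 < y := hx.trans_le hxy
  have hv' : v 0 ^ 2 + v 0 * v 1 + v 1 ^ 2 ≤ 1 := hv
  refine ⟨(x / y) • v, ?_, ?_⟩
  · show ((x / y) • v) 0 ^ 2 + ((x / y) • v) 0 * ((x / y) • v) 1 + ((x / y) • v) 1 ^ 2 ≤ 1
    simp only [Pi.smul_apply, smul_eq_mul]
    have h1 : (x / y) ^ 2 ≤ 1 := by
      have h2 : x / y ≤ 1 := (div_le_one hy).2 hxy
      have h3 : 0 ≤ x / y := by positivity
      nlinarith
    have h4 : 0 ≤ v 0 ^ 2 + v 0 * v 1 + v 1 ^ 2 := by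
      nlinarith [sq_nonneg (v 0 + v 1), sq_nonneg (v 0), sq_nonneg (v 1)]
    calc (x / y * v 0) ^ 2 + x / y * v 0 * (x / y * v 1) + (x / y * v 1) ^ 2 =
        (x / y) ^ 2 * (v 0 ^ 2 + v 0 * v 1 + v 1 ^ 2) := by ring
      _ ≤ 1 * 1 := mul_le_mul h1 hv' h4 zero_le_one
      _ = 1 := one_mul 1
  · simp only [smul_smul]
    rw [mul_div_cancel₀ _ hy.ne']

/-- the points of the lattice -/
theorem card_eq {X : ℕ} (hX : 1 ≤ X) :
    Nat.card ↑(dsc ∩ (Real.sqrt X)⁻¹ • (Submodule.span ℤ (Set.range (Pi.basisFun ℝ (Fin 2))) :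
      Set (Fin 2 → ℝ))) = (Be X).card := by
  have hX0 : (0 : ℝ) < X := by exact_mod_cast hX
  have hs : 0 < Real.sqrt X := Real.sqrt_pos.2 hX0
  have hsq : Real.sqrt X ^ 2 = X := Real.sq_sqrt hX0.le
  have hnm : ∀ v : ℤ × ℤ, ((en v : ℕ) : ℝ) = (v.1 : ℝ) ^ 2 + (v.1 : ℝ) * (v.2 : ℝ) +
      (v.2 : ℝ) ^ 2 := by
    intro v
    have h1 := en_int v
    exact_mod_cast congrArg (fun z : ℤ => (z : ℝ)) h1
  rw [Nat.card_coe_set_eq, ← Set.ncard_coe_finset]
  symm
  refine Set.ncard_congr (fun v _ => (Real.sqrt X)⁻¹ • ![(v.1 : ℝ), (v.2 : ℝ)]) ?_ ?_ ?_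
  · intro v hv
    rw [mem_coe, mem_Be] at hv
    refine ⟨?_, ?_⟩
    · show ((Real.sqrt X)⁻¹ • ![(v.1 : ℝ), (v.2 : ℝ)]) 0 ^ 2 +
        ((Real.sqrt X)⁻¹ • ![(v.1 : ℝ), (v.2 : ℝ)]) 0 *
        ((Real.sqrt X)⁻¹ • ![(v.1 : ℝ), (v.2 : ℝ)]) 1 +
        ((Real.sqrt X)⁻¹ • ![(v.1 : ℝ), (v.2 : ℝ)]) 1 ^ 2 ≤ 1
      simp only [Pi.smul_apply, smul_eq_mul, Matrix.cons_val_zero, Matrix.cons_val_one]
      have h1 : ((en v : ℕ) : ℝ) ≤ X := by exact_mod_cast hv
      rw [hnm] at h1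
      have e : ((Real.sqrt X)⁻¹ * (v.1 : ℝ)) ^ 2 + (Real.sqrt X)⁻¹ * (v.1 : ℝ) *
          ((Real.sqrt X)⁻¹ * (v.2 : ℝ)) + ((Real.sqrt X)⁻¹ * (v.2 : ℝ)) ^ 2 =
          (Real.sqrt X ^ 2)⁻¹ * ((v.1 : ℝ) ^ 2 + (v.1 : ℝ) * (v.2 : ℝ) + (v.2 : ℝ) ^ 2) := by
        rw [← inv_pow]
        ring
      rw [e, hsq, inv_mul_le_iff₀ hX0, mul_one]
      exact h1
    · rw [Set.smul_mem_smul_set_iff₀ (inv_ne_zero hs.ne')]
      rw [SetLike.mem_coe, Module.Basis.mem_span_iff_repr_mem]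
      intro i
      fin_cases i
      · exact ⟨v.1, by simp⟩
      · exact ⟨v.2, by simp⟩
  · intro v w _ _ h
    have h1 := smul_right_injective (Fin 2 → ℝ) (inv_ne_zero hs.ne') h
    have h2 := congrFun h1 0
    have h3 := congrFun h1 1
    simp only [Matrix.cons_val_zero, Matrix.cons_val_one] at h2 h3
    exact Prod.ext (by exact_mod_cast h2) (by exact_mod_cast h3)
  · rintro x ⟨hx, hL⟩
    obtain ⟨y, hy, rfl⟩ := hL
    rw [SetLike.mem_coe, Module.Basis.mem_span_iff_repr_mem] at hy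
    obtain ⟨a, ha⟩ := hy 0
    obtain ⟨b, hb⟩ := hy 1
    simp only [Pi.basisFun_repr] at ha hb
    have ha' : y 0 = (a : ℝ) := by rw [← ha]; rfl
    have hb' : y 1 = (b : ℝ) := by rw [← hb]; rfl
    refine ⟨(a, b), ?_, ?_⟩
    · rw [mem_coe, mem_Be]
      have hx' : ((Real.sqrt X)⁻¹ • y) 0 ^ 2 + ((Real.sqrt X)⁻¹ • y) 0 * ((Real.sqrt X)⁻¹ • y) 1 +
        ((Real.sqrt X)⁻¹ • y) 1 ^ 2 ≤ 1 := hx
      simp only [Pi.smul_apply, smul_eq_mul] at hx'
      have e : ((Real.sqrt X)⁻¹ * y 0) ^ 2 + (Real.sqrt X)⁻¹ * y 0 *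
          ((Real.sqrt X)⁻¹ * y 1) + ((Real.sqrt X)⁻¹ * y 1) ^ 2 =
          (Real.sqrt X ^ 2)⁻¹ * (y 0 ^ 2 + y 0 * y 1 + y 1 ^ 2) := by
        rw [← inv_pow]
        ring
      rw [e, hsq, inv_mul_le_iff₀ hX0, mul_one, ha', hb'] at hx'
      have h1 := hnm (a, b)
      simp only at h1
      rw [← h1] at hx'
      exact_mod_cast hx'
    · simp only
      congr 1
      funext i
      fin_cases i
      · exact ha'.symm
      · exact hb'.symm

/-- **the number of the pairs** -/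
theorem card_tendsto : Tendsto (fun X : ℕ => ((Be X).card : ℝ) / X) atTop (nhds ar) := by
  have h := tendsto_card_div_pow_atTop_volume' dsc dsc_bdd dsc_closed.measurableSet dsc_frontier
    dsc_mono
  have h2 : Tendsto (fun X : ℕ => Real.sqrt X) atTop atTop :=
    Real.tendsto_sqrt_atTop.comp tendsto_natCast_atTop_atTop
  refine (h.comp h2).congr' ?_
  filter_upwards [eventually_ge_atTop 1] with X hX
  simp only [Function.comp]
  rw [card_eq hX, Fintype.card_fin, Real.sq_sqrt (Nat.cast_nonneg X)]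

/-- an upper bound -/
theorem card_le : ∃ C : ℝ, 0 < C ∧ ∀ X : ℕ, 1 ≤ X → ((Be X).card : ℝ) ≤ C * X := by
  obtain ⟨C, hC⟩ := card_tendsto.bddAbove_range
  refine ⟨max C 1, by positivity, fun X hX => ?_⟩
  have hX0 : (0 : ℝ) < X := by exact_mod_cast hX
  have h1 : ((Be X).card : ℝ) / X ≤ C := hC ⟨X, rfl⟩
  rw [div_le_iff₀ hX0] at h1
  exact h1.trans (mul_le_mul_of_nonneg_right (le_max_left _ _) hX0.le)

/-- the total weight -/
theorem hcard : ∃ CT : ℝ, 0 < CT ∧ ∀ X : ℕ, Run7.h238.WFew.wt (SP X) ≤ CT * X := by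
  obtain ⟨C, hC, h⟩ := card_le
  refine ⟨C, hC, fun X => ?_⟩
  rcases Nat.eq_zero_or_pos X with rfl | hX
  · have : SP 0 = ∅ := by
      rw [eq_empty_iff_forall_notMem]
      intro S hS
      rw [mem_SP] at hS
      have := prod_pos fun p hp => (hS.1 p hp).1.pos
      omega
    rw [this]
    unfold Run7.h238.WFew.wt
    simp
  · have h1 := wt_le X
    have h2 := h X hX
    have h3 := Run7.h238.WFew.wt_nonneg (SP X)
    linarith

/-! ### residue classes modulo nine -/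

/-- the class of a pair -/
def cl (v : ℤ × ℤ) : ZMod 9 × ZMod 9 := ((v.1 : ZMod 9), (v.2 : ZMod 9))

/-- the pairs in a class -/
noncomputable def Nr (r : ZMod 9 × ZMod 9) (X : ℕ) : ℕ := ((Be X).filter fun v => cl v = r).card

theorem sum_Nr (X : ℕ) : ∑ r, Nr r X = (Be X).card := by
  unfold Nr
  exact (card_eq_sum_card_fiberwise (f := cl) (s := Be X) (t := univ) (fun _ _ => mem_univ _)).symm

/-- the width -/
def wd (X : ℕ) : ℕ := 100 * (Nat.sqrt X + 1) + 200

theorem shift {X Y : ℕ} (h : X + wd X ≤ Y) (r r' : ZMod 9 × ZMod 9) : Nr r X ≤ Nr r' Y := by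
  unfold Nr
  -- a small representative of the difference
  obtain ⟨i, hi0, hi8, hi⟩ : ∃ i : ℤ, 0 ≤ i ∧ i ≤ 8 ∧ (i : ZMod 9) = r'.1 - r.1 := by
    refine ⟨((r'.1 - r.1).val : ℤ), by positivity, ?_, ?_⟩
    · have := ZMod.val_lt (r'.1 - r.1)
      omega
    · simp
  obtain ⟨j, hj0, hj8, hj⟩ : ∃ j : ℤ, 0 ≤ j ∧ j ≤ 8 ∧ (j : ZMod 9) = r'.2 - r.2 := by
    refine ⟨((r'.2 - r.2).val : ℤ), by positivity, ?_, ?_⟩
    · have := ZMod.val_lt (r'.2 - r.2)
      omega
    · simp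
  refine card_le_card_of_injOn (fun v => (v.1 + i, v.2 + j)) ?_ ?_
  · intro v hv
    rw [mem_coe, mem_filter, mem_Be] at hv
    obtain ⟨h1, h2⟩ := hv
    rw [mem_coe, mem_filter, mem_Be]
    refine ⟨?_, ?_⟩
    · have k1 : ((en v : ℕ) : ℤ) ≤ X := by exact_mod_cast h1
      have k2 : ((en (v.1 + i, v.2 + j) : ℕ) : ℤ) ≤ Y := by
        rw [en_int]
        simp only
        rw [en_int] at k1
        set s : ℤ := (Nat.sqrt X : ℤ) + 1 with hs
        have hs1 : (X : ℤ) ≤ s ^ 2 := by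
          have := Nat.lt_succ_sqrt' X
          have h3 : ((X : ℕ) : ℤ) < ((Nat.succ (Nat.sqrt X)) ^ 2 : ℕ) := by exact_mod_cast this
          rw [hs]
          push_cast at h3
          exact h3.le
        have hs0 : 0 < s := by positivity
        have hw : (X : ℤ) + (100 * s + 200) ≤ Y := by
          have h3 : (((X + wd X : ℕ)) : ℤ) ≤ Y := by exact_mod_cast h
          unfold wd at h3
          push_cast at h3
          exact h3
        have a1 : v.1 ≤ 2 * s := by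
          by_contra hc
          push Not at hc
          nlinarith [sq_nonneg (2 * v.2 + v.1)]
        have b1 : v.2 ≤ 2 * s := by
          by_contra hc
          push Not at hc
          nlinarith [sq_nonneg (2 * v.1 + v.2)]
        have e1 : (v.1 + i) ^ 2 + (v.1 + i) * (v.2 + j) + (v.2 + j) ^ 2 =
            (v.1 ^ 2 + v.1 * v.2 + v.2 ^ 2) + (2 * v.1 + v.2) * i + (v.1 + 2 * v.2) * j +
            (i ^ 2 + i * j + j ^ 2) := by ring
        rw [e1]
        have e2 : (2 * v.1 + v.2) * i ≤ 6 * s * i :=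
          mul_le_mul_of_nonneg_right (by linarith) hi0
        have e3 : (v.1 + 2 * v.2) * j ≤ 6 * s * j :=
          mul_le_mul_of_nonneg_right (by linarith) hj0
        have e4 : 6 * s * i ≤ 48 * s := by nlinarith
        have e5 : 6 * s * j ≤ 48 * s := by nlinarith
        have e6 : i ^ 2 + i * j + j ^ 2 ≤ 192 := by nlinarith
        nlinarith
      exact_mod_cast k2
    · unfold cl at h2 ⊢
      simp only
      push_cast
      rw [hi, hj, ← h2]
      simp
  · intro v _ w _ hvw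
    simp only [Prod.mk.injEq] at hvw
    exact Prod.ext (by omega) (by omega)

theorem wd_tendsto : Tendsto (fun X : ℕ => ((wd X : ℕ) : ℝ) / X) atTop (nhds 0) := by
  have h1 : Tendsto (fun X : ℕ => 100 * (1 / Real.sqrt X) + 300 * (1 / (X : ℝ))) atTop
      (nhds (100 * 0 + 300 * 0)) := by
    refine Tendsto.add (Tendsto.const_mul _ ?_) (Tendsto.const_mul _ ?_)
    · simp only [one_div]
      exact (Real.tendsto_sqrt_atTop.comp tendsto_natCast_atTop_atTop).inv_tendsto_atTop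
    · exact tendsto_one_div_atTop_nhds_zero_nat
  rw [mul_zero, mul_zero, add_zero] at h1
  refine squeeze_zero' (Eventually.of_forall fun X => by positivity) ?_ h1
  filter_upwards [eventually_ge_atTop 1] with X hX
  have hX0 : (0 : ℝ) < X := by exact_mod_cast hX
  have hs : 0 < Real.sqrt X := Real.sqrt_pos.2 hX0
  have h2 : ((Nat.sqrt X : ℕ) : ℝ) ≤ Real.sqrt X := Real.nat_sqrt_le_real_sqrt
  rw [div_le_iff₀ hX0]
  unfold wd
  push_cast
  have h3 : Real.sqrt X * Real.sqrt X = X := Real.mul_self_sqrt hX0.le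
  have e : (100 * (1 / Real.sqrt X) + 300 * (1 / (X : ℝ))) * X = 100 * Real.sqrt X + 300 := by
    field_simp
    nlinarith
  rw [e]
  linarith

/-- **the number of the pairs in a class** -/
theorem Nr_tendsto (r : ZMod 9 × ZMod 9) :
    Tendsto (fun X : ℕ => (Nr r X : ℝ) / X) atTop (nhds (ar / 81)) := by
  have hsum : ∀ X : ℕ, ((∑ r', Nr r' X : ℕ) : ℝ) = ((Be X).card : ℝ) := fun X => by
    rw [sum_Nr]
  have hcard : (univ : Finset (ZMod 9 × ZMod 9)).card = 81 := by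
    rw [Finset.card_univ, Fintype.card_prod, ZMod.card]
  -- upper bound
  have hup : ∀ X : ℕ, (Nr r X : ℝ) ≤ ((Be (X + wd X)).card : ℝ) / 81 := by
    intro X
    rw [le_div_iff₀ (by norm_num), ← hsum]
    have h1 : ∑ _ : ZMod 9 × ZMod 9, Nr r X ≤ ∑ r', Nr r' (X + wd X) :=
      sum_le_sum fun r' _ => shift le_rfl r r'
    rw [sum_const, hcard, smul_eq_mul] at h1
    have h2 : ((81 * Nr r X : ℕ) : ℝ) ≤ ((∑ r', Nr r' (X + wd X) : ℕ) : ℝ) := by exact_mod_cast h1
    push_cast at h2 ⊢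
    linarith
  -- lower bound
  have hwm : ∀ {X Y : ℕ}, X ≤ Y → wd X ≤ wd Y := by
    intro X Y h
    unfold wd
    have := Nat.sqrt_le_sqrt h
    omega
  have hlo : ∀ X : ℕ, wd X ≤ X → ((Be (X - wd X)).card : ℝ) / 81 ≤ (Nr r X : ℝ) := by
    intro X hX
    rw [div_le_iff₀ (by norm_num), ← hsum]
    have h1 : ∑ r', Nr r' (X - wd X) ≤ ∑ _ : ZMod 9 × ZMod 9, Nr r X :=
      sum_le_sum fun r' _ => shift (by
        have := hwm (Nat.sub_le X (wd X))
        omega) r' r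
    rw [sum_const, hcard, smul_eq_mul] at h1
    have h2 : ((∑ r', Nr r' (X - wd X) : ℕ) : ℝ) ≤ ((81 * Nr r X : ℕ) : ℝ) := by exact_mod_cast h1
    push_cast at h2 ⊢
    linarith
  have hw := wd_tendsto
  have hev : ∀ᶠ X : ℕ in atTop, wd X ≤ X := by
    have h1 := hw.eventually (gt_mem_nhds (show (0 : ℝ) < 1 by norm_num))
    filter_upwards [h1, eventually_ge_atTop 1] with X h2 h3
    have hX0 : (0 : ℝ) < X := by exact_mod_cast h3
    rw [div_lt_one hX0] at h2
    have : (wd X : ℝ) ≤ X := h2.le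
    exact_mod_cast this
  -- the limits of the bounds
  have hU : Tendsto (fun X : ℕ => ((Be (X + wd X)).card : ℝ) / 81 / X) atTop (nhds (ar / 81)) := by
    have h1 : Tendsto (fun X : ℕ => X + wd X) atTop atTop :=
      tendsto_atTop_mono (fun X => Nat.le_add_right X (wd X)) tendsto_id
    have h2 := card_tendsto.comp h1
    have h3 : Tendsto (fun X : ℕ => 1 + (wd X : ℝ) / X) atTop (nhds (1 + 0)) := hw.const_add 1
    have h4 := (h2.mul h3).div_const 81
    rw [add_zero, mul_one] at h4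
    refine h4.congr' ?_
    filter_upwards [eventually_ge_atTop 1] with X hX
    have hX0 : (0 : ℝ) < X := by exact_mod_cast hX
    simp only [Function.comp]
    rw [Nat.cast_add]
    have h5 : (0 : ℝ) < (X : ℝ) + (wd X : ℝ) := by positivity
    generalize ((Be (X + wd X)).card : ℝ) = c
    generalize (wd X : ℝ) = w at h5 ⊢
    field_simp
  have hL : Tendsto (fun X : ℕ => ((Be (X - wd X)).card : ℝ) / 81 / X) atTop (nhds (ar / 81)) := by
    have h3 : Tendsto (fun X : ℕ => 1 - (wd X : ℝ) / X) atTop (nhds (1 - 0)) := hw.const_sub 1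
    rw [sub_zero] at h3
    have h1 : Tendsto (fun X : ℕ => X - wd X) atTop atTop := by
      rw [← tendsto_natCast_atTop_iff (R := ℝ)]
      have h6 : Tendsto (fun X : ℕ => (1 - (wd X : ℝ) / X) * X) atTop atTop :=
        h3.pos_mul_atTop zero_lt_one tendsto_natCast_atTop_atTop
      refine h6.congr' ?_
      filter_upwards [hev, eventually_ge_atTop 1] with X hX h1
      have hX0 : (0 : ℝ) < X := by exact_mod_cast h1
      rw [Nat.cast_sub hX]
      field_simp
    have h2 := card_tendsto.comp h1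
    have h4 := (h2.mul h3).div_const 81
    rw [mul_one] at h4
    refine h4.congr' ?_
    filter_upwards [eventually_ge_atTop 1, hev, h1.eventually (eventually_ge_atTop 1)] with X hX hX2 hX3
    have hX0 : (0 : ℝ) < X := by exact_mod_cast hX
    have hX4 : (0 : ℝ) < ((X - wd X : ℕ) : ℝ) := by exact_mod_cast hX3
    simp only [Function.comp]
    have e : 1 - (wd X : ℝ) / X = ((X - wd X : ℕ) : ℝ) / X := by
      rw [Nat.cast_sub hX2]
      field_simp
    rw [e]
    generalize ((Be (X - wd X)).card : ℝ) = c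
    generalize ((X - wd X : ℕ) : ℝ) = w at hX4 ⊢
    field_simp
  refine tendsto_of_tendsto_of_tendsto_of_le_of_le' hL hU ?_ ?_
  · filter_upwards [hev] with X hX
    exact div_le_div_of_nonneg_right (hlo X hX) (Nat.cast_nonneg X)
  · exact Eventually.of_forall fun X => div_le_div_of_nonneg_right (hup X) (Nat.cast_nonneg X)

end Run7.h238.C.ED
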