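import Pool.Agent.Run7.h238.C.ERep
import Pool.Agent.Run7.h238.C.Law
import Pool.Agent.Run7.h238.Pairs

/-!
# Coprime pairs of integers, ordered by `a² + a b + b²`, and sets of primes
-/

set_option autoImplicit false

open scoped Classical

namespace Run7.h238.C.EP

open Finset
open Pool.Agent.Y692.QS (Ei nr int_dvd)
open Run7.h238.C.ERep
open Run7.h238.Pairs (gc mu gc_mu mu_inj exists_mu fact_prod prod_ne)

/-- the norm of a pair -/
def en (v : ℤ × ℤ) : ℕ := (v.1 ^ 2 + v.1 * v.2 + v.2 ^ 2).toNat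

theorem en_int (v : ℤ × ℤ) : ((en v : ℕ) : ℤ) = v.1 ^ 2 + v.1 * v.2 + v.2 ^ 2 := by
  unfold en
  rw [Int.toNat_of_nonneg]
  nlinarith [sq_nonneg (v.1 + v.2), sq_nonneg v.1, sq_nonneg v.2]

/-- the pairs of norm at most `X` -/
noncomputable def Be (X : ℕ) : Finset (ℤ × ℤ) :=
  ((Icc (-(2 * X : ℤ)) (2 * X)) ×ˢ (Icc (-(2 * X : ℤ)) (2 * X))).filter fun v => en v ≤ X

theorem mem_Be {X : ℕ} {v : ℤ × ℤ} : v ∈ Be X ↔ en v ≤ X := by
  unfold Be
  rw [mem_filter, mem_product, mem_Icc, mem_Icc]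
  refine ⟨fun h => h.2, fun h => ⟨?_, h⟩⟩
  have h' : ((en v : ℕ) : ℤ) ≤ X := by exact_mod_cast h
  rw [en_int] at h'
  have k1 : 3 * v.1 ^ 2 ≤ 4 * X := by nlinarith [sq_nonneg (2 * v.2 + v.1)]
  have k2 : 3 * v.2 ^ 2 ≤ 4 * X := by nlinarith [sq_nonneg (2 * v.1 + v.2)]
  have key : ∀ x : ℤ, 3 * x ^ 2 ≤ 4 * X → -(2 * X : ℤ) ≤ x ∧ x ≤ 2 * X := by
    intro x hx
    have hn : (0 : ℤ) ≤ X := Int.natCast_nonneg X
    constructor <;> nlinarith [sq_nonneg (x + 1), sq_nonneg (x - 1), sq_nonneg x]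
  exact ⟨key _ k1, key _ k2⟩

/-- the Eisenstein integer of a pair -/
def ei (v : ℤ × ℤ) : Ei := ⟨v.1, -v.2⟩

theorem nr_ei (v : ℤ × ℤ) : nr (ei v) = (en v : ℤ) := by
  rw [en_int]
  unfold nr ei
  ring

theorem mem_PR {n : ℕ} {v : ℤ × ℤ} : ei v ∈ PR n ↔ en v = n ∧ gc v = 1 := by
  unfold PR
  rw [Set.mem_ofPred_eq, nr_ei]
  refine and_congr Nat.cast_inj ?_
  have key : ∀ q : ℕ, ((q : Ei) ∣ ei v) ↔ q ∣ gc v := by
    intro q
    have h1 := int_dvd (n := (q : ℤ)) (α := ei v)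
    rw [Int.cast_natCast] at h1
    rw [h1]
    unfold gc ei
    simp only [dvd_neg]
    constructor
    · rintro ⟨h2, h3⟩
      exact_mod_cast Int.dvd_coe_gcd h2 h3
    · intro h2
      have h3 : (q : ℤ) ∣ (Int.gcd v.1 v.2 : ℤ) := by exact_mod_cast h2
      exact ⟨h3.trans (Int.gcd_dvd_left _ _), h3.trans (Int.gcd_dvd_right _ _)⟩
  constructor
  · intro h
    by_contra hne
    obtain ⟨q, hq, hd⟩ := Nat.exists_prime_and_dvd hne
    exact h q hq ((key q).2 hd)
  · intro h q hq hd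
    have h2 := (key q).1 hd
    rw [h] at h2
    exact hq.one_lt.ne' (Nat.dvd_one.1 h2)

theorem ei_inj : Function.Injective ei := by
  intro v w h
  unfold ei at h
  rw [QuadraticAlgebra.mk.injEq] at h
  exact Prod.ext h.1 (neg_injective h.2)

/-- the number of the primitive pairs of given norm -/
theorem card_prim {n : ℕ} (hn : n ≠ 0) (h : ∀ p ∈ n.primeFactors, p % 3 = 1) :
    ((Be n).filter fun v => en v = n ∧ gc v = 1).card = 6 * 2 ^ n.primeFactors.card := by
  rw [← card_PR n hn h, ← Set.ncard_coe_finset]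
  refine Set.ncard_congr (fun v _ => ei v) ?_ ?_ ?_
  · intro w hw
    rw [mem_coe, mem_filter] at hw
    exact mem_PR.2 hw.2
  · intro v w _ _ hvw
    exact ei_inj hvw
  · intro z hz
    have e : ei (z.re, -z.im) = z := by
      unfold ei
      simp
    refine ⟨(z.re, -z.im), ?_, e⟩
    have h1 := (mem_PR (n := n) (v := (z.re, -z.im))).1 (by rw [e]; exact hz)
    rw [mem_coe, mem_filter, mem_Be]
    exact ⟨h1.1.le, h1⟩

/-- the coprime pairs of norm prime to `3` -/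
noncomputable def PX (X : ℕ) : Finset (ℤ × ℤ) :=
  (Be X).filter fun v => gc v = 1 ∧ ¬ 3 ∣ en v

/-- all the prime factors are `1 mod 3` -/
def N1 (n : ℕ) : Prop := ∀ p ∈ n.primeFactors, p % 3 = 1

theorem en_ne {v : ℤ × ℤ} (h : ¬ 3 ∣ en v) : en v ≠ 0 := fun h0 => h (by rw [h0]; exact dvd_zero 3)

theorem N1_three {n : ℕ} (hn : n ≠ 0) (h : N1 n) : ¬ 3 ∣ n := by
  intro h3
  have := h 3 (Nat.mem_primeFactors.2 ⟨Nat.prime_three, h3, hn⟩)
  omega

/-- **the sum over the pairs as a sum over the norms** -/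
theorem sum_norm (F : ℕ → ℝ) (X : ℕ) :
    ∑ v ∈ PX X, F (en v) = ∑ n ∈ (Icc 1 X).filter N1, 6 * 2 ^ n.primeFactors.card * F n := by
  have hmaps : ∀ v ∈ PX X, en v ∈ (Icc 1 X).filter N1 := by
    intro v hv
    unfold PX at hv
    rw [mem_filter, mem_Be] at hv
    rw [mem_filter, mem_Icc]
    exact ⟨⟨Nat.pos_of_ne_zero (en_ne hv.2.2), hv.1⟩,
      pf_of_mem hv.2.2 (z := ei v) (mem_PR.2 ⟨rfl, hv.2.1⟩)⟩
  rw [← sum_fiberwise_of_maps_to hmaps]
  refine sum_congr rfl fun n hn => ?_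
  rw [mem_filter, mem_Icc] at hn
  obtain ⟨⟨h1, h2⟩, h3⟩ := hn
  have e1 : ∀ v ∈ (PX X).filter (fun v => en v = n), F (en v) = F n := by
    intro v hv
    rw [(mem_filter.1 hv).2]
  rw [sum_congr rfl e1, sum_const, nsmul_eq_mul]
  congr 1
  have e2 : (PX X).filter (fun v => en v = n) = (Be n).filter fun v => en v = n ∧ gc v = 1 := by
    ext v
    unfold PX
    simp only [mem_filter, mem_Be]
    constructor
    · rintro ⟨⟨a1, a2, a3⟩, a4⟩
      exact ⟨a4.le, a4, a2⟩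
    · rintro ⟨a1, a2, a3⟩
      exact ⟨⟨by omega, a3, by rw [a2]; exact N1_three (by omega) h3⟩, a2⟩
  rw [e2, card_prim (by omega) h3]
  push_cast
  ring

/-! ### the primes of exponent one -/

/-- the primes of exponent one -/
def S1 (n : ℕ) : Finset ℕ := n.primeFactors.filter fun p => n.factorization p = 1

theorem mem_S1 {n p : ℕ} : p ∈ S1 n ↔ n.factorization p = 1 := by
  unfold S1
  rw [mem_filter]
  refine ⟨fun h => h.2, fun h => ⟨?_, h⟩⟩
  rw [← Nat.support_factorization, Finsupp.mem_support_iff]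
  omega

theorem prime_S1 {n p : ℕ} (h : p ∈ S1 n) : p.Prime :=
  Nat.prime_of_mem_primeFactors (mem_filter.1 h).1

/-- the powerful part -/
def kk (n : ℕ) : ℕ := n / ∏ p ∈ S1 n, p

/-- powerful numbers with all prime factors `1 mod 3` -/
def Pw (k : ℕ) : Prop := N1 k ∧ ∀ p, k.factorization p ≠ 1

theorem prod_dvd {n : ℕ} : ∏ p ∈ S1 n, p ∣ n := by
  refine (prod_dvd_prod_of_subset _ _ _ (filter_subset _ _)).trans (Nat.prod_primeFactors_dvd n)

theorem decomp {n : ℕ} : n = kk n * ∏ p ∈ S1 n, p := (Nat.div_mul_cancel prod_dvd).symm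

theorem kk_ne {n : ℕ} (hn : n ≠ 0) : kk n ≠ 0 := by
  intro h
  have := decomp (n := n)
  rw [h, zero_mul] at this
  exact hn this

theorem fact_kk {n : ℕ} (hn : n ≠ 0) (p : ℕ) :
    (kk n).factorization p = if n.factorization p = 1 then 0 else n.factorization p := by
  have h1 : n.factorization p = (kk n).factorization p +
      (∏ q ∈ S1 n, q).factorization p := by
    conv_lhs => rw [decomp (n := n)]
    rw [Nat.factorization_mul (kk_ne hn) (prod_ne fun q hq => prime_S1 hq), Finsupp.add_apply]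
  rw [fact_prod fun q hq => prime_S1 hq] at h1
  simp only [mem_S1] at h1
  split_ifs at h1 ⊢ with h
  · omega
  · omega

theorem pw_kk {n : ℕ} (hn : n ≠ 0) (h : N1 n) : Pw (kk n) := by
  refine ⟨fun p hp => h p ?_, fun p => ?_⟩
  · rw [← Nat.support_factorization, Finsupp.mem_support_iff, fact_kk hn] at hp
    rw [← Nat.support_factorization, Finsupp.mem_support_iff]
    split_ifs at hp with h1
    · omega
    · exact hp
  · rw [fact_kk hn]
    split_ifs with h1
    · omega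
    · exact h1

theorem disj_kk {n : ℕ} (hn : n ≠ 0) : Disjoint (S1 n) (kk n).primeFactors := by
  rw [disjoint_left]
  intro p hp hp'
  rw [mem_S1] at hp
  rw [← Nat.support_factorization, Finsupp.mem_support_iff, fact_kk hn, if_pos hp] at hp'
  exact hp' rfl

theorem fact_mul {k : ℕ} (hk : k ≠ 0) {S : Finset ℕ} (hS : ∀ p ∈ S, p.Prime) (p : ℕ) :
    (k * ∏ q ∈ S, q).factorization p = k.factorization p + if p ∈ S then 1 else 0 := by
  rw [Nat.factorization_mul hk (prod_ne hS), Finsupp.add_apply, fact_prod hS]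

theorem S1_mul {k : ℕ} (hk : k ≠ 0) (hw : ∀ p, k.factorization p ≠ 1) {S : Finset ℕ}
    (hS : ∀ p ∈ S, p.Prime) (hd : Disjoint S k.primeFactors) : S1 (k * ∏ q ∈ S, q) = S := by
  ext p
  rw [mem_S1, fact_mul hk hS]
  by_cases hp : p ∈ S
  · have h1 : k.factorization p = 0 := by
      rw [disjoint_left] at hd
      have h2 := hd hp
      rw [← Nat.support_factorization, Finsupp.mem_support_iff, not_not] at h2
      exact h2
    rw [if_pos hp, h1]
    exact iff_of_true rfl hp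
  · rw [if_neg hp, add_zero]
    exact iff_of_false (hw p) hp

theorem kk_mul {k : ℕ} (hk : k ≠ 0) (hw : ∀ p, k.factorization p ≠ 1) {S : Finset ℕ}
    (hS : ∀ p ∈ S, p.Prime) (hd : Disjoint S k.primeFactors) : kk (k * ∏ q ∈ S, q) = k := by
  unfold kk
  rw [S1_mul hk hw hS hd, Nat.mul_div_cancel _ (Nat.pos_of_ne_zero (prod_ne hS))]

theorem pf_mul {k : ℕ} (hk : k ≠ 0) {S : Finset ℕ} (hS : ∀ p ∈ S, p.Prime) :
    (k * ∏ q ∈ S, q).primeFactors = S ∪ k.primeFactors := by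
  rw [Nat.primeFactors_mul hk (prod_ne hS), Nat.primeFactors_prod hS, union_comm]

/-- the sets for given powerful part -/
noncomputable def SD (k Y : ℕ) : Finset (Finset ℕ) := (SP Y).filter fun S => Disjoint S k.primeFactors

/-- **the sum over the norms as a sum over powerful numbers and sets of primes** -/
theorem sum_pw (G : ℕ → ℝ) (X : ℕ) :
    ∑ n ∈ (Icc 1 X).filter N1, G n =
      ∑ k ∈ (Icc 1 X).filter Pw, ∑ S ∈ SD k (X / k), G (k * ∏ p ∈ S, p) := by
  rw [sum_sigma']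
  refine sum_bij' (fun n _ => (⟨kk n, S1 n⟩ : (_ : ℕ) × Finset ℕ))
    (fun x _ => x.1 * ∏ p ∈ x.2, p) ?_ ?_ ?_ ?_ ?_
  · intro n hn
    rw [mem_filter, mem_Icc] at hn
    obtain ⟨⟨h1, h2⟩, h3⟩ := hn
    have hn0 : n ≠ 0 := by omega
    have hP : 0 < ∏ p ∈ S1 n, p := prod_pos fun p hp => (prime_S1 hp).pos
    have hk0 := Nat.pos_of_ne_zero (kk_ne hn0)
    have hle : kk n ≤ n := Nat.div_le_self _ _
    unfold SD
    rw [mem_sigma, mem_filter, mem_Icc, mem_filter, mem_SP]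
    refine ⟨⟨⟨hk0, by simp only; omega⟩, pw_kk hn0 h3⟩, ⟨fun p hp => ⟨prime_S1 hp, h3 p (mem_filter.1 hp).1⟩,
      ?_⟩, disj_kk hn0⟩
    rw [Nat.le_div_iff_mul_le hk0, mul_comm, ← decomp]
    exact h2
  · rintro ⟨k, S⟩ hx
    unfold SD at hx
    rw [mem_sigma, mem_filter, mem_Icc, mem_filter, mem_SP] at hx
    simp only at hx ⊢
    obtain ⟨⟨⟨h1, h2⟩, h3, h4⟩, ⟨h5, h6⟩, h7⟩ := hx
    have hS : ∀ p ∈ S, p.Prime := fun p hp => (h5 p hp).1
    have hP : 0 < ∏ p ∈ S, p := prod_pos fun p hp => (hS p hp).pos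
    rw [mem_filter, mem_Icc]
    refine ⟨⟨Nat.mul_pos h1 hP, ?_⟩, fun p hp => ?_⟩
    · rw [Nat.le_div_iff_mul_le h1, mul_comm] at h6
      exact h6
    · rw [pf_mul (by omega) hS, mem_union] at hp
      rcases hp with h | h
      · exact (h5 p h).2
      · exact h3 p h
  · intro n _
    exact decomp.symm
  · rintro ⟨k, S⟩ hx
    unfold SD at hx
    rw [mem_sigma, mem_filter, mem_Icc, mem_filter, mem_SP] at hx
    simp only at hx ⊢
    obtain ⟨⟨⟨h1, h2⟩, h3, h4⟩, ⟨h5, h6⟩, h7⟩ := hx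
    have hS : ∀ p ∈ S, p.Prime := fun p hp => (h5 p hp).1
    rw [kk_mul (by omega) h4 hS h7, S1_mul (by omega) h4 hS h7]
  · intro n _
    simp only
    rw [← decomp]

/-- **the sum over the pairs** -/
theorem sum_pairs (F : ℕ → ℝ) (X : ℕ) :
    ∑ v ∈ PX X, F (en v) = ∑ k ∈ (Icc 1 X).filter Pw, 6 * 2 ^ k.primeFactors.card *
      ∑ S ∈ SD k (X / k), 2 ^ S.card * F (k * ∏ p ∈ S, p) := by
  rw [sum_norm, sum_pw]
  refine sum_congr rfl fun k hk => ?_
  rw [mul_sum]
  refine sum_congr rfl fun S hS => ?_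
  rw [mem_filter, mem_Icc] at hk
  unfold SD at hS
  rw [mem_filter, mem_SP] at hS
  rw [pf_mul (by omega) fun p hp => (hS.1.1 p hp).1, card_union_of_disjoint hS.2, pow_add]
  ring

/-- the total weight is small -/
theorem wt_le (X : ℕ) : 6 * Run7.h238.WFew.wt (SP X) ≤ ((Be X).card : ℝ) := by
  have h1 := sum_pairs (fun _ => (1 : ℝ)) X
  rcases Nat.eq_zero_or_pos X with rfl | hX
  · have : SP 0 = ∅ := by
      rw [eq_empty_iff_forall_notMem]
      intro S hS
      rw [mem_SP] at hS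
      have := prod_pos fun p hp => (hS.1 p hp).1.pos
      omega
    rw [this]
    unfold Run7.h238.WFew.wt
    rw [sum_empty, mul_zero]
    positivity
  have h2 : (∑ v ∈ PX X, (1 : ℝ)) ≤ ((Be X).card : ℝ) := by
    rw [sum_const, nsmul_eq_mul, mul_one]
    exact_mod_cast card_le_card (filter_subset _ _)
  rw [h1] at h2
  refine le_trans ?_ h2
  have h3 : (1 : ℕ) ∈ (Icc 1 X).filter Pw := by
    rw [mem_filter, mem_Icc]
    refine ⟨⟨le_rfl, hX⟩, ?_, ?_⟩
    · intro p hp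
      simp at hp
    · intro p
      simp
  refine le_trans (le_of_eq ?_) (single_le_sum (f := fun k => 6 * 2 ^ k.primeFactors.card *
      ∑ S ∈ SD k (X / k), (2 : ℝ) ^ S.card * 1) (fun k _ => by positivity) h3)
  have h4 : SD 1 (X / 1) = SP X := by
    unfold SD
    rw [Nat.div_one, filter_true_of_mem]
    intro S _
    simp
  simp only [h4, Nat.primeFactors_one, card_empty, pow_zero, mul_one]
  rfl

end Run7.h238.C.EP
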