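import Pool.Agent.Y911.CX.KEY
import Pool.Agent.Y388.CX.CNT
import Pool.Agent.Run7.h238.WTail

/-!
# Weighted sums over sets of primes: the general estimates

The weight of a set `S` is `2 ^ |S|`. Sets with many primes, sets near the boundary, sets with two
primes in a block.
-/

set_option autoImplicit false

open scoped Classical

namespace Run7.h238.C

open Finset
open Filter
open Pool.Agent.Y703.CX (sm la jj XX eL zz kk S_SIE ev_eL HH_ge HH_le HH_pos kk_ge kk_le X_pos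
  one_add_log lin_le logX_eq)
open Pool.Agent.Y911.CX (TT mem_TT harm_TT)
open Pool.Agent.Y388.CX (prod_pos' prod_inj harm exp_jj_le lt_exp_jj XX_le' sm_mul_la)
open Pool.Agent.R413.SQ (Sml sml_of sml_add)
open Run7.h238.WFew (wt wt_nonneg wt_mono wt_union wt_card)
open Run7.h238.WTail (H2 H2_ge H2_le H2_pos N2 exp_le_X)

theorem TT_prop {X : ℕ} {S : Finset ℕ} (hS : S ∈ TT X) :
    (∀ p ∈ S, p.Prime) ∧ ∏ p ∈ S, p ≤ X := by
  unfold TT at hS
  rw [mem_filter] at hS
  exact hS.2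

theorem TT_sub {X : ℕ} {S T : Finset ℕ} (hS : S ∈ TT X) (hT : T ⊆ S) : T ∈ TT X := by
  obtain ⟨h1, h2⟩ := TT_prop hS
  refine mem_TT (fun p hp => h1 p (hT hp)) (le_trans ?_ h2)
  exact prod_le_prod_of_subset_of_one_le' hT fun p hp _ => (h1 p hp).one_lt.le

theorem card_le_of_prod {X : ℕ} (F : Finset (Finset ℕ)) (hF : F ⊆ TT X) (G : Finset ℕ)
    (h : ∀ S ∈ F, ∏ p ∈ S, p ∈ G) : F.card ≤ G.card := by
  apply card_le_card_of_injOn (fun S => ∏ p ∈ S, p)
  · intro S hS
    exact h S hS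
  · intro S hS T hT hST
    exact prod_inj (TT_prop (hF hS)).1 (TT_prop (hF hT)).1 hST

theorem sum_two_pow (X : ℕ) : ∑ S ∈ TT X, (2 : ℝ) ^ S.card ≤ X * (1 + Real.log X) := by
  have h1 : ∀ S ∈ TT X, 2 ^ S.card ≤ (∏ p ∈ S, p).divisors.card := by
    intro S hS
    obtain ⟨hp, -⟩ := TT_prop hS
    rw [← card_powerset]
    apply card_le_card_of_injOn (fun T => ∏ p ∈ T, p)
    · intro T hT
      rw [mem_coe, mem_powerset] at hT
      rw [mem_coe, Nat.mem_divisors]
      exact ⟨prod_dvd_prod_of_subset _ _ _ hT, (prod_pos' hp).ne'⟩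
    · intro T hT T' hT' h
      rw [mem_coe, mem_powerset] at hT hT'
      exact prod_inj (fun p h => hp p (hT h)) (fun p h => hp p (hT' h)) h
  have h2 : ∑ S ∈ TT X, 2 ^ S.card ≤ ∑ n ∈ Ioc 0 X, n.divisors.card := by
    refine (sum_le_sum h1).trans ?_
    have e : ∑ S ∈ TT X, (∏ p ∈ S, p).divisors.card =
        ∑ n ∈ (TT X).image (fun S => ∏ p ∈ S, p), n.divisors.card := by
      rw [sum_image]
      intro S hS T hT h
      exact prod_inj (TT_prop hS).1 (TT_prop hT).1 h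
    rw [e]
    refine sum_le_sum_of_subset ?_
    intro n hn
    rw [mem_image] at hn
    obtain ⟨S, hS, rfl⟩ := hn
    exact mem_Ioc.2 ⟨prod_pos' (TT_prop hS).1, (TT_prop hS).2⟩
  have h3 : ∑ n ∈ Ioc 0 X, n.divisors.card = ∑ d ∈ Ioc 0 X, X / d := by
    have e1 : ∀ n ∈ Ioc 0 X, n.divisors.card = ∑ d ∈ Ioc 0 X, if d ∣ n then 1 else 0 := by
      intro n hn
      rw [mem_Ioc] at hn
      rw [← card_filter]
      congr 1
      ext d
      rw [Nat.mem_divisors, mem_filter, mem_Ioc]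
      constructor
      · rintro ⟨h, -⟩
        exact ⟨⟨Nat.pos_of_dvd_of_pos h hn.1, (Nat.le_of_dvd hn.1 h).trans hn.2⟩, h⟩
      · rintro ⟨-, h⟩
        exact ⟨h, by omega⟩
    rw [sum_congr rfl e1, sum_comm]
    refine sum_congr rfl fun d _ => ?_
    rw [← card_filter, Nat.Ioc_filter_dvd_card_eq_div]
  have h4 : ∑ S ∈ TT X, (2 : ℝ) ^ S.card ≤ ∑ d ∈ Ioc 0 X, ((X / d : ℕ) : ℝ) := by
    rw [h3] at h2
    exact_mod_cast h2
  refine h4.trans ?_
  have h5 : ∀ d ∈ Ioc 0 X, ((X / d : ℕ) : ℝ) ≤ X * (1 / d) := by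
    intro d _
    refine Nat.cast_div_le.trans (le_of_eq ?_)
    rw [mul_one_div]
  refine (sum_le_sum h5).trans ?_
  rw [← mul_sum]
  exact mul_le_mul_of_nonneg_left (harm X) (Nat.cast_nonneg _)

theorem one_add_log_nonneg (X : ℕ) : 0 ≤ 1 + Real.log X := by
  have := Real.log_natCast_nonneg X
  linarith

/-- a crude moment: all sets with the weight `4 ^ |S|` -/
theorem four (X : ℕ) : ∑ S ∈ TT X, (4 : ℝ) ^ S.card ≤ X * (1 + Real.log X) ^ 3 := by
  have hL0 := one_add_log_nonneg X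
  have h1 : ∀ S ∈ TT X, (4 : ℝ) ^ S.card = ∑ A ∈ S.powerset, (2 : ℝ) ^ A.card * 2 ^ (S \ A).card := by
    intro S _
    have e : ∀ A ∈ S.powerset, (2 : ℝ) ^ A.card * 2 ^ (S \ A).card = 2 ^ S.card := by
      intro A hA
      rw [← pow_add, add_comm, card_sdiff_add_card_eq_card (mem_powerset.1 hA)]
    rw [sum_congr rfl e, sum_const, card_powerset, nsmul_eq_mul]
    push_cast
    rw [← mul_pow]
    norm_num
  have h2 : ∑ S ∈ TT X, (4 : ℝ) ^ S.card ≤
      ∑ A ∈ TT X, (2 : ℝ) ^ A.card * ∑ B ∈ TT (X / ∏ p ∈ A, p), (2 : ℝ) ^ B.card := by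
    rw [sum_congr rfl h1, sum_sigma']
    simp_rw [mul_sum]
    rw [sum_sigma']
    refine le_trans (le_of_eq ?_) (sum_le_sum_of_subset_of_nonneg
      (s := ((TT X).sigma fun S => S.powerset).image fun x => ⟨x.2, x.1 \ x.2⟩) ?_
      fun _ _ _ => by positivity)
    · rw [sum_image]
      rintro ⟨S, A⟩ h1 ⟨T, B⟩ h2 h3
      rw [mem_coe, mem_sigma] at h1 h2
      simp only [Sigma.mk.injEq, heq_eq_eq] at h3
      obtain ⟨rfl, h3⟩ := h3
      have k1 := sdiff_union_of_subset (mem_powerset.1 h1.2)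
      have k2 := sdiff_union_of_subset (mem_powerset.1 h2.2)
      simp only at k1 k2
      have k3 : S = T := by rw [← k1, ← k2, h3]
      subst k3
      rfl
    · intro x hx
      rw [mem_image] at hx
      obtain ⟨⟨S, A⟩, h1, rfl⟩ := hx
      rw [mem_sigma] at h1
      have hA := mem_powerset.1 h1.2
      simp only at hA
      have hAS := TT_sub h1.1 hA
      have hBS := TT_sub h1.1 (T := S \ A) sdiff_subset
      rw [mem_sigma]
      refine ⟨hAS, ?_⟩
      have hN : 0 < ∏ p ∈ A, p := prod_pos' fun p hp => (TT_prop hAS).1 p hp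
      refine mem_TT (TT_prop hBS).1 ?_
      rw [Nat.le_div_iff_mul_le hN, prod_sdiff hA]
      exact (TT_prop h1.1).2
  refine h2.trans ?_
  have h3 : ∀ A ∈ TT X, (2 : ℝ) ^ A.card * ∑ B ∈ TT (X / ∏ p ∈ A, p), (2 : ℝ) ^ B.card ≤
      X * (1 + Real.log X) * ((2 : ℝ) ^ A.card / ((∏ p ∈ A, p : ℕ) : ℝ)) := by
    intro A hA
    have hN : 0 < ∏ p ∈ A, p := prod_pos' fun p hp => (TT_prop hA).1 p hp
    have hNr : (0 : ℝ) < ((∏ p ∈ A, p : ℕ) : ℝ) := by exact_mod_cast hN
    have h4 := sum_two_pow (X / ∏ p ∈ A, p)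
    have h5 : ((X / ∏ p ∈ A, p : ℕ) : ℝ) ≤ (X : ℝ) / ((∏ p ∈ A, p : ℕ) : ℝ) := Nat.cast_div_le
    have h6 : Real.log ((X / ∏ p ∈ A, p : ℕ) : ℝ) ≤ Real.log X := by
      rcases Nat.eq_zero_or_pos (X / ∏ p ∈ A, p) with h0 | h0
      · rw [h0, Nat.cast_zero, Real.log_zero]
        exact Real.log_natCast_nonneg X
      · exact Real.log_le_log (by exact_mod_cast h0) (by exact_mod_cast Nat.div_le_self _ _)
    have h7 : ∑ B ∈ TT (X / ∏ p ∈ A, p), (2 : ℝ) ^ B.card ≤
        (X : ℝ) / ((∏ p ∈ A, p : ℕ) : ℝ) * (1 + Real.log X) := by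
      refine h4.trans ?_
      exact mul_le_mul h5 (by linarith) (one_add_log_nonneg _) (by positivity)
    calc (2 : ℝ) ^ A.card * ∑ B ∈ TT (X / ∏ p ∈ A, p), (2 : ℝ) ^ B.card ≤
          (2 : ℝ) ^ A.card * ((X : ℝ) / ((∏ p ∈ A, p : ℕ) : ℝ) * (1 + Real.log X)) :=
          mul_le_mul_of_nonneg_left h7 (by positivity)
      _ = _ := by ring
  refine (sum_le_sum h3).trans ?_
  rw [← mul_sum]
  have h4 : ∑ A ∈ TT X, (2 : ℝ) ^ A.card / ((∏ p ∈ A, p : ℕ) : ℝ) ≤ (1 + Real.log X) ^ 2 := by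
    have e : ∀ S ∈ TT X, (2 : ℝ) ^ S.card / ((∏ p ∈ S, p : ℕ) : ℝ) =
        ∑ A ∈ S.powerset, (1 : ℝ) / ((∏ p ∈ A, p : ℕ) : ℝ) *
          (1 / ((∏ p ∈ S \ A, p : ℕ) : ℝ)) := by
      intro S _
      have e1 : ∀ A ∈ S.powerset, (1 : ℝ) / ((∏ p ∈ A, p : ℕ) : ℝ) *
          (1 / ((∏ p ∈ S \ A, p : ℕ) : ℝ)) = 1 / ((∏ p ∈ S, p : ℕ) : ℝ) := by
        intro A hA
        rw [one_div_mul_one_div, ← Nat.cast_mul, mul_comm (∏ p ∈ A, p), prod_sdiff (mem_powerset.1 hA)]
      rw [sum_congr rfl e1, sum_const, card_powerset, nsmul_eq_mul]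
      push_cast
      ring
    have h6 : ∑ S ∈ TT X, (2 : ℝ) ^ S.card / ((∏ p ∈ S, p : ℕ) : ℝ) ≤
        (∑ A ∈ TT X, (1 : ℝ) / ((∏ p ∈ A, p : ℕ) : ℝ)) ^ 2 := by
      rw [sum_congr rfl e, sum_sigma', pow_two, sum_mul_sum, ← sum_product'
        (f := fun A B => (1 : ℝ) / ((∏ p ∈ A, p : ℕ) : ℝ) * (1 / ((∏ p ∈ B, p : ℕ) : ℝ)))]
      refine le_trans (le_of_eq ?_) (sum_le_sum_of_subset_of_nonneg
        (s := ((TT X).sigma fun S => S.powerset).image fun x => (x.2, x.1 \ x.2)) ?_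
        fun _ _ _ => by positivity)
      · rw [sum_image]
        rintro ⟨S, A⟩ h1 ⟨T, B⟩ h2 h3
        rw [mem_coe, mem_sigma] at h1 h2
        simp only [Prod.mk.injEq] at h3
        obtain ⟨rfl, h3⟩ := h3
        have k1 := sdiff_union_of_subset (mem_powerset.1 h1.2)
        have k2 := sdiff_union_of_subset (mem_powerset.1 h2.2)
        simp only at k1 k2
        have k3 : S = T := by rw [← k1, ← k2, h3]
        subst k3
        rfl
      · intro x hx
        rw [mem_image] at hx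
        obtain ⟨⟨S, A⟩, h1, rfl⟩ := hx
        rw [mem_sigma] at h1
        rw [mem_product]
        exact ⟨TT_sub h1.1 (mem_powerset.1 h1.2), TT_sub h1.1 sdiff_subset⟩
    exact h6.trans (pow_le_pow_left₀ (sum_nonneg fun _ _ => by positivity) (harm_TT X) 2)
  calc X * (1 + Real.log X) * ∑ A ∈ TT X, (2 : ℝ) ^ A.card / ((∏ p ∈ A, p : ℕ) : ℝ) ≤
        X * (1 + Real.log X) * (1 + Real.log X) ^ 2 :=
        mul_le_mul_of_nonneg_left h4 (by positivity)
    _ = _ := by ring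

/-- the inequality of Cauchy and Schwarz -/
theorem cs {X : ℕ} {F : Finset (Finset ℕ)} (hF : F ⊆ TT X) :
    wt F ≤ Real.sqrt ((F.card : ℝ) * (X * (1 + Real.log X) ^ 3)) := by
  apply Real.le_sqrt_of_sq_le
  unfold wt
  have h1 := sum_mul_sq_le_sq_mul_sq F (fun _ => (1 : ℝ)) fun S => (2 : ℝ) ^ S.card
  simp only [one_mul, one_pow, sum_const, nsmul_eq_mul, mul_one] at h1
  refine h1.trans (mul_le_mul_of_nonneg_left ?_ (Nat.cast_nonneg _))
  refine le_trans ?_ (four X)
  have e : ∀ S ∈ F, ((2 : ℝ) ^ S.card) ^ 2 = 4 ^ S.card := by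
    intro S _
    rw [← pow_mul, mul_comm, pow_mul]
    norm_num
  rw [sum_congr rfl e]
  exact sum_le_sum_of_subset_of_nonneg hF fun _ _ _ => by positivity

theorem cs_ev {F : ℕ → Finset (Finset ℕ)} (hF : ∀ X, F X ⊆ TT X) {C a : ℝ}
    (hC : 0 ≤ C) (h : ∀ᶠ X : ℕ in atTop, ((F X).card : ℝ) ≤ C * (X * Real.exp (-a * eL X))) :
    ∀ᶠ X : ℕ in atTop, wt (F X) ≤ Real.sqrt (8 * C) * (X * Real.exp (-((a - 3) / 2) * eL X)) := by
  filter_upwards [h, ev_eL 1] with X h1 h2
  have h0 : 0 < eL X := by linarith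
  have hX0 : (0 : ℝ) ≤ X := Nat.cast_nonneg _
  refine (cs (hF X)).trans ?_
  have h3 := one_add_log h0
  have h3' := one_add_log_nonneg X
  have h4 : (1 + Real.log X) ^ 3 ≤ 8 * Real.exp (3 * eL X) := by
    refine (pow_le_pow_left₀ h3' h3 3).trans (le_of_eq ?_)
    rw [mul_pow, ← Real.exp_nat_mul]
    norm_num
  have h5 : ((F X).card : ℝ) * (X * (1 + Real.log X) ^ 3) ≤
      8 * C * (X * Real.exp (-((a - 3) / 2) * eL X)) ^ 2 := by
    calc ((F X).card : ℝ) * (X * (1 + Real.log X) ^ 3) ≤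
          (C * (X * Real.exp (-a * eL X))) * (X * (8 * Real.exp (3 * eL X))) := by
          gcongr
      _ = 8 * C * (X ^ 2 * (Real.exp (-a * eL X) * Real.exp (3 * eL X))) := by ring
      _ = _ := by
          rw [mul_pow, ← Real.exp_nat_mul, ← Real.exp_add]
          congr 3
          push_cast
          ring_nf
  refine (Real.sqrt_le_sqrt h5).trans (le_of_eq ?_)
  rw [Real.sqrt_mul (by positivity), Real.sqrt_sq (by positivity)]

theorem sml_cs {F : ℕ → Finset (Finset ℕ)} (hF : ∀ X, F X ⊆ TT X) {C a : ℝ}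
    (hC : 0 ≤ C) (ha : 3 < a)
    (h : ∀ᶠ X : ℕ in atTop, ((F X).card : ℝ) ≤ C * (X * Real.exp (-a * eL X))) :
    Sml 0 fun X => wt (F X) :=
  sml_of (a := (a - 3) / 2) (by linarith) (cs_ev hF hC h)

theorem cut_count {X z H K : ℕ} (hH : 1 ≤ H) : (((TT X).filter fun S => S.card ≤ K ∧
    X < (∏ p ∈ sm z S, p) * ∏ p ∈ la z S, XX H (jj H p)).card : ℝ) ≤ X * K / H + 1 := by
  have hH' : (0 : ℝ) < H := by exact_mod_cast hH
  have hX' : (0 : ℝ) ≤ X := Nat.cast_nonneg _
  set t : ℝ := X * K / H with ht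
  have ht0 : 0 ≤ t := by positivity
  have h1 : ((TT X).filter fun S => S.card ≤ K ∧
      X < (∏ p ∈ sm z S, p) * ∏ p ∈ la z S, XX H (jj H p)).card ≤
      ((range ⌈t⌉₊).image fun m => X - m).card := by
    apply card_le_of_prod (X := X) _ (filter_subset _ _)
    intro S hS
    rw [mem_filter] at hS
    obtain ⟨hSS, hSK, hlt⟩ := hS
    obtain ⟨hSO, hSX⟩ := TT_prop hSS
    have h2 : (X : ℝ) < (∏ p ∈ sm z S, p : ℕ) * ∏ p ∈ la z S, (XX H (jj H p) : ℝ) := by
      exact_mod_cast hlt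
    have h3 : ∏ p ∈ la z S, (XX H (jj H p) : ℝ) ≤
        ∏ p ∈ la z S, ((p : ℝ) * Real.exp (1 / H)) := by
      apply prod_le_prod (fun p _ => Nat.cast_nonneg _)
      intro p hp
      exact XX_le' hH (hSO p (mem_filter.1 hp).1)
    rw [prod_mul_distrib, prod_const, ← Real.exp_nat_mul] at h3
    have h5 : Real.exp ((la z S).card * (1 / H)) ≤ Real.exp (K / H) := by
      apply Real.exp_le_exp.2
      rw [mul_one_div]
      apply div_le_div_of_nonneg_right _ hH'.le
      exact_mod_cast (card_filter_le _ _).trans hSK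
    have h6 : (X : ℝ) < (∏ p ∈ S, p : ℕ) * Real.exp (K / H) := by
      calc (X : ℝ) < (∏ p ∈ sm z S, p : ℕ) * ∏ p ∈ la z S, (XX H (jj H p) : ℝ) := h2
        _ ≤ (∏ p ∈ sm z S, p : ℕ) * ((∏ p ∈ la z S, (p : ℝ)) * Real.exp (K / H)) := by
            refine mul_le_mul_of_nonneg_left (h3.trans ?_) (Nat.cast_nonneg _)
            exact mul_le_mul_of_nonneg_left h5 (prod_nonneg fun _ _ => Nat.cast_nonneg _)
        _ = (∏ p ∈ S, p : ℕ) * Real.exp (K / H) := by
            rw [← sm_mul_la z S]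
            push_cast
            ring
    have h7 : (X : ℝ) * Real.exp (-(K / H)) < (∏ p ∈ S, p : ℕ) := by
      rw [Real.exp_neg, ← div_eq_mul_inv, div_lt_iff₀ (Real.exp_pos _)]
      exact h6
    have h8 : -((K : ℝ) / H) + 1 ≤ Real.exp (-(K / H)) := Real.add_one_le_exp _
    have h9 : (X : ℝ) - t < (∏ p ∈ S, p : ℕ) := by
      refine lt_of_le_of_lt ?_ h7
      have h10 := mul_le_mul_of_nonneg_left h8 hX'
      rw [ht]
      refine le_trans (le_of_eq ?_) h10
      ring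
    rw [mem_image]
    refine ⟨X - ∏ p ∈ S, p, ?_, by omega⟩
    rw [mem_range, Nat.lt_ceil, Nat.cast_sub hSX]
    linarith
  have h2 : ((((TT X).filter fun S => S.card ≤ K ∧
      X < (∏ p ∈ sm z S, p) * ∏ p ∈ la z S, XX H (jj H p)).card : ℕ) : ℝ) ≤ ⌈t⌉₊ := by
    have := h1.trans card_image_le
    rw [card_range] at this
    exact_mod_cast this
  exact h2.trans (Nat.ceil_lt_add_one ht0).le

theorem coll_count {X z H : ℕ} (hH : 1 ≤ H) : (((TT X).filter fun S =>
    ¬ Set.InjOn (jj H) (la z S : Set ℕ)).card : ℝ) ≤ 4 * X * (1 + Real.log X) / H := by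
  have hH1 : (1 : ℝ) ≤ H := by exact_mod_cast hH
  have hH' : (0 : ℝ) < H := by linarith
  have hX' : (0 : ℝ) ≤ X := Nat.cast_nonneg _
  have h0 : ∀ p q : ℕ, p.Prime → q.Prime → p < q → jj H p = jj H q →
      q ∈ Ioc p (p + 2 * p / H) := by
    intro p q hp hq hpq hj
    have h1 := exp_jj_le hH hp
    have h2 := lt_exp_jj hH hq
    rw [← hj, add_div, Real.exp_add] at h2
    have h3 : (q : ℝ) < p * Real.exp (1 / H) :=
      h2.trans_le (mul_le_mul_of_nonneg_right h1 (Real.exp_pos _).le)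
    have h5 : Real.exp (1 / H) ≤ 1 + 2 / H := by
      have h6 := Real.abs_exp_sub_one_le (x := 1 / H) (by
        rw [abs_of_pos (by positivity), div_le_one (by linarith)]
        exact hH1)
      rw [abs_of_pos (show (0 : ℝ) < 1 / H by positivity)] at h6
      have h7 := (le_abs_self _).trans h6
      have h8 : 2 * (1 / (H : ℝ)) = 2 / H := by ring
      linarith
    have hp0 : (0 : ℝ) ≤ p := Nat.cast_nonneg _
    have h6 : (q : ℝ) ≤ p + 2 * p / H := by
      have := mul_le_mul_of_nonneg_left h5 hp0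
      have e : (p : ℝ) * (1 + 2 / H) = p + 2 * p / H := by ring
      linarith
    rw [mem_Ioc]
    refine ⟨hpq, ?_⟩
    have h7 : q - p ≤ 2 * p / H := by
      rw [Nat.le_div_iff_mul_le (by omega)]
      have h8 : ((q : ℝ) - p) * H ≤ 2 * p := by
        rw [← le_div_iff₀ hH']
        linarith
      have h9 : (((q - p) * H : ℕ) : ℝ) ≤ ((2 * p : ℕ) : ℝ) := by
        push_cast [Nat.cast_sub hpq.le]
        exact h8
      exact_mod_cast h9
    omega
  have h1 : (TT X).filter (fun S => ¬ Set.InjOn (jj H) (la z S : Set ℕ)) ⊆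
      (Ioc 0 X).biUnion fun p => (Ioc p (p + 2 * p / H)).biUnion fun q =>
        (TT X).filter fun S => p * q ∣ ∏ l ∈ S, l := by
    intro S hS
    rw [mem_filter] at hS
    obtain ⟨hS1, hS2⟩ := hS
    obtain ⟨hP, hX⟩ := TT_prop hS1
    unfold Set.InjOn at hS2
    push Not at hS2
    obtain ⟨p, hp, q, hq, hpq, hne⟩ := hS2
    rw [mem_coe] at hp hq
    unfold la at hp hq
    rw [mem_filter] at hp hq
    have key : ∀ p q : ℕ, p ∈ S → q ∈ S → p < q → jj H p = jj H q →
        S ∈ (Ioc 0 X).biUnion fun p => (Ioc p (p + 2 * p / H)).biUnion fun q =>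
        (TT X).filter fun S => p * q ∣ ∏ l ∈ S, l := by
      intro p q hp hq hlt hj
      rw [mem_biUnion]
      have hpX : p ≤ X := (Nat.le_of_dvd (prod_pos' hP) (dvd_prod_of_mem (fun l => l) hp)).trans hX
      refine ⟨p, mem_Ioc.2 ⟨(hP p hp).pos, hpX⟩, ?_⟩
      rw [mem_biUnion]
      refine ⟨q, h0 p q (hP p hp) (hP q hq) hlt hj, ?_⟩
      rw [mem_filter]
      refine ⟨hS1, ?_⟩
      rw [← mul_prod_erase S (fun l => l) hp]
      exact mul_dvd_mul_left p (dvd_prod_of_mem (fun l => l)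
        (mem_erase.2 ⟨by omega, hq⟩))
    rcases lt_or_gt_of_ne hne with h | h
    · exact key p q hp.1 hq.1 h hpq
    · exact key q p hq.1 hp.1 h hpq.symm
  have h2 : ((((TT X).filter fun S => ¬ Set.InjOn (jj H) (la z S : Set ℕ)).card : ℕ) : ℝ) ≤
      ∑ p ∈ Ioc 0 X, ∑ q ∈ Ioc p (p + 2 * p / H),
          ((((TT X).filter fun S => p * q ∣ ∏ l ∈ S, l).card : ℕ) : ℝ) := by
    have h3 := (card_le_card h1).trans (card_biUnion_le.trans
      (sum_le_sum fun p _ => card_biUnion_le))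
    exact_mod_cast h3
  refine h2.trans ?_
  have hmul : ∀ m : ℕ, 0 < m → ((((TT X).filter fun S => m ∣ ∏ l ∈ S, l).card : ℕ) : ℝ) ≤
      X / m := by
    intro m _
    have h3 : ((TT X).filter fun S => m ∣ ∏ l ∈ S, l).card ≤
        ((Ioc 0 X).filter fun n => m ∣ n).card := by
      apply card_le_of_prod (X := X) _ (filter_subset _ _)
      intro S hS
      rw [mem_filter] at hS
      obtain ⟨hP, hX⟩ := TT_prop hS.1
      exact mem_filter.2 ⟨mem_Ioc.2 ⟨prod_pos' hP, hX⟩, hS.2⟩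
    rw [Nat.Ioc_filter_dvd_card_eq_div] at h3
    have h4 : ((((TT X).filter fun S => m ∣ ∏ l ∈ S, l).card : ℕ) : ℝ) ≤ ((X / m : ℕ) : ℝ) := by
      exact_mod_cast h3
    exact h4.trans Nat.cast_div_le
  have h3 : ∀ p ∈ Ioc 0 X, ∑ q ∈ Ioc p (p + 2 * p / H),
      ((((TT X).filter fun S => p * q ∣ ∏ l ∈ S, l).card : ℕ) : ℝ) ≤
        2 * X / H * (1 / p) := by
    intro p hp
    rw [mem_Ioc] at hp
    have hp0 : (0 : ℝ) < p := by exact_mod_cast hp.1
    have h4 : ∀ q ∈ Ioc p (p + 2 * p / H),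
        ((((TT X).filter fun S => p * q ∣ ∏ l ∈ S, l).card : ℕ) : ℝ) ≤ X / (p * p) := by
      intro q hq
      rw [mem_Ioc] at hq
      refine (hmul (p * q) (Nat.mul_pos hp.1 (by omega))).trans ?_
      push_cast
      have hq0 : (p : ℝ) ≤ q := by exact_mod_cast hq.1.le
      gcongr
    refine (sum_le_sum h4).trans ?_
    rw [sum_const, nsmul_eq_mul, Nat.card_Ioc, Nat.add_sub_cancel_left]
    have h5 : ((2 * p / H : ℕ) : ℝ) ≤ 2 * p / H := by
      refine Nat.cast_div_le.trans (le_of_eq ?_)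
      push_cast
      ring
    calc ((2 * p / H : ℕ) : ℝ) * (X / (p * p)) ≤ 2 * p / H * (X / (p * p)) :=
          mul_le_mul_of_nonneg_right h5 (by positivity)
      _ = _ := by field_simp
  refine (sum_le_sum h3).trans ?_
  rw [← mul_sum]
  have h4 := mul_le_mul_of_nonneg_left (harm X) (show (0 : ℝ) ≤ 2 * X / H by positivity)
  refine h4.trans ?_
  have h5 := one_add_log_nonneg X
  have h6 : 2 * (X : ℝ) / H * (1 + Real.log X) = 2 * (X * (1 + Real.log X) / H) := by ring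
  have h7 : 4 * (X : ℝ) * (1 + Real.log X) / H = 4 * (X * (1 + Real.log X) / H) := by ring
  have h8 : 0 ≤ X * (1 + Real.log X) / H := by positivity
  rw [h6, h7]
  linarith

/-- sets with many primes -/
theorem sml_many : Sml 0 fun X => wt ((TT X).filter fun S => kk X < S.card) := by
  refine sml_cs (C := 2) (a := 5) (fun X => filter_subset _ _) (by norm_num) (by norm_num) ?_
  filter_upwards [ev_eL 1] with X hX
  have h0 : 0 < eL X := by linarith
  have h1 : (((TT X).filter fun S => kk X < S.card).card : ℝ) * 2 ^ kk X ≤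
      X * (1 + Real.log X) := by
    refine le_trans ?_ (sum_two_pow X)
    rw [← nsmul_eq_mul, ← sum_const]
    refine (sum_le_sum (g := fun S => (2 : ℝ) ^ S.card) fun S hS => ?_).trans
      (sum_le_sum_of_subset_of_nonneg (filter_subset _ _) fun _ _ _ => by positivity)
    rw [mem_filter] at hS
    exact pow_le_pow_right₀ (by norm_num) hS.2.le
  have h2 : Real.exp (6 * eL X) ≤ 2 ^ kk X := by
    have e : (2 : ℝ) ^ kk X = Real.exp (kk X * Real.log 2) := by
      rw [mul_comm, Real.exp_mul, Real.exp_log (by norm_num), Real.rpow_natCast]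
    rw [e]
    apply Real.exp_le_exp.2
    have h3 := kk_ge X
    have h4 := Real.log_two_gt_d9
    nlinarith
  have hX0 : (0 : ℝ) ≤ X := Nat.cast_nonneg _
  have h5 : (((TT X).filter fun S => kk X < S.card).card : ℝ) * Real.exp (6 * eL X) ≤
      X * (2 * Real.exp (eL X)) := by
    calc _ ≤ (((TT X).filter fun S => kk X < S.card).card : ℝ) * 2 ^ kk X := by gcongr
      _ ≤ X * (1 + Real.log X) := h1
      _ ≤ _ := mul_le_mul_of_nonneg_left (one_add_log h0) hX0
  have h6 : (2 : ℝ) * (X * Real.exp (-5 * eL X)) * Real.exp (6 * eL X) = X * (2 * Real.exp (eL X)) := by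
    have e : Real.exp (-5 * eL X) * Real.exp (6 * eL X) = Real.exp (eL X) := by
      rw [← Real.exp_add]; congr 1; ring
    calc _ = 2 * X * (Real.exp (-5 * eL X) * Real.exp (6 * eL X)) := by ring
      _ = _ := by rw [e]; ring
  rw [← h6] at h5
  exact le_of_mul_le_mul_right h5 (Real.exp_pos _)

/-- sets near the boundary -/
theorem sml_cut : Sml 0 fun X => wt ((TT X).filter fun S => S.card ≤ kk X ∧
    X < (∏ p ∈ sm (zz X) S, p) * ∏ p ∈ la (zz X) S, XX (H2 X) (jj (H2 X) p)) := by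
  refine sml_cs (C := 2) (a := 5) (fun X => filter_subset _ _) (by norm_num) (by norm_num) ?_
  filter_upwards [ev_eL 1, lin_le (a := 1) (b := 11) (by norm_num) (by norm_num), exp_le_X 5]
    with X hX h11 hl
  have h0 : 0 < eL X := by linarith
  have h1 := cut_count (X := X) (z := zz X) (K := kk X) (H2_pos h0)
  refine h1.trans ?_
  have hH := H2_ge h0
  have hHp : (0 : ℝ) < H2 X := lt_of_lt_of_le (Real.exp_pos _) hH
  have hX0 : (0 : ℝ) ≤ X := Nat.cast_nonneg _
  have h2 : (X : ℝ) * kk X / H2 X ≤ X * Real.exp (-5 * eL X) := by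
    rw [div_le_iff₀ hHp]
    calc (X : ℝ) * kk X ≤ X * Real.exp (eL X) := by
          have := kk_le hX
          rw [one_mul] at h11
          have : (kk X : ℝ) ≤ Real.exp (eL X) := by linarith
          gcongr
      _ ≤ X * (Real.exp (-5 * eL X) * Real.exp (21 * eL X)) := by
          rw [← Real.exp_add]
          apply mul_le_mul_of_nonneg_left _ hX0
          apply Real.exp_le_exp.2
          linarith
      _ ≤ X * Real.exp (-5 * eL X) * H2 X := by
          rw [mul_assoc]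
          gcongr
  have h3 : (1 : ℝ) ≤ X * Real.exp (-5 * eL X) := by
    have e : Real.exp ((5 : ℕ) * eL X) * Real.exp (-5 * eL X) = 1 := by
      rw [← Real.exp_add]
      have : (5 : ℕ) * eL X + -5 * eL X = 0 := by push_cast; ring
      rw [this, Real.exp_zero]
    calc (1 : ℝ) = Real.exp ((5 : ℕ) * eL X) * Real.exp (-5 * eL X) := e.symm
      _ ≤ X * Real.exp (-5 * eL X) := mul_le_mul_of_nonneg_right hl (Real.exp_pos _).le
  linarith

/-- sets with two primes in one block -/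
theorem sml_coll : Sml 0 fun X => wt ((TT X).filter fun S =>
    ¬ Set.InjOn (jj (H2 X)) (la (zz X) S : Set ℕ)) := by
  refine sml_cs (C := 8) (a := 5) (fun X => filter_subset _ _) (by norm_num) (by norm_num) ?_
  filter_upwards [ev_eL 1] with X hX
  have h0 : 0 < eL X := by linarith
  have h1 := coll_count (X := X) (z := zz X) (H2_pos h0)
  refine h1.trans ?_
  have hH := H2_ge h0
  have hHp : (0 : ℝ) < H2 X := lt_of_lt_of_le (Real.exp_pos _) hH
  have hX0 : (0 : ℝ) ≤ X := Nat.cast_nonneg _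
  rw [div_le_iff₀ hHp]
  calc 4 * (X : ℝ) * (1 + Real.log X) ≤ 4 * X * (2 * Real.exp (eL X)) := by
        have := one_add_log h0
        gcongr
    _ ≤ 8 * (X * (Real.exp (-5 * eL X) * Real.exp (21 * eL X))) := by
        rw [← Real.exp_add]
        have h2 : Real.exp (eL X) ≤ Real.exp (-5 * eL X + 21 * eL X) :=
          Real.exp_le_exp.2 (by linarith)
        nlinarith
    _ ≤ 8 * (X * (Real.exp (-5 * eL X) * H2 X)) := by gcongr
    _ = 8 * (X * Real.exp (-5 * eL X)) * H2 X := by ring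

end Run7.h238.C
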