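import Pool.Agent.Y495.CX.HAL

/-!
# The logarithmic density for a general cubic character
-/

set_option autoImplicit false

open scoped Classical

namespace Run7.h238.C

open Finset
open Pool.Agent.Y692.QS (Ei w nr toC)
open Pool.Agent.Y715.T.RecG (Pq)
open Pool.Agent.Y699.E
open Pool.Agent.Y703.CX
open Pool.Agent.Y495.CX (Op pr2 st2 st2_pq pr2_ps nrm_pr2 pr2_inj)

/-- a bound for the sums of a character -/
def Bd (χ : Ei → ℂ) (N : ℕ) : Prop :=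
  ∀ v : ℕ, 1 ≤ v → ‖∑ d ∈ PB v, χ d‖ ≤ 108 * (N : ℝ) * Real.sqrt v

/-- partial sums of the L-series at 1 -/
theorem chs_logG {χ : Ei → ℂ} (hch : CH χ) {N : ℕ} (hN1 : 1 ≤ N) (hB : Bd χ N) (Y : ℕ) :
    ‖∑ d ∈ PB Y, χ d / nrm d‖ ≤ 264 * lg N := by
  have hlg := one_le_lg N
  rcases Nat.eq_zero_or_pos Y with h0 | hY
  · have : PB Y = ∅ := by
      rw [eq_empty_iff_forall_notMem]
      intro x hx
      rw [mem_PB] at hx
      have := nrm_pos' (prm_ne_zero hx.2)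
      omega
    rw [this, sum_empty, norm_zero]
    linarith
  have hYr : (0 : ℝ) < Y := by exact_mod_cast hY
  -- summation by parts
  have e1 : ∑ d ∈ PB Y, χ d / nrm d = (∑ d ∈ PB Y, χ d) * ((1 / Y : ℝ) : ℂ) +
      ∑ v ∈ Ico 1 Y, (∑ d ∈ PB v, χ d) * ((1 / ((v : ℝ) * (v + 1)) : ℝ) : ℂ) := by
    have e2 : ∀ d ∈ PB Y, χ d / nrm d = χ d * ((1 / Y : ℝ) : ℂ) +
        ∑ v ∈ Ico 1 Y, if nrm d ≤ v then χ d * ((1 / ((v : ℝ) * (v + 1)) : ℝ) : ℂ) else 0 := by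
      intro d hd
      rw [mem_PB] at hd
      have hd1 := nrm_pos' (prm_ne_zero hd.2)
      have h2 := inv_tel (nrm d) hd1 Y hd.1
      have h3 : χ d / (nrm d : ℂ) = χ d * ((1 / (nrm d : ℝ) : ℝ) : ℂ) := by
        push_cast
        rw [mul_one_div]
      rw [h3, h2, Complex.ofReal_add, mul_add]
      congr 1
      rw [Complex.ofReal_sum, mul_sum, ← sum_filter]
      refine sum_congr ?_ fun _ _ => rfl
      ext v
      rw [mem_filter, mem_Ico, mem_Ico]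
      constructor
      · rintro ⟨a1, a2⟩; exact ⟨⟨by omega, a2⟩, a1⟩
      · rintro ⟨⟨-, a2⟩, a1⟩; exact ⟨a1, a2⟩
    rw [sum_congr rfl e2, sum_add_distrib, ← sum_mul, sum_comm]
    congr 1
    refine sum_congr rfl fun v hv => ?_
    rw [mem_Ico] at hv
    rw [← sum_filter, ← sum_mul]
    congr 1
    refine sum_congr ?_ fun _ _ => rfl
    ext d
    rw [mem_filter, mem_PB, mem_PB]
    constructor
    · rintro ⟨⟨-, a2⟩, a1⟩; exact ⟨a1, a2⟩
    · rintro ⟨a1, a2⟩; exact ⟨⟨by omega, a2⟩, a1⟩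
  rw [e1]
  refine (norm_add_le _ _).trans ?_
  have nr : ∀ {r : ℝ}, 0 ≤ r → ‖(r : ℂ)‖ = r := fun {r} h => by
    rw [Complex.norm_real, Real.norm_of_nonneg h]
  have e3 : ‖(∑ d ∈ PB Y, χ d) * ((1 / Y : ℝ) : ℂ)‖ ≤ 16 := by
    rw [norm_mul, nr (by positivity), mul_one_div, div_le_iff₀ hYr]
    exact chs_le' hch hY
  have e4 : ∀ v ∈ Ico 1 Y, ‖(∑ d ∈ PB v, χ d) * ((1 / ((v : ℝ) * (v + 1)) : ℝ) : ℂ)‖ ≤
      (if v < N ^ 2 then 16 * (1 / ((v : ℝ) + 1)) else 0) +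
      (if N ^ 2 ≤ v then 108 * N * (Real.sqrt v / (v * (v + 1))) else 0) := by
    intro v hv
    rw [mem_Ico] at hv
    have v0 : (0 : ℝ) < v := by exact_mod_cast hv.1
    have hp : (0 : ℝ) < 1 / ((v : ℝ) * (v + 1)) := by positivity
    rw [norm_mul, nr hp.le]
    by_cases h : v < N ^ 2
    · rw [if_pos h, if_neg (by omega), add_zero]
      calc ‖∑ d ∈ PB v, χ d‖ * (1 / ((v : ℝ) * (v + 1))) ≤ (16 * v) * (1 / ((v : ℝ) * (v + 1))) :=
            mul_le_mul_of_nonneg_right (chs_le' hch hv.1) hp.le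
        _ = 16 * (1 / ((v : ℝ) + 1)) := by field_simp
    · rw [if_neg h, if_pos (by omega), zero_add]
      calc ‖∑ d ∈ PB v, χ d‖ * (1 / ((v : ℝ) * (v + 1))) ≤
            (108 * N * Real.sqrt v) * (1 / ((v : ℝ) * (v + 1))) :=
            mul_le_mul_of_nonneg_right (hB v hv.1) hp.le
        _ = 108 * N * (Real.sqrt v / (v * (v + 1))) := by ring
  have e5 : ‖∑ v ∈ Ico 1 Y, (∑ d ∈ PB v, χ d) * ((1 / ((v : ℝ) * (v + 1)) : ℝ) : ℂ)‖ ≤
      16 * (2 * lg N) + 216 := by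
    refine (norm_sum_le _ _).trans ((sum_le_sum e4).trans ?_)
    rw [sum_add_distrib]
    have hN2 : 1 ≤ N ^ 2 := Nat.one_le_pow _ _ hN1
    have a1 : ∑ v ∈ Ico 1 Y, (if v < N ^ 2 then 16 * (1 / ((v : ℝ) + 1)) else 0) ≤ 16 * (2 * lg N) := by
      rw [← sum_filter, ← mul_sum]
      have h2 : ∑ v ∈ (Ico 1 Y).filter (fun v => v < N ^ 2), (1 : ℝ) / ((v : ℝ) + 1) ≤
          ∑ v ∈ Ico 1 (N ^ 2), (1 : ℝ) / ((v : ℝ) + 1) := by
        refine sum_le_sum_of_subset_of_nonneg ?_ (fun _ _ _ => by positivity)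
        intro v hv
        rw [mem_filter, mem_Ico] at hv
        rw [mem_Ico]
        exact ⟨hv.1.1, hv.2⟩
      have h3 := harm_le (N ^ 2) hN2
      have h4 : Real.log ((N ^ 2 : ℕ) : ℝ) = 2 * Real.log N := by
        push_cast
        rw [Real.log_pow]
        push_cast
        ring
      rw [h4] at h3
      have h5 := log_le_lg hN1
      linarith
    have a2 : ∑ v ∈ Ico 1 Y, (if N ^ 2 ≤ v then 108 * (N : ℝ) * (Real.sqrt v / (v * (v + 1))) else 0) ≤ 216 := by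
      rw [← sum_filter, ← mul_sum]
      have h2 : ∑ v ∈ (Ico 1 Y).filter (fun v => N ^ 2 ≤ v), Real.sqrt v / ((v : ℝ) * (v + 1)) ≤
          ∑ v ∈ Ico (N ^ 2) (max Y (N ^ 2)), Real.sqrt v / ((v : ℝ) * (v + 1)) := by
        refine sum_le_sum_of_subset_of_nonneg ?_ (fun _ _ _ => by positivity)
        intro v hv
        rw [mem_filter, mem_Ico] at hv
        rw [mem_Ico]
        exact ⟨hv.2, lt_of_lt_of_le hv.1.2 (le_max_left _ _)⟩
      have h3 := sqrt_tel (N ^ 2) hN2 (max Y (N ^ 2)) (le_max_right _ _)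
      have h4 : Real.sqrt ((N ^ 2 : ℕ) : ℝ) = N := by
        push_cast
        exact Real.sqrt_sq (Nat.cast_nonneg _)
      rw [h4] at h3
      have h5 : (0 : ℝ) ≤ 1 / Real.sqrt ((max Y (N ^ 2) : ℕ) : ℝ) := by positivity
      have Nr : (0 : ℝ) < N := by exact_mod_cast hN1
      calc 108 * (N : ℝ) * ∑ v ∈ (Ico 1 Y).filter (fun v => N ^ 2 ≤ v), Real.sqrt v / ((v : ℝ) * (v + 1))
          ≤ 108 * N * (2 * (1 / N)) := by
            apply mul_le_mul_of_nonneg_left _ (by positivity)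
            linarith
        _ = 216 := by field_simp; norm_num
    linarith
  linarith

/-- the sets of primes `p ≡ 1` at which the character of the two factors is equal to one -/
noncomputable def HDc (χ : Ei → ℂ) (T : ℕ) : Finset (Finset ℕ) :=
  (range (T + 1)).powerset.filter fun S => (∀ p ∈ S, p.Prime ∧ p % 3 = 1 ∧
    χ (pp p) = 1 ∧ χ (star (pp p)) = 1) ∧ ∏ p ∈ S, p ≤ T

lemma gc_nonneg {χ : Ei → ℂ} (h : CH χ) (π : Ei) : 0 ≤ (1 + 2 * (χ π).re) / 3 := by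
  have := re_nonneg (h.val π)
  linarith

lemma gc_le {χ : Ei → ℂ} (h : CH χ) (π : Ei) : (1 + 2 * (χ π).re) / 3 ≤ 1 := by
  have := re_le (h.val π)
  linarith

/-- the square of the logarithmic sum -/
lemma HDc_sq (L : LamP) {χ : Ei → ℂ} (hχ : CH χ) (T : ℕ) :
    (∑ S ∈ HDc χ T, (1 : ℝ) / ((∏ p ∈ S, p : ℕ) : ℝ)) ^ 2 ≤
      ∑ n ∈ SB (T ^ 2), mf (fun π => (1 + 2 * (χ π).re) / 3) n / nrm n := by
  have hOp : ∀ S ∈ HDc χ T, Op S ∧ (∀ p ∈ S, χ (pp p) = 1 ∧ χ (star (pp p)) = 1) ∧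
      ∏ p ∈ S, p ≤ T := by
    intro S hS
    unfold HDc at hS
    rw [mem_filter] at hS
    exact ⟨fun p hp => ⟨(hS.2.1 p hp).1, (hS.2.1 p hp).2.1⟩, fun p hp => (hS.2.1 p hp).2.2, hS.2.2⟩
  have e1 : (∑ S ∈ HDc χ T, (1 : ℝ) / ((∏ p ∈ S, p : ℕ) : ℝ)) ^ 2 =
      ∑ x ∈ HDc χ T ×ˢ HDc χ T,
        (1 : ℝ) / (((∏ p ∈ x.1, p : ℕ) : ℝ) * ((∏ p ∈ x.2, p : ℕ) : ℝ)) := by
    rw [sq, sum_mul_sum, ← sum_product']
    refine sum_congr rfl fun x _ => ?_
    rw [div_mul_div_comm, one_mul]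
  rw [e1]
  refine sum_le_inj pr2 ?_ ?_ ?_ ?_
  · intro x hx
    rw [mem_product] at hx
    obtain ⟨a1, a2, a3⟩ := hOp _ hx.1
    obtain ⟨b1, b2, b3⟩ := hOp _ hx.2
    rw [mem_SB, nrm_pr2 L a1 b1]
    exact ⟨by rw [sq]; exact Nat.mul_le_mul a3 b3, (pr2_ps L a1 b1).1⟩
  · intro x hx y hy h
    rw [mem_product] at hx hy
    exact pr2_inj L (hOp _ hx.1).1 (hOp _ hx.2).1 (hOp _ hy.1).1 (hOp _ hy.2).1 h
  · intro x hx
    rw [mem_product] at hx
    obtain ⟨a1, a2, a3⟩ := hOp _ hx.1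
    obtain ⟨b1, b2, b3⟩ := hOp _ hx.2
    have e2 : mf (fun π => (1 + 2 * (χ π).re) / 3) (pr2 x) = 1 := by
      unfold mf
      rw [(pr2_ps L a1 b1).2]
      refine prod_eq_one fun π hπ => ?_
      have h3 : χ π = 1 := by
        unfold st2 at hπ
        rw [mem_union, mem_image, mem_image] at hπ
        rcases hπ with ⟨p, hp, rfl⟩ | ⟨p, hp, rfl⟩
        · exact (a2 p hp).1
        · exact (b2 p hp).2
      rw [h3]
      norm_num
    rw [e2, nrm_pr2 L a1 b1]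
    push_cast
    exact le_rfl
  · intro n _
    exact div_nonneg (mf_nonneg (gc_nonneg hχ) n) (Nat.cast_nonneg _)

/-- **the logarithmic density** -/
theorem halG (L : LamP) {χ : Ei → ℂ} (hχ : CH χ) {N : ℕ} (hN1 : 1 ≤ N) (hB : Bd χ N) {T : ℕ}
    (hT : 2 ≤ T) : ∑ S ∈ HDc χ T, (1 : ℝ) / ((∏ p ∈ S, p : ℕ) : ℝ) ≤
      864 * (lg N) ^ (1 / 6 : ℝ) * (Real.log T) ^ (1 / 3 : ℝ) := by
  have hl := one_le_lg N
  have lT : 0 < Real.log T := Real.log_pos (by exact_mod_cast (by omega : 1 < T))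
  have h2 := HDc_sq L hχ T
  have h3 := hall3 (gc_nonneg hχ) (gc_le hχ) (T ^ 2)
  have h4 : ∑ n ∈ PB ((T ^ 2) ^ 3), mf (fun π => 3 * ((1 + 2 * (χ π).re) / 3)) n / nrm n ≤
      (32 * lg ((T ^ 2) ^ 3)) ^ 2 * (264 * lg N) := by
    have e1 : (fun π : Ei => 3 * ((1 + 2 * (χ π).re) / 3)) =
        fun π => 1 + 2 * (χ π).re := by
      funext π; ring
    rw [e1]
    exact conv_bound hχ (chs_logG hχ hN1 hB) _
  have h5 : lg ((T ^ 2) ^ 3) ≤ 27 * Real.log T := by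
    have a1 := lg_cube (T ^ 2)
    have a2 : lg (T ^ 2) ≤ lg (T ^ 3) := lg_mono (Nat.pow_le_pow_right (by omega) (by norm_num))
    have a3 := lg_cube T
    have a4 := lg_le_log hT
    linarith
  have h7 := lg_pos ((T ^ 2) ^ 3)
  generalize hH : ∑ S ∈ HDc χ T, (1 : ℝ) / ((∏ p ∈ S, p : ℕ) : ℝ) = H at h2 ⊢
  have H0 : 0 ≤ H := by
    rw [← hH]
    exact sum_nonneg fun S _ => by positivity
  generalize lg N = N at h4 hl ⊢
  have N0 : 0 < N := by linarith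
  have h6 : H ^ 6 ≤ (864 * Real.log T) ^ 2 * (264 * N) := by
    have e2 : H ^ 6 = (H ^ 2) ^ 3 := by ring
    rw [e2]
    refine (pow_le_pow_left₀ (by positivity) h2 3).trans (h3.trans (h4.trans ?_))
    apply mul_le_mul_of_nonneg_right _ (by positivity)
    apply pow_le_pow_left₀ (by positivity)
    linarith
  apply le_of_pow_le_pow_left₀ (n := 6) (by norm_num) (by positivity)
  refine h6.trans ?_
  have e1 : (864 * N ^ (1 / 6 : ℝ) * Real.log T ^ (1 / 3 : ℝ)) ^ 6 =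
      864 ^ 6 * N * (Real.log T) ^ 2 := by
    rw [mul_pow, mul_pow, ← Real.rpow_natCast (N ^ (1 / 6 : ℝ)), ← Real.rpow_mul N0.le,
      ← Real.rpow_natCast (Real.log T ^ (1 / 3 : ℝ)), ← Real.rpow_mul lT.le]
    norm_num
  rw [e1]
  have h8 : 0 ≤ N * (Real.log T) ^ 2 := by positivity
  calc (864 * Real.log T) ^ 2 * (264 * N) = (864 ^ 2 * 264) * (N * (Real.log T) ^ 2) := by ring
    _ ≤ 864 ^ 6 * (N * (Real.log T) ^ 2) := by
        apply mul_le_mul_of_nonneg_right _ h8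
        norm_num
    _ = 864 ^ 6 * N * (Real.log T) ^ 2 := by ring

end Run7.h238.C
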